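import Mathlib

/-!
`log 2` and `log 3` to 50 digits, best approximation property of neighbouring convergents, and
explicit lower bounds of `|K log 2 - L log 3|` for small `L`.
-/

open Finset

namespace Pool.Agent.KLA

theorem log_bounds (a : ℝ) (ha : 0 < a) (n : ℕ) :
    (∑ k ∈ range n, (2 : ℝ) * (1 / (2 * k + 1)) * (1 / (2 * a + 1)) ^ (2 * k + 1)) ≤
        Real.log (1 + a⁻¹) ∧
      Real.log (1 + a⁻¹) ≤
        (∑ k ∈ range n, (2 : ℝ) * (1 / (2 * k + 1)) * (1 / (2 * a + 1)) ^ (2 * k + 1)) +
        2 * (1 / (2 * a + 1)) ^ (2 * n + 1) / (1 - (1 / (2 * a + 1)) ^ 2) := by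
  have h := Real.hasSum_log_one_add_inv ha
  set r : ℝ := 1 / (2 * a + 1) with hr
  have hr0 : 0 < r := by positivity
  have hr1 : r < 1 := by rw [hr, div_lt_one (by positivity)]; linarith
  set t : ℕ → ℝ := fun k => (2 : ℝ) * (1 / (2 * k + 1)) * r ^ (2 * k + 1) with ht
  have ht0 : ∀ k, 0 ≤ t k := fun k => by simp only [ht]; positivity
  constructor
  · exact sum_le_hasSum _ (fun k _ => ht0 k) h
  · have h2 := (hasSum_nat_add_iff' n).mpr h
    have hr2 : r ^ 2 < 1 := by nlinarith
    have hg := (hasSum_geometric_of_lt_one (by positivity) hr2).mul_left (2 * r ^ (2 * n + 1))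
    have h3 := hasSum_le (fun k => ?_) h2 hg
    · have e1 : 2 * r ^ (2 * n + 1) / (1 - r ^ 2) = 2 * r ^ (2 * n + 1) * (1 - r ^ 2)⁻¹ := by
        rw [div_eq_mul_inv]
      rw [e1]
      linarith
    · have h4 : (1 : ℝ) / (2 * ((k + n : ℕ) : ℝ) + 1) ≤ 1 := by
        rw [div_le_one (by positivity)]
        have : (0 : ℝ) ≤ ((k + n : ℕ) : ℝ) := Nat.cast_nonneg _
        linarith
      calc (2 : ℝ) * (1 / (2 * ((k + n : ℕ) : ℝ) + 1)) * r ^ (2 * (k + n) + 1)
          ≤ 2 * 1 * r ^ (2 * (k + n) + 1) := by gcongr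
        _ = 2 * r ^ (2 * n + 1) * (r ^ 2) ^ k := by ring

theorem log_two_bounds :
    (0.693147180559945309417232121458176568075500134360255 : ℝ) < Real.log 2 ∧
      Real.log 2 < 0.693147180559945309417232121458176568075500134360256 := by
  obtain ⟨h1, h2⟩ := log_bounds 1 one_pos 56
  have e : (1 : ℝ) + 1⁻¹ = 2 := by norm_num
  rw [e] at h1 h2
  constructor
  · refine lt_of_lt_of_le ?_ h1
    norm_num [Finset.sum_range_succ]
  · refine lt_of_le_of_lt h2 ?_
    norm_num [Finset.sum_range_succ]

theorem log_three_half_bounds :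
    (0.40546510810816438197801311546434913657199042346249 : ℝ) < Real.log (3 / 2) ∧
      Real.log (3 / 2) < 0.40546510810816438197801311546434913657199042346250 := by
  obtain ⟨h1, h2⟩ := log_bounds 2 two_pos 38
  have e : (1 : ℝ) + 2⁻¹ = 3 / 2 := by norm_num
  rw [e] at h1 h2
  constructor
  · refine lt_of_lt_of_le ?_ h1
    norm_num [Finset.sum_range_succ]
  · refine lt_of_le_of_lt h2 ?_
    norm_num [Finset.sum_range_succ]

/-- The linear form. -/
noncomputable def Lin (K L : ℤ) : ℝ := (K : ℝ) * Real.log 2 - L * Real.log 3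

theorem Lin_eq (K L : ℤ) :
    Lin K L = ((K : ℝ) - L) * Real.log 2 - L * Real.log (3 / 2) := by
  unfold Lin
  rw [Real.log_div (by norm_num) (by norm_num)]
  ring

theorem abs_le_abs_add_of_mul_nonneg {a b : ℝ} (h : 0 ≤ a * b) : |a| ≤ |a + b| := by
  rw [← sq_le_sq]
  nlinarith [sq_nonneg b]

theorem best_approx {p q p' q' : ℤ} {δ : ℝ} (hq : 0 < q) (hq' : 0 < q')
    (hdet : p * q' - p' * q = 1 ∨ p * q' - p' * q = -1) (hδ : δ ≤ |Lin p q|)
    (hsign : Lin p q * Lin p' q' ≤ 0) {K L : ℤ} (hL0 : 0 < L) (hL : L < q') :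
    δ ≤ |Lin K L| := by
  refine hδ.trans ?_
  obtain ⟨x, y, hx, hy⟩ : ∃ x y : ℤ, K = x * p + y * p' ∧ L = x * q + y * q' := by
    rcases hdet with h | h
    · refine ⟨K * q' - L * p', p * L - q * K, ?_, ?_⟩
      · linear_combination (-K) * h
      · linear_combination (-L) * h
    · refine ⟨-(K * q' - L * p'), -(p * L - q * K), ?_, ?_⟩
      · linear_combination K * h
      · linear_combination L * h
  have hlin : Lin K L = x * Lin p q + y * Lin p' q' := by
    unfold Lin; rw [hx, hy]; push_cast; ring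
  have hxne : x ≠ 0 := by
    rintro rfl
    rw [zero_mul, zero_add] at hy
    rcases lt_trichotomy y 0 with h | h | h
    · nlinarith
    · subst h; simp at hy; omega
    · nlinarith
  have hxy : (x : ℝ) * y ≤ 0 := by
    have : x * y ≤ 0 := by
      rcases lt_trichotomy y 0 with h | h | h
      · have hx0 : 0 < x := by
          by_contra hc
          push Not at hc
          nlinarith
        nlinarith
      · rw [h]; simp
      · have hx0 : x < 0 := by
          by_contra hc
          push Not at hc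
          nlinarith
        nlinarith
    exact_mod_cast this
  have h1 : |Lin p q| ≤ |(x : ℝ) * Lin p q| := by
    rw [abs_mul]
    have : (1 : ℝ) ≤ |(x : ℝ)| := by
      have h := Int.one_le_abs hxne
      exact_mod_cast h
    nlinarith [abs_nonneg (Lin p q)]
  have h2 : 0 ≤ ((x : ℝ) * Lin p q) * (y * Lin p' q') := by
    have : ((x : ℝ) * Lin p q) * (y * Lin p' q') = (x * y) * (Lin p q * Lin p' q') := by ring
    rw [this]
    exact mul_nonneg_of_nonpos_of_nonpos hxy hsign
  rw [hlin]
  exact h1.trans (abs_le_abs_add_of_mul_nonneg h2)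

/-- Lower bound for `L < 665`. -/
theorem lin_lower_a {K L : ℤ} (hL0 : 0 < L) (hL : L < 665) : 0.0010222 ≤ |Lin K L| := by
  obtain ⟨a1, a2⟩ := log_two_bounds
  obtain ⟨b1, b2⟩ := log_three_half_bounds
  refine best_approx (p := 485) (q := 306) (p' := 1054) (q' := 665) (by norm_num)
    (by norm_num) (by norm_num) ?_ ?_ hL0 hL
  · rw [Lin_eq]
    apply le_abs.mpr
    left
    norm_num
    linarith
  · rw [Lin_eq, Lin_eq]
    apply mul_nonpos_of_nonneg_of_nonpos
    · norm_num
      linarith
    · norm_num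
      linarith

/-- Lower bound for `L < 15601`. -/
theorem lin_lower_b {K L : ℤ} (hL0 : 0 < L) (hL : L < 15601) : 4.3654e-5 ≤ |Lin K L| := by
  obtain ⟨a1, a2⟩ := log_two_bounds
  obtain ⟨b1, b2⟩ := log_three_half_bounds
  refine best_approx (p := 1054) (q := 665) (p' := 24727) (q' := 15601) (by norm_num)
    (by norm_num) (by norm_num) ?_ ?_ hL0 hL
  · rw [Lin_eq]
    apply le_abs.mpr
    right
    norm_num
    linarith
  · rw [Lin_eq, Lin_eq]
    apply mul_nonpos_of_nonpos_of_nonneg
    · norm_num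
      linarith
    · norm_num
      linarith

/-- Lower bound for `L < 31867`. -/
theorem lin_lower_c {K L : ℤ} (hL0 : 0 < L) (hL : L < 31867) : 1.8194e-5 ≤ |Lin K L| := by
  obtain ⟨a1, a2⟩ := log_two_bounds
  obtain ⟨b1, b2⟩ := log_three_half_bounds
  refine best_approx (p := 24727) (q := 15601) (p' := 50508) (q' := 31867) (by norm_num)
    (by norm_num) (by norm_num) ?_ ?_ hL0 hL
  · rw [Lin_eq]
    apply le_abs.mpr
    left
    norm_num
    linarith
  · rw [Lin_eq, Lin_eq]
    apply mul_nonpos_of_nonneg_of_nonpos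
    · norm_num
      linarith
    · norm_num
      linarith

/-- Lower bound for `L < 79335`. -/
theorem lin_lower_d {K L : ℤ} (hL0 : 0 < L) (hL : L < 79335) : 7.2649e-6 ≤ |Lin K L| := by
  obtain ⟨a1, a2⟩ := log_two_bounds
  obtain ⟨b1, b2⟩ := log_three_half_bounds
  refine best_approx (p := 50508) (q := 31867) (p' := 125743) (q' := 79335) (by norm_num)
    (by norm_num) (by norm_num) ?_ ?_ hL0 hL
  · rw [Lin_eq]
    apply le_abs.mpr
    right
    norm_num
    linarith
  · rw [Lin_eq, Lin_eq]
    apply mul_nonpos_of_nonpos_of_nonneg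
    · norm_num
      linarith
    · norm_num
      linarith

/-- Lower bound for `L < 111202`. -/
theorem lin_lower_e {K L : ℤ} (hL0 : 0 < L) (hL : L < 111202) : 3.6647e-6 ≤ |Lin K L| := by
  obtain ⟨a1, a2⟩ := log_two_bounds
  obtain ⟨b1, b2⟩ := log_three_half_bounds
  refine best_approx (p := 125743) (q := 79335) (p' := 176251) (q' := 111202) (by norm_num)
    (by norm_num) (by norm_num) ?_ ?_ hL0 hL
  · rw [Lin_eq]
    apply le_abs.mpr
    left
    norm_num
    linarith
  · rw [Lin_eq, Lin_eq]
    apply mul_nonpos_of_nonneg_of_nonpos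
    · norm_num
      linarith
    · norm_num
      linarith

/-- Lower bound for `L < 190537`. -/
theorem lin_lower_f {K L : ℤ} (hL0 : 0 < L) (hL : L < 190537) : 3.6002e-6 ≤ |Lin K L| := by
  obtain ⟨a1, a2⟩ := log_two_bounds
  obtain ⟨b1, b2⟩ := log_three_half_bounds
  refine best_approx (p := 176251) (q := 111202) (p' := 301994) (q' := 190537) (by norm_num)
    (by norm_num) (by norm_num) ?_ ?_ hL0 hL
  · rw [Lin_eq]
    apply le_abs.mpr
    right
    norm_num
    linarith
  · rw [Lin_eq, Lin_eq]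
    apply mul_nonpos_of_nonpos_of_nonneg
    · norm_num
      linarith
    · norm_num
      linarith

/-- Lower bound for `L < 10590737`. -/
theorem lin_lower_g {K L : ℤ} (hL0 : 0 < L) (hL : L < 10590737) : 6.45e-8 ≤ |Lin K L| := by
  obtain ⟨a1, a2⟩ := log_two_bounds
  obtain ⟨b1, b2⟩ := log_three_half_bounds
  refine best_approx (p := 301994) (q := 190537) (p' := 16785921) (q' := 10590737) (by norm_num)
    (by norm_num) (by norm_num) ?_ ?_ hL0 hL
  · rw [Lin_eq]
    apply le_abs.mpr
    left
    norm_num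
    linarith
  · rw [Lin_eq, Lin_eq]
    apply mul_nonpos_of_nonneg_of_nonpos
    · norm_num
      linarith
    · norm_num
      linarith

/-- Lower bound for `L < 7736332199829210068325`. -/
theorem lin_lower₃ {K L : ℤ} (hL0 : 0 < L) (hL : L < 7736332199829210068325) : 8.9e-23 ≤ |Lin K L| := by
  obtain ⟨a1, a2⟩ := log_two_bounds
  obtain ⟨b1, b2⟩ := log_three_half_bounds
  refine best_approx (p := 325919355854421968365) (q := 205632218873398596256) (p' := 12261796429850908150604) (q' := 7736332199829210068325) (by norm_num)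
    (by norm_num) (by norm_num) ?_ ?_ hL0 hL
  · rw [Lin_eq]
    apply le_abs.mpr
    left
    norm_num
    linarith
  · rw [Lin_eq, Lin_eq]
    apply mul_nonpos_of_nonneg_of_nonpos
    · norm_num
      linarith
    · norm_num
      linarith

end Pool.Agent.KLA
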