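import Pool.Agent.KLA.Gelfond2
import Pool.Agent.KLA.Logs

/-!
The weak Gelfond bound for all positive integers:
`2 ^ (- 2 ^ 26 (2 clog₂ L + 40) ^ 4) < |K log 2 - L log 3|`.
-/

namespace Pool.Agent.KLA

theorem sq_le_pow (t : ℕ) : (2 * t + 40) ^ 2 ≤ 2 ^ (t + 22) := by
  induction t with
  | zero => norm_num
  | succ t ih =>
    have e1 : 2 ^ (t + 1 + 22) = 2 * 2 ^ (t + 22) := by ring
    rw [e1]
    calc (2 * (t + 1) + 40) ^ 2 ≤ 2 * (2 * t + 40) ^ 2 := by
          nlinarith [Nat.zero_le (t * t)]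
      _ ≤ 2 * 2 ^ (t + 22) := Nat.mul_le_mul_left 2 ih

theorem lin_le_pow (t : ℕ) (ht : 16 ≤ t) : 256 * (2 * t + 40) ≤ 2 ^ (t - 1) := by
  induction t, ht using Nat.le_induction with
  | base => norm_num
  | succ t ht ih =>
    have e1 : 2 ^ (t + 1 - 1) = 2 * 2 ^ (t - 1) := by
      rw [← pow_succ']
      congr 1
      omega
    rw [e1]
    omega

/-- The exponent parameter. -/
def ee (L : ℕ) : ℕ := 2 * Nat.clog 2 L + 40

theorem gelfond_coprime' {K L : ℕ} (hcop : Nat.Coprime K L) (hL : 2 ^ 16 ≤ L)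
    (hK : K ≤ 2 * L) :
    1 / 2 ^ (2 ^ 26 * ee L ^ 4) < |(K : ℝ) * Real.log 2 - L * Real.log 3| := by
  set t := Nat.clog 2 L with ht
  have hLt : L ≤ 2 ^ t := Nat.le_pow_clog (by norm_num) L
  have ht16 : 16 ≤ t := by
    by_contra hc
    push Not at hc
    have : 2 ^ t ≤ 2 ^ 15 := Nat.pow_le_pow_right (by norm_num) (by omega)
    omega
  have hLt' : 2 ^ (t - 1) < L := Nat.pow_pred_clog_lt_self (by norm_num) (by omega)
  apply gelfond_coprime (e := ee L) (by unfold ee; omega) hcop ?_ hK ?_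
  · have := lin_le_pow t ht16
    unfold ee
    rw [← ht]
    omega
  · unfold ee
    rw [← ht]
    calc 2 ^ 18 * (2 * t + 40) ^ 2 * L ≤ 2 ^ 18 * 2 ^ (t + 22) * 2 ^ t :=
          Nat.mul_le_mul (Nat.mul_le_mul_left _ (sq_le_pow t)) hLt
      _ = 2 ^ (2 * t + 40) := by ring

theorem small_pow_lt : (1 : ℝ) / 2 ^ 74 < 8.9e-23 := by norm_num

/-- Dichotomy: either the linear form is at least `8.9e-23` or `L` is huge and the weak
Gelfond bound holds. -/
theorem lin_dichotomy (K L : ℕ) (hL : 1 ≤ L) :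
    8.9e-23 ≤ |(K : ℝ) * Real.log 2 - L * Real.log 3| ∨
      (7736332199829210068325 ≤ L ∧
        1 / 2 ^ (2 ^ 26 * ee L ^ 4) < |(K : ℝ) * Real.log 2 - L * Real.log 3|) := by
  have hlog2 := log_two_bounds
  have hlog32 := log_three_half_bounds
  have hlog3 : Real.log 3 = Real.log 2 + Real.log (3 / 2) := by
    rw [Real.log_div (by norm_num) (by norm_num)]; ring
  rcases Nat.lt_or_ge (2 * L) K with hK | hK
  · left
    have h1 : ((2 * L : ℕ) : ℝ) ≤ K := by exact_mod_cast hK.le
    push_cast at h1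
    have hL' : (1 : ℝ) ≤ L := by exact_mod_cast hL
    apply le_abs.mpr
    left
    have h2 : (2 * L : ℝ) * Real.log 2 ≤ K * Real.log 2 := by
      apply mul_le_mul_of_nonneg_right h1
      linarith [hlog2.1]
    have h3 : (1 : ℝ) * (Real.log 2 - Real.log (3 / 2)) ≤ L * (Real.log 2 - Real.log (3 / 2)) := by
      apply mul_le_mul_of_nonneg_right hL'
      linarith [hlog2.1, hlog32.2]
    rw [hlog3]
    nlinarith [hlog2.1, hlog32.2]
  -- reduce to the coprime case
  set g := Nat.gcd K L with hg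
  have hg0 : 0 < g := Nat.gcd_pos_of_pos_right K hL
  obtain ⟨K', hK'⟩ := Nat.gcd_dvd_left K L
  obtain ⟨L', hL'⟩ := Nat.gcd_dvd_right K L
  rw [← hg] at hK' hL'
  have hcop : Nat.Coprime K' L' := by
    have h1 : Nat.gcd K L = g * Nat.gcd K' L' := by
      conv_lhs => rw [hK', hL']
      rw [Nat.gcd_mul_left]
    rw [← hg] at h1
    have : Nat.gcd K' L' = 1 := by
      have h2 : g * 1 = g * Nat.gcd K' L' := by rw [mul_one]; exact h1
      exact (Nat.eq_of_mul_eq_mul_left hg0 h2).symm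
    exact this
  have hL'0 : 0 < L' := by
    rcases Nat.eq_zero_or_pos L' with h | h
    · rw [h, mul_zero] at hL'; omega
    · exact h
  have hK'2 : K' ≤ 2 * L' := by
    have : g * K' ≤ g * (2 * L') := by
      calc g * K' = K := hK'.symm
        _ ≤ 2 * L := hK
        _ = g * (2 * L') := by rw [hL']; ring
    exact Nat.le_of_mul_le_mul_left this hg0
  have hLL' : L' ≤ L := by
    rw [hL']; exact Nat.le_mul_of_pos_left _ hg0
  have habs : |(K' : ℝ) * Real.log 2 - L' * Real.log 3| ≤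
      |(K : ℝ) * Real.log 2 - L * Real.log 3| := by
    have h1 : (K : ℝ) * Real.log 2 - L * Real.log 3 =
        g * ((K' : ℝ) * Real.log 2 - L' * Real.log 3) := by
      conv_lhs => rw [hK', hL']
      push_cast; ring
    rw [h1, abs_mul, Nat.abs_cast]
    have : (1 : ℝ) ≤ g := by exact_mod_cast hg0
    nlinarith [abs_nonneg ((K' : ℝ) * Real.log 2 - L' * Real.log 3)]
  rcases Nat.lt_or_ge L' 7736332199829210068325 with h | h
  · left
    refine le_trans ?_ habs
    have := lin_lower₃ (K := (K' : ℤ)) (L := (L' : ℤ)) (by exact_mod_cast hL'0)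
      (by exact_mod_cast h)
    unfold Lin at this
    simpa using this
  · right
    refine ⟨h.trans hLL', lt_of_le_of_lt ?_ (lt_of_lt_of_le
      (gelfond_coprime' hcop (by omega) hK'2) habs)⟩
    apply one_div_le_one_div_of_le (by positivity)
    apply pow_le_pow_right₀ (by norm_num)
    have : ee L' ≤ ee L := by
      unfold ee
      have := Nat.clog_mono_right 2 hLL'
      omega
    gcongr

/-- The weak Gelfond bound. -/
theorem gelfond (K L : ℕ) (hL : 1 ≤ L) :
    1 / 2 ^ (2 ^ 26 * ee L ^ 4) < |(K : ℝ) * Real.log 2 - L * Real.log 3| := by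
  rcases lin_dichotomy K L hL with h | h
  · refine lt_of_lt_of_le ?_ h
    refine lt_of_le_of_lt ?_ small_pow_lt
    apply one_div_le_one_div_of_le (by positivity)
    apply pow_le_pow_right₀ (by norm_num)
    have h1 : 1 ≤ ee L ^ 4 := Nat.one_le_pow _ _ (by unfold ee; omega)
    omega
  · exact h.2

end Pool.Agent.KLA
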