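import Pool.Agent.KLA.Cycle3
import Pool.Agent.KLA.Measure

/-!
Cycles with at most 16 descending runs: bounds for the least element.
-/

open Finset

namespace Pool.Agent.KLA

theorem th_inv_eq : th⁻¹ = Real.log 3 / Real.log 2 := by
  unfold th; rw [inv_div]

theorem th_inv_le : th⁻¹ ≤ 1.58496251 := by
  rw [th_inv_eq]
  obtain ⟨a1, a2⟩ := log_two_bounds
  obtain ⟨b1, b2⟩ := log_three_half_bounds
  have hlog3 : Real.log 3 = Real.log 2 + Real.log (3 / 2) := by
    rw [Real.log_div (by norm_num) (by norm_num)]; ring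
  rw [div_le_iff₀ (by linarith), hlog3]
  linarith

theorem one_le_th_inv : 1 ≤ th⁻¹ := by
  rw [one_le_inv₀ th_pos]; exact th_lt_one.le

theorem GS_le (R : ℕ) : GS R ≤ ∑ i ∈ range R, (1.58496251 : ℝ) ^ (i + 1) := by
  unfold GS
  apply Finset.sum_le_sum
  intro i _
  have := th_inv_le
  have h0 : 0 ≤ th⁻¹ := by have := one_le_th_inv; linarith
  gcongr

theorem GS_add_le (R d : ℕ) : GS R + d ≤ GS (R + d) := by
  induction d with
  | zero => simp
  | succ d ih =>
    rw [← add_assoc, GS_succ]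
    have : 1 ≤ th⁻¹ ^ (R + d + 1) := one_le_pow₀ one_le_th_inv
    push_cast
    linarith

theorem GS4_le : GS 4 ≤ 14.4 := (GS_le 4).trans (by norm_num [Finset.sum_range_succ])
theorem GS3_le : GS 3 ≤ 8.08 := (GS_le 3).trans (by norm_num [Finset.sum_range_succ])
theorem GS10_le : GS 10 ≤ 268.4 := (GS_le 10).trans (by norm_num [Finset.sum_range_succ])
theorem GS11_le : GS 11 ≤ 427 := (GS_le 11).trans (by norm_num [Finset.sum_range_succ])
theorem GS12_le : GS 12 ≤ 678.3 := (GS_le 12).trans (by norm_num [Finset.sum_range_succ])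
theorem GS13_le : GS 13 ≤ 1076.6 := (GS_le 13).trans (by norm_num [Finset.sum_range_succ])
theorem GS14_le : GS 14 ≤ 1708 := (GS_le 14).trans (by norm_num [Finset.sum_range_succ])
theorem GS15_le : GS 15 ≤ 2708.6 := (GS_le 15).trans (by norm_num [Finset.sum_range_succ])

/-- Data of a cycle with least element `n`. -/
structure Facts (n ℓ M : ℕ) (S Z b K : ℕ) : Prop where
  sz : S + Z ≤ M
  s1 : 1 ≤ S
  lin : |(K : ℝ) * Real.log 2 - ℓ * Real.log 3| * n ≤ 1.0102 * (S + Z / 8)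
  dsc : (b : ℝ) * Real.log 2 ≤ Real.log ((8 * n : ℕ) : ℝ) * (S + GS Z)
  len : (ℓ : ℝ) ≤ 2.4095 * b + 4 * |(K : ℝ) * Real.log 2 - ℓ * Real.log 3|

theorem len_le (b a : ℕ) :
    ((b + a : ℕ) : ℝ) ≤ 2.4095 * b +
      4 * |(((b + a) + a : ℕ) : ℝ) * Real.log 2 - ((b + a : ℕ) : ℝ) * Real.log 3| := by
  obtain ⟨a1, a2⟩ := log_two_bounds
  obtain ⟨b1, b2⟩ := log_three_half_bounds
  have hlog3 : Real.log 3 = Real.log 2 + Real.log (3 / 2) := by
    rw [Real.log_div (by norm_num) (by norm_num)]; ring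
  have h := le_abs_self ((((b + a) + a : ℕ) : ℝ) * Real.log 2 - ((b + a : ℕ) : ℝ) * Real.log 3)
  rw [hlog3] at h ⊢
  push_cast at h ⊢
  have hb : (0 : ℝ) ≤ b := Nat.cast_nonneg _
  have ha : (0 : ℝ) ≤ a := Nat.cast_nonneg _
  have h1 : (a : ℝ) * 0.28768 ≤ a * (Real.log 2 - Real.log (3 / 2)) := by
    apply mul_le_mul_of_nonneg_left _ ha
    linarith
  have h2 : (b : ℝ) * Real.log (3 / 2) ≤ b * 0.405466 := by
    apply mul_le_mul_of_nonneg_left _ hb
    linarith
  have h0 := abs_nonneg (((b : ℝ) + a + a) * Real.log 2 - (b + a) * (Real.log 2 + Real.log (3 / 2)))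
  have h3 : ((b : ℝ) + a + a) * Real.log 2 - (b + a) * (Real.log 2 + Real.log (3 / 2)) =
      a * (Real.log 2 - Real.log (3 / 2)) - b * Real.log (3 / 2) := by ring
  rw [h3] at h h0 ⊢
  linarith

theorem min_not_dvd {n : ℕ} (hn : 0 < n) (hmin : ∀ t, n ≤ klam^[t] n) : ¬ 3 ∣ n := by
  intro h
  have h1 := klam_lt hn h
  have h2 := hmin 1
  simp only [Function.iterate_one] at h2
  omega

theorem one_le_Ss {n ℓ : ℕ} (hn : 2 ≤ n) (hℓ : 1 ≤ ℓ) (h : klam^[ℓ] n = n)
    (hmin : ∀ t, n ≤ klam^[t] n) : 1 ≤ Ss n n ℓ := by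
  obtain ⟨k, rfl⟩ : ∃ k, ℓ = k + 1 := ⟨ℓ - 1, by omega⟩
  have hn3 := min_not_dvd (by omega) hmin
  rw [Function.iterate_succ_apply'] at h
  have h1 := hmin k
  have h3 : 3 ∣ klam^[k] n := by
    by_contra hc
    have := lt_klam (by omega) hc
    omega
  have h4 : re (klam^[k] n) = 1 := by
    unfold re
    rw [h, if_pos ⟨h3, hn3⟩]
  unfold Ss
  rw [Finset.sum_range_succ]
  have h5 : nearI n (klam^[k] n) = 1 := by
    unfold nearI
    rw [h, if_pos ⟨h4, by omega⟩]
  omega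

theorem cycle_facts {n ℓ : ℕ} (hn : 100 ≤ n) (hℓ : 1 ≤ ℓ) (h : klam^[ℓ] n = n)
    (hmin : ∀ t, n ≤ klam^[t] n) :
    Facts n ℓ (runs n ℓ) (Ss n n ℓ) (Zs n n ℓ) (dsc n ℓ) (ℓ + asc n ℓ) := by
  have hn3 := min_not_dvd (by omega) hmin
  have hn0 : (0 : ℝ) < n := by
    have : (100 : ℝ) ≤ n := by exact_mod_cast hn
    linarith
  refine ⟨(Ss_add_Zs n n ℓ).le, one_le_Ss (by omega) hℓ h hmin, ?_, (path_refined hn3 (by omega) ℓ n (by omega) h).2, ?_⟩
  · have h1 := cycle_lin h hn hmin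
    have h2 : ∑ t ∈ range ℓ, (1.0102 : ℝ) * re (klam^[t] n) / klam (klam^[t] n) ≤
        ∑ t ∈ range ℓ, (1.0102 / n * (nearI n (klam^[t] n) : ℝ) +
          1.0102 / (8 * n) * (far n (klam^[t] n) : ℝ)) := by
      apply Finset.sum_le_sum
      intro t _
      set y := klam^[t] n with hy
      have hf : n ≤ klam y := by
        have := hmin (t + 1)
        rwa [Function.iterate_succ_apply', ← hy] at this
      have hfr : (n : ℝ) ≤ klam y := by exact_mod_cast hf
      have hnf := near_add_far n y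
      have hre := re_le_one y
      rcases Nat.lt_or_ge 0 (far n y) with hfar | hfar
      · have h8 : 8 * n < klam y ∧ re y = 1 := by
          unfold far at hfar
          split_ifs at hfar with hc
          · exact ⟨hc.2, hc.1⟩
          · omega
        have hf1 : far n y = 1 := by omega
        have hn1 : nearI n y = 0 := by omega
        rw [h8.2, hf1, hn1]
        have h8r : (8 : ℝ) * n ≤ klam y := by exact_mod_cast h8.1.le
        simp only [Nat.cast_one, Nat.cast_zero, mul_one, mul_zero, zero_add]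
        gcongr
      · have hf0 : far n y = 0 := by omega
        have hnr : nearI n y = re y := by omega
        rw [hf0, hnr]
        simp only [Nat.cast_zero, mul_zero, add_zero]
        rw [div_mul_eq_mul_div]
        gcongr
    have h3 : ∑ t ∈ range ℓ, (1.0102 / n * (nearI n (klam^[t] n) : ℝ) +
          1.0102 / (8 * n) * (far n (klam^[t] n) : ℝ)) =
        1.0102 / n * (Ss n n ℓ : ℝ) + 1.0102 / (8 * n) * (Zs n n ℓ : ℝ) := by
      rw [Finset.sum_add_distrib, ← Finset.mul_sum, ← Finset.mul_sum]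
      unfold Ss Zs
      push_cast
      rfl
    rw [h3] at h2
    have h4 := h1.trans h2
    calc _ ≤ (1.0102 / n * (Ss n n ℓ : ℝ) + 1.0102 / (8 * n) * (Zs n n ℓ : ℝ)) * n := by
          gcongr
      _ = 1.0102 * ((Ss n n ℓ : ℝ) + (Zs n n ℓ : ℝ) / 8) := by
          field_simp
  · have h1 := dsc_add_asc n ℓ
    have h2 := len_le (dsc n ℓ) (asc n ℓ)
    rw [h1] at h2
    exact h2

section levels

variable {n ℓ S Z b K : ℕ}

theorem Facts.b_le (F : Facts n ℓ 16 S Z b K) {c : ℕ} (hn : 0 < n) (hc : 8 * n ≤ 2 ^ c) :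
    (b : ℝ) ≤ c * (S + GS Z) := by
  have h2 : 0 < Real.log 2 := Real.log_pos (by norm_num)
  have hl : Real.log ((8 * n : ℕ) : ℝ) ≤ c * Real.log 2 := by
    rw [← Real.log_pow]
    apply Real.log_le_log (by positivity)
    exact_mod_cast hc
  have hG : 0 ≤ GS Z := by
    have := GS_add_le 0 Z
    have h0 : GS 0 = 0 := by simp [GS]
    rw [h0, zero_add, zero_add] at this
    exact le_trans (Nat.cast_nonneg _) this
  have h3 := F.dsc
  have h4 : Real.log ((8 * n : ℕ) : ℝ) * (S + GS Z) ≤ c * Real.log 2 * (S + GS Z) := by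
    gcongr
  have h5 : (b : ℝ) * Real.log 2 ≤ (c * (S + GS Z)) * Real.log 2 := by
    calc (b : ℝ) * Real.log 2 ≤ c * Real.log 2 * (S + GS Z) := h3.trans h4
      _ = _ := by ring
  exact le_of_mul_le_mul_right h5 h2

theorem Facts.g_le (F : Facts n ℓ 16 S Z b K) {z : ℕ} (hz : Z ≤ z) :
    (S : ℝ) + GS Z ≤ 16 - z + GS z := by
  have h1 := GS_add_le Z (z - Z)
  have h2 : Z + (z - Z) = z := by omega
  rw [h2] at h1
  have h3 : ((z - Z : ℕ) : ℝ) = (z : ℝ) - Z := by push_cast [hz]; ring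
  rw [h3] at h1
  have h4 : (S : ℝ) + Z ≤ 16 := by exact_mod_cast F.sz
  linarith

theorem Facts.lin_le (F : Facts n ℓ 16 S Z b K) {z : ℕ} (hz : z ≤ Z) :
    |(K : ℝ) * Real.log 2 - ℓ * Real.log 3| * n ≤ 1.0102 * (16 - 7 * z / 8) := by
  have h4 : (S : ℝ) + Z ≤ 16 := by exact_mod_cast F.sz
  have h5 : (z : ℝ) ≤ Z := by exact_mod_cast hz
  refine F.lin.trans ?_
  linarith

theorem Facts.b_ge (F : Facts n ℓ 16 S Z b K) (hn : 100 ≤ n) {q : ℕ} (hq : q ≤ ℓ) :
    (q : ℝ) - 1 ≤ 2.4095 * b := by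
  have h1 := F.len
  have h2 := F.lin_le (Nat.zero_le Z)
  have h3 : (100 : ℝ) ≤ n := by exact_mod_cast hn
  have h4 : (q : ℝ) ≤ ℓ := by exact_mod_cast hq
  have h5 := abs_nonneg ((K : ℝ) * Real.log 2 - ℓ * Real.log 3)
  push_cast at h2
  nlinarith

theorem lin_cast (K ℓ : ℕ) : |(K : ℝ) * Real.log 2 - ℓ * Real.log 3| = |Lin (K : ℤ) (ℓ : ℤ)| := by
  unfold Lin; simp

/-- If the linear form is at least `δ` then `n` is at most `1.0102 (16 - 7z/8)/δ`. -/
theorem Facts.n_le (F : Facts n ℓ 16 S Z b K) {z : ℕ} (hz : z ≤ Z) {δ B : ℝ} (hδ : 0 < δ)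
    (hl : δ ≤ |(K : ℝ) * Real.log 2 - ℓ * Real.log 3|)
    (hB : 1.0102 * (16 - 7 * z / 8) ≤ δ * B) : (n : ℝ) ≤ B := by
  have h1 := F.lin_le hz
  have h2 : δ * n ≤ |(K : ℝ) * Real.log 2 - ℓ * Real.log 3| * n := by gcongr
  have h3 : δ * n ≤ δ * B := h2.trans (h1.trans hB)
  exact le_of_mul_le_mul_left h3 hδ

theorem Facts.level4 (F : Facts n ℓ 16 S Z b K) (hℓ : 1 ≤ ℓ) (h : 15900 < n) :
    665 ≤ ℓ := by
  by_contra hc
  push Not at hc
  have h1 := lin_lower_a (K := (K : ℤ)) (L := (ℓ : ℤ)) (by exact_mod_cast hℓ)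
    (by exact_mod_cast hc)
  rw [← lin_cast] at h1
  have h2 := F.n_le (z := 0) (Nat.zero_le _) (δ := 0.0010222) (B := 15900) (by norm_num) h1
    (by norm_num)
  have h3 : n ≤ 15900 := by exact_mod_cast h2
  omega

theorem Facts.level3 (F : Facts n ℓ 16 S Z b K) (hℓ : 1 ≤ ℓ) (h : 370300 < n) :
    31867 ≤ ℓ := by
  by_contra hc
  push Not at hc
  rcases Nat.lt_or_ge ℓ 15601 with hl | hl
  · have h1 := lin_lower_b (K := (K : ℤ)) (L := (ℓ : ℤ)) (by exact_mod_cast hℓ)
      (by exact_mod_cast hl)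
    rw [← lin_cast] at h1
    have h2 := F.n_le (z := 0) (Nat.zero_le _) (δ := 4.3654e-5) (B := 370300) (by norm_num) h1
      (by norm_num)
    have h3 : n ≤ 370300 := by exact_mod_cast h2
    omega
  · have h1 := lin_lower_c (K := (K : ℤ)) (L := (ℓ : ℤ)) (by exact_mod_cast hℓ)
      (by exact_mod_cast hc)
    rw [← lin_cast] at h1
    have h2 := F.n_le (z := 0) (Nat.zero_le _) (δ := 1.8194e-5) (B := 888500) (by norm_num) h1
      (by norm_num)
    have h3 : n ≤ 888500 := by exact_mod_cast h2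
    have h4 := F.b_le (c := 23) (by omega) (by omega)
    have h5 := F.b_ge (by omega) hl
    rcases Nat.lt_or_ge 10 Z with hZ | hZ
    · have h6 := F.n_le (z := 11) hZ (δ := 1.8194e-5) (B := 370300) (by norm_num) h1
        (by norm_num)
      have h7 : n ≤ 370300 := by exact_mod_cast h6
      omega
    · have h6 := F.g_le hZ
      have h7 := GS10_le
      push_cast at h4 h5 h6
      linarith

theorem Facts.level2 (F : Facts n ℓ 16 S Z b K) (hℓ : 1 ≤ ℓ) (h : 764900 < n) :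
    79335 ≤ ℓ := by
  have hl := F.level3 hℓ (by omega)
  by_contra hc
  push Not at hc
  have h1 := lin_lower_d (K := (K : ℤ)) (L := (ℓ : ℤ)) (by exact_mod_cast hℓ)
    (by exact_mod_cast hc)
  rw [← lin_cast] at h1
  have h2 := F.n_le (z := 0) (Nat.zero_le _) (δ := 7.2649e-6) (B := 2224900) (by norm_num) h1
    (by norm_num)
  have h3 : n ≤ 2224900 := by exact_mod_cast h2
  have h4 := F.b_le (c := 25) (by omega) (by omega)
  have h5 := F.b_ge (by omega) hl
  rcases Nat.lt_or_ge 11 Z with hZ | hZ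
  · have h6 := F.n_le (z := 12) hZ (δ := 7.2649e-6) (B := 764900) (by norm_num) h1
      (by norm_num)
    have h7 : n ≤ 764900 := by exact_mod_cast h6
    omega
  · have h6 := F.g_le hZ
    have h7 := GS11_le
    push_cast at h4 h5 h6
    linarith

/-- The growth of the Gelfond bound. -/
theorem poly_lt_pow (t : ℕ) (ht : 73 ≤ t) : 2 ^ 41 * (2 * t + 40) ^ 4 < 2 ^ (t - 1) := by
  induction t, ht using Nat.le_induction with
  | base => norm_num
  | succ t ht ih =>
    have e1 : 2 ^ (t + 1 - 1) = 2 * 2 ^ (t - 1) := by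
      rw [← pow_succ']
      congr 1
      omega
    rw [e1]
    have h1 : 10 * (2 * (t + 1) + 40) ≤ 11 * (2 * t + 40) := by omega
    have h2 : (10 * (2 * (t + 1) + 40)) ^ 4 ≤ (11 * (2 * t + 40)) ^ 4 :=
      Nat.pow_le_pow_left h1 4
    rw [mul_pow, mul_pow] at h2
    have h3 : (2 * (t + 1) + 40) ^ 4 ≤ 2 * (2 * t + 40) ^ 4 := by
      norm_num at h2
      omega
    calc 2 ^ 41 * (2 * (t + 1) + 40) ^ 4 ≤ 2 ^ 41 * (2 * (2 * t + 40) ^ 4) :=
          Nat.mul_le_mul_left _ h3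
      _ = 2 * (2 ^ 41 * (2 * t + 40) ^ 4) := by ring
      _ < 2 * 2 ^ (t - 1) := by omega

theorem Facts.not_huge (F : Facts n ℓ 16 S Z b K) (hn : 100 ≤ n)
    (h : 7736332199829210068325 ≤ ℓ)
    (hg : 1 / 2 ^ (2 ^ 26 * ee ℓ ^ 4) < |(K : ℝ) * Real.log 2 - ℓ * Real.log 3|) : False := by
  set t := Nat.clog 2 ℓ with ht
  have hℓt : 2 ^ (t - 1) < ℓ := Nat.pow_pred_clog_lt_self (by norm_num) (by omega)
  have hℓt' : ℓ ≤ 2 ^ t := Nat.le_pow_clog (by norm_num) ℓ
  have ht73 : 73 ≤ t := by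
    by_contra hc
    push Not at hc
    have : 2 ^ t ≤ 2 ^ 72 := Nat.pow_le_pow_right (by norm_num) (by omega)
    omega
  have hee : ee ℓ = 2 * t + 40 := rfl
  obtain ⟨W, hW⟩ : ∃ W : ℕ, W = 2 ^ 26 * ee ℓ ^ 4 := ⟨_, rfl⟩
  rw [← hW] at hg
  -- n < 17 * 2 ^ W
  have h1 := F.lin_le (Nat.zero_le Z)
  have hn0 : (0 : ℝ) < n := by
    have : (100 : ℝ) ≤ n := by exact_mod_cast hn
    linarith
  have h2 : (n : ℝ) < 2 ^ (W + 5) := by
    have h3 : 1 / 2 ^ W * (n : ℝ) < 17 := by
      have : 1 / 2 ^ W * (n : ℝ) < |(K : ℝ) * Real.log 2 - ℓ * Real.log 3| * n := by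
        gcongr
      push_cast at h1
      linarith
    have h4 : (n : ℝ) < 17 * 2 ^ W := by
      rw [one_div, inv_mul_eq_div, div_lt_iff₀ (by positivity)] at h3
      exact h3
    calc (n : ℝ) < 17 * 2 ^ W := h4
      _ ≤ 32 * 2 ^ W := by gcongr; norm_num
      _ = 2 ^ (W + 5) := by rw [pow_add]; ring
  have h3 : n < 2 ^ (W + 5) := by exact_mod_cast h2
  have h4 : 8 * n ≤ 2 ^ (W + 8) := by
    have : 2 ^ (W + 8) = 8 * 2 ^ (W + 5) := by ring
    omega
  have h5 := F.b_le (by omega) h4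
  have h6' : (S : ℝ) + GS Z ≤ 2709.6 + 1585.1 := by
    rcases Nat.lt_or_ge 15 Z with hZ | hZ
    · have hZ16 : Z = 16 := by have := F.sz; omega
      have hS0 : S = 0 := by have := F.sz; omega
      rw [hZ16, hS0]
      have : GS 16 ≤ 4294.6 := (GS_le 16).trans (by norm_num [Finset.sum_range_succ])
      push_cast
      linarith
    · have h7 := F.g_le (z := 15) hZ
      have h8 := GS15_le
      push_cast at h7
      linarith
  have hbge := F.b_ge hn (le_refl ℓ)
  have hW1 : 2 ^ 26 * 186 ^ 4 ≤ W := by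
    rw [hW, hee]
    apply Nat.mul_le_mul_left
    exact Nat.pow_le_pow_left (by omega) 4
  have hW1' : (100 : ℝ) ≤ W := by
    have : 100 ≤ W := le_trans (by norm_num) hW1
    exact_mod_cast this
  have h9 : (b : ℝ) ≤ ((W + 8 : ℕ) : ℝ) * 4294.7 := by
    refine h5.trans ?_
    gcongr
    linarith
  have h10 : (ℓ : ℝ) ≤ 2 ^ 14 * W := by
    push_cast at h9
    linarith
  have h11 : ℓ ≤ 2 ^ 14 * W := by exact_mod_cast h10
  have h12 := poly_lt_pow t ht73
  rw [hW, hee] at h11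
  have h13 : 2 ^ 14 * (2 ^ 26 * (2 * t + 40) ^ 4) ≤ 2 ^ 41 * (2 * t + 40) ^ 4 := by
    rw [← mul_assoc]
    apply Nat.mul_le_mul_right
    norm_num
  omega

theorem Facts.level1 (F : Facts n ℓ 16 S Z b K) (hℓ : 1 ≤ ℓ) (hn : 100 ≤ n) :
    n ≤ 1033800 := by
  by_contra h
  push Not at h
  have hl := F.level2 hℓ (by omega)
  rcases Nat.lt_or_ge ℓ 111202 with hc | hc
  · have h1 := lin_lower_e (K := (K : ℤ)) (L := (ℓ : ℤ)) (by exact_mod_cast hℓ)
      (by exact_mod_cast hc)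
    rw [← lin_cast] at h1
    have h2 := F.n_le (z := 0) (Nat.zero_le _) (δ := 3.6647e-6) (B := 4410600) (by norm_num) h1
      (by norm_num)
    have h3 : n ≤ 4410600 := by exact_mod_cast h2
    have h4 := F.b_le (c := 26) (by omega) (by omega)
    have h5 := F.b_ge (by omega) hl
    rcases Nat.lt_or_ge 13 Z with hZ | hZ
    · have h6 := F.n_le (z := 14) hZ (δ := 3.6647e-6) (B := 1033800) (by norm_num) h1
        (by norm_num)
      have h7 : n ≤ 1033800 := by exact_mod_cast h6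
      omega
    · have h6 := F.g_le hZ
      have h7 := GS13_le
      push_cast at h4 h5 h6
      linarith
  rcases Nat.lt_or_ge ℓ 190537 with hc2 | hc2
  · have h1 := lin_lower_f (K := (K : ℤ)) (L := (ℓ : ℤ)) (by exact_mod_cast hℓ)
      (by exact_mod_cast hc2)
    rw [← lin_cast] at h1
    have h2 := F.n_le (z := 0) (Nat.zero_le _) (δ := 3.6002e-6) (B := 4489600) (by norm_num) h1
      (by norm_num)
    have h3 : n ≤ 4489600 := by exact_mod_cast h2
    have h4 := F.b_le (c := 26) (by omega) (by omega)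
    have h5 := F.b_ge (by omega) hc
    rcases Nat.lt_or_ge 14 Z with hZ | hZ
    · have h6 := F.n_le (z := 15) hZ (δ := 3.6002e-6) (B := 1033800) (by norm_num) h1
        (by norm_num)
      have h7 : n ≤ 1033800 := by exact_mod_cast h6
      omega
    · have h6 := F.g_le hZ
      have h7 := GS14_le
      push_cast at h4 h5 h6
      linarith
  have hZ15 : ∀ c : ℕ, 8 * n ≤ 2 ^ c → (b : ℝ) ≤ c * 4294.7 := by
    intro c hcc
    refine (F.b_le (by omega) hcc).trans ?_
    gcongr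
    rcases Nat.lt_or_ge 15 Z with hZ | hZ
    · have hZ16 : Z = 16 := by have := F.sz; omega
      have hS0 : S = 0 := by have := F.sz; omega
      rw [hZ16, hS0]
      have : GS 16 ≤ 4294.6 := (GS_le 16).trans (by norm_num [Finset.sum_range_succ])
      push_cast
      linarith
    · have h7 := F.g_le (z := 15) hZ
      have h8 := GS15_le
      push_cast at h7
      linarith
  rcases lin_dichotomy K ℓ hℓ with h1 | h1
  · have h2 := F.n_le (z := 0) (Nat.zero_le _) (δ := 8.9e-23) (B := 2 ^ 78) (by norm_num) h1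
      (by norm_num)
    have h3 : n ≤ 2 ^ 78 := by exact_mod_cast h2
    have h4 := hZ15 81 (by omega)
    rcases Nat.lt_or_ge ℓ 10590737 with hc3 | hc3
    · have h5 := lin_lower_g (K := (K : ℤ)) (L := (ℓ : ℤ)) (by exact_mod_cast hℓ)
        (by exact_mod_cast hc3)
      rw [← lin_cast] at h5
      have h6 := F.n_le (z := 0) (Nat.zero_le _) (δ := 6.45e-8) (B := 2 ^ 28) (by norm_num) h5
        (by norm_num)
      have h7 : n ≤ 2 ^ 28 := by exact_mod_cast h6
      have h8 := F.b_ge (by omega) hc2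
      rcases Nat.lt_or_ge 14 Z with hZ | hZ
      · have h9 := F.n_le (z := 15) hZ (δ := 6.45e-8) (B := 2 ^ 26) (by norm_num) h5
          (by norm_num)
        have h10 : n ≤ 2 ^ 26 := by exact_mod_cast h9
        have h11 := F.b_le (c := 29) (by omega) (by omega)
        have hZ15' : Z ≤ 15 := by have := F.sz; have := F.s1; omega
        have h12 := F.g_le hZ15'
        have h13 := GS15_le
        push_cast at h11 h8 h12
        linarith
      · have h9 := F.g_le hZ
        have h10 := GS14_le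
        have h11 := F.b_le (c := 31) (by omega) (by omega)
        push_cast at h11 h8 h9
        linarith
    · have h5 := F.b_ge (by omega) hc3
      push_cast at h4 h5
      linarith
  · exact F.not_huge hn h1.1 h1.2

end levels

end Pool.Agent.KLA
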