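import Pool.Agent.KLA.Sim

/-! Kernel checks of ranges of numbers. -/

namespace Pool.Agent.KLA

theorem chunkE0 : rangeE 200 15 8 600 = true := by decide +kernel

theorem chunkE1 : rangeE 200 15 608 600 = true := by decide +kernel

theorem chunkE2 : rangeE 200 15 1208 600 = true := by decide +kernel

theorem chunkE3 : rangeE 200 15 1808 600 = true := by decide +kernel

theorem chunkE4 : rangeE 200 15 2408 242 = true := by decide +kernel

theorem chunkA0 : rangeD 150 12 2650 600 = true := by decide +kernel

theorem chunkA1 : rangeD 150 12 3250 600 = true := by decide +kernel

theorem chunkA2 : rangeD 150 12 3850 600 = true := by decide +kernel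

theorem chunkA3 : rangeD 150 12 4450 600 = true := by decide +kernel

theorem chunkA4 : rangeD 150 12 5050 600 = true := by decide +kernel

theorem chunkA5 : rangeD 150 12 5650 600 = true := by decide +kernel

theorem chunkA6 : rangeD 150 12 6250 600 = true := by decide +kernel

theorem chunkA7 : rangeD 150 12 6850 600 = true := by decide +kernel

theorem chunkA8 : rangeD 150 12 7450 600 = true := by decide +kernel

theorem chunkA9 : rangeD 150 12 8050 600 = true := by decide +kernel

theorem chunkA10 : rangeD 150 12 8650 600 = true := by decide +kernel

theorem chunkA11 : rangeD 150 12 9250 600 = true := by decide +kernel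

theorem chunkA12 : rangeD 150 12 9850 600 = true := by decide +kernel

theorem chunkA13 : rangeD 150 12 10450 600 = true := by decide +kernel

theorem chunkA14 : rangeD 150 12 11050 600 = true := by decide +kernel

theorem chunkA15 : rangeD 150 12 11650 600 = true := by decide +kernel

theorem chunkA16 : rangeD 150 12 12250 600 = true := by decide +kernel

theorem chunkA17 : rangeD 150 12 12850 600 = true := by decide +kernel

theorem chunkA18 : rangeD 150 12 13450 600 = true := by decide +kernel

theorem chunkA19 : rangeD 150 12 14050 600 = true := by decide +kernel

theorem chunkA20 : rangeD 150 12 14650 600 = true := by decide +kernel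

theorem chunkA21 : rangeD 150 12 15250 600 = true := by decide +kernel

theorem chunkA22 : rangeD 150 12 15850 600 = true := by decide +kernel

theorem chunkA23 : rangeD 150 12 16450 600 = true := by decide +kernel

theorem chunkA24 : rangeD 150 12 17050 600 = true := by decide +kernel

theorem chunkA25 : rangeD 150 12 17650 600 = true := by decide +kernel

theorem chunkA26 : rangeD 150 12 18250 600 = true := by decide +kernel

theorem chunkA27 : rangeD 150 12 18850 600 = true := by decide +kernel

theorem chunkA28 : rangeD 150 12 19450 600 = true := by decide +kernel

theorem chunkA29 : rangeD 150 12 20050 600 = true := by decide +kernel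

theorem chunkA30 : rangeD 150 12 20650 600 = true := by decide +kernel

theorem chunkA31 : rangeD 150 12 21250 600 = true := by decide +kernel

theorem chunkA32 : rangeD 150 12 21850 600 = true := by decide +kernel

theorem chunkA33 : rangeD 150 12 22450 600 = true := by decide +kernel

theorem chunkA34 : rangeD 150 12 23050 600 = true := by decide +kernel

theorem chunkA35 : rangeD 150 12 23650 600 = true := by decide +kernel

theorem chunkA36 : rangeD 150 12 24250 600 = true := by decide +kernel

theorem chunkA37 : rangeD 150 12 24850 600 = true := by decide +kernel

theorem chunkA38 : rangeD 150 12 25450 600 = true := by decide +kernel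

theorem chunkA39 : rangeD 150 12 26050 600 = true := by decide +kernel

theorem chunkA40 : rangeD 150 12 26650 600 = true := by decide +kernel

theorem chunkA41 : rangeD 150 12 27250 600 = true := by decide +kernel

theorem chunkA42 : rangeD 150 12 27850 600 = true := by decide +kernel

end Pool.Agent.KLA
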