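import Pool.Agent.KLA.Sim

/-! Kernel checks of ranges of numbers. -/

namespace Pool.Agent.KLA

theorem chunkA43 : rangeD 150 12 28450 600 = true := by decide +kernel

theorem chunkA44 : rangeD 150 12 29050 600 = true := by decide +kernel

theorem chunkA45 : rangeD 150 12 29650 600 = true := by decide +kernel

theorem chunkA46 : rangeD 150 12 30250 600 = true := by decide +kernel

theorem chunkA47 : rangeD 150 12 30850 600 = true := by decide +kernel

theorem chunkA48 : rangeD 150 12 31450 600 = true := by decide +kernel

theorem chunkA49 : rangeD 150 12 32050 600 = true := by decide +kernel

theorem chunkA50 : rangeD 150 12 32650 600 = true := by decide +kernel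

theorem chunkA51 : rangeD 150 12 33250 600 = true := by decide +kernel

theorem chunkA52 : rangeD 150 12 33850 600 = true := by decide +kernel

theorem chunkA53 : rangeD 150 12 34450 600 = true := by decide +kernel

theorem chunkA54 : rangeD 150 12 35050 600 = true := by decide +kernel

theorem chunkA55 : rangeD 150 12 35650 600 = true := by decide +kernel

theorem chunkA56 : rangeD 150 12 36250 600 = true := by decide +kernel

theorem chunkA57 : rangeD 150 12 36850 600 = true := by decide +kernel

theorem chunkA58 : rangeD 150 12 37450 600 = true := by decide +kernel

theorem chunkA59 : rangeD 150 12 38050 600 = true := by decide +kernel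

theorem chunkA60 : rangeD 150 12 38650 600 = true := by decide +kernel

theorem chunkA61 : rangeD 150 12 39250 600 = true := by decide +kernel

theorem chunkA62 : rangeD 150 12 39850 600 = true := by decide +kernel

theorem chunkA63 : rangeD 150 12 40450 600 = true := by decide +kernel

theorem chunkA64 : rangeD 150 12 41050 600 = true := by decide +kernel

theorem chunkA65 : rangeD 150 12 41650 600 = true := by decide +kernel

theorem chunkA66 : rangeD 150 12 42250 600 = true := by decide +kernel

theorem chunkA67 : rangeD 150 12 42850 600 = true := by decide +kernel

theorem chunkA68 : rangeD 150 12 43450 600 = true := by decide +kernel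

theorem chunkA69 : rangeD 150 12 44050 600 = true := by decide +kernel

theorem chunkA70 : rangeD 150 12 44650 600 = true := by decide +kernel

theorem chunkA71 : rangeD 150 12 45250 600 = true := by decide +kernel

theorem chunkA72 : rangeD 150 12 45850 600 = true := by decide +kernel

theorem chunkA73 : rangeD 150 12 46450 600 = true := by decide +kernel

theorem chunkA74 : rangeD 150 12 47050 600 = true := by decide +kernel

theorem chunkA75 : rangeD 150 12 47650 600 = true := by decide +kernel

theorem chunkA76 : rangeD 150 12 48250 600 = true := by decide +kernel

theorem chunkA77 : rangeD 150 12 48850 600 = true := by decide +kernel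

theorem chunkA78 : rangeD 150 12 49450 600 = true := by decide +kernel

theorem chunkA79 : rangeD 150 12 50050 600 = true := by decide +kernel

theorem chunkA80 : rangeD 150 12 50650 600 = true := by decide +kernel

theorem chunkA81 : rangeD 150 12 51250 600 = true := by decide +kernel

theorem chunkA82 : rangeD 150 12 51850 600 = true := by decide +kernel

theorem chunkA83 : rangeD 150 12 52450 600 = true := by decide +kernel

theorem chunkA84 : rangeD 150 12 53050 600 = true := by decide +kernel

theorem chunkA85 : rangeD 150 12 53650 600 = true := by decide +kernel

theorem chunkA86 : rangeD 150 12 54250 600 = true := by decide +kernel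

theorem chunkA87 : rangeD 150 12 54850 600 = true := by decide +kernel

theorem chunkA88 : rangeD 150 12 55450 600 = true := by decide +kernel

theorem chunkA89 : rangeD 150 12 56050 600 = true := by decide +kernel

theorem chunkA90 : rangeD 150 12 56650 600 = true := by decide +kernel

end Pool.Agent.KLA
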