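import Pool.Agent.KLA.Sim

/-! Kernel checks of ranges of numbers. -/

namespace Pool.Agent.KLA

theorem chunkA91 : rangeD 150 12 57250 600 = true := by decide +kernel

theorem chunkA92 : rangeD 150 12 57850 600 = true := by decide +kernel

theorem chunkA93 : rangeD 150 12 58450 600 = true := by decide +kernel

theorem chunkA94 : rangeD 150 12 59050 600 = true := by decide +kernel

theorem chunkA95 : rangeD 150 12 59650 600 = true := by decide +kernel

theorem chunkA96 : rangeD 150 12 60250 600 = true := by decide +kernel

theorem chunkA97 : rangeD 150 12 60850 600 = true := by decide +kernel

theorem chunkA98 : rangeD 150 12 61450 267 = true := by decide +kernel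

theorem chunkB0 : rangeD 100 3 61717 600 = true := by decide +kernel

theorem chunkB1 : rangeD 100 3 62317 600 = true := by decide +kernel

theorem chunkB2 : rangeD 100 3 62917 600 = true := by decide +kernel

theorem chunkB3 : rangeD 100 3 63517 600 = true := by decide +kernel

theorem chunkB4 : rangeD 100 3 64117 600 = true := by decide +kernel

theorem chunkB5 : rangeD 100 3 64717 600 = true := by decide +kernel

theorem chunkB6 : rangeD 100 3 65317 600 = true := by decide +kernel

theorem chunkB7 : rangeD 100 3 65917 600 = true := by decide +kernel

theorem chunkB8 : rangeD 100 3 66517 600 = true := by decide +kernel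

theorem chunkB9 : rangeD 100 3 67117 600 = true := by decide +kernel

theorem chunkB10 : rangeD 100 3 67717 600 = true := by decide +kernel

theorem chunkB11 : rangeD 100 3 68317 600 = true := by decide +kernel

theorem chunkB12 : rangeD 100 3 68917 600 = true := by decide +kernel

theorem chunkB13 : rangeD 100 3 69517 600 = true := by decide +kernel

theorem chunkB14 : rangeD 100 3 70117 600 = true := by decide +kernel

theorem chunkB15 : rangeD 100 3 70717 600 = true := by decide +kernel

theorem chunkB16 : rangeD 100 3 71317 600 = true := by decide +kernel

theorem chunkB17 : rangeD 100 3 71917 600 = true := by decide +kernel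

theorem chunkB18 : rangeD 100 3 72517 600 = true := by decide +kernel

theorem chunkB19 : rangeD 100 3 73117 600 = true := by decide +kernel

theorem chunkB20 : rangeD 100 3 73717 600 = true := by decide +kernel

theorem chunkB21 : rangeD 100 3 74317 600 = true := by decide +kernel

theorem chunkB22 : rangeD 100 3 74917 600 = true := by decide +kernel

theorem chunkB23 : rangeD 100 3 75517 600 = true := by decide +kernel

theorem chunkB24 : rangeD 100 3 76117 600 = true := by decide +kernel

theorem chunkB25 : rangeD 100 3 76717 600 = true := by decide +kernel

theorem chunkB26 : rangeD 100 3 77317 600 = true := by decide +kernel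

theorem chunkB27 : rangeD 100 3 77917 600 = true := by decide +kernel

theorem chunkB28 : rangeD 100 3 78517 600 = true := by decide +kernel

theorem chunkB29 : rangeD 100 3 79117 600 = true := by decide +kernel

theorem chunkB30 : rangeD 100 3 79717 600 = true := by decide +kernel

theorem chunkB31 : rangeD 100 3 80317 600 = true := by decide +kernel

theorem chunkB32 : rangeD 100 3 80917 600 = true := by decide +kernel

theorem chunkB33 : rangeD 100 3 81517 600 = true := by decide +kernel

theorem chunkB34 : rangeD 100 3 82117 600 = true := by decide +kernel

theorem chunkB35 : rangeD 100 3 82717 600 = true := by decide +kernel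

theorem chunkB36 : rangeD 100 3 83317 600 = true := by decide +kernel

theorem chunkB37 : rangeD 100 3 83917 600 = true := by decide +kernel

theorem chunkB38 : rangeD 100 3 84517 600 = true := by decide +kernel

theorem chunkB39 : rangeD 100 3 85117 600 = true := by decide +kernel

end Pool.Agent.KLA
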