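import Pool.Agent.KLA.Sim

/-! Kernel checks of ranges of numbers. -/

namespace Pool.Agent.KLA

theorem chunkB40 : rangeD 100 3 85717 600 = true := by decide +kernel

theorem chunkB41 : rangeD 100 3 86317 600 = true := by decide +kernel

theorem chunkB42 : rangeD 100 3 86917 600 = true := by decide +kernel

theorem chunkB43 : rangeD 100 3 87517 600 = true := by decide +kernel

theorem chunkB44 : rangeD 100 3 88117 600 = true := by decide +kernel

theorem chunkB45 : rangeD 100 3 88717 600 = true := by decide +kernel

theorem chunkB46 : rangeD 100 3 89317 600 = true := by decide +kernel

theorem chunkB47 : rangeD 100 3 89917 600 = true := by decide +kernel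

theorem chunkB48 : rangeD 100 3 90517 600 = true := by decide +kernel

theorem chunkB49 : rangeD 100 3 91117 600 = true := by decide +kernel

theorem chunkB50 : rangeD 100 3 91717 600 = true := by decide +kernel

theorem chunkB51 : rangeD 100 3 92317 600 = true := by decide +kernel

theorem chunkB52 : rangeD 100 3 92917 600 = true := by decide +kernel

theorem chunkB53 : rangeD 100 3 93517 600 = true := by decide +kernel

theorem chunkB54 : rangeD 100 3 94117 600 = true := by decide +kernel

theorem chunkB55 : rangeD 100 3 94717 600 = true := by decide +kernel

theorem chunkB56 : rangeD 100 3 95317 600 = true := by decide +kernel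

theorem chunkB57 : rangeD 100 3 95917 600 = true := by decide +kernel

theorem chunkB58 : rangeD 100 3 96517 600 = true := by decide +kernel

theorem chunkB59 : rangeD 100 3 97117 600 = true := by decide +kernel

theorem chunkB60 : rangeD 100 3 97717 600 = true := by decide +kernel

theorem chunkB61 : rangeD 100 3 98317 600 = true := by decide +kernel

theorem chunkB62 : rangeD 100 3 98917 600 = true := by decide +kernel

theorem chunkB63 : rangeD 100 3 99517 600 = true := by decide +kernel

theorem chunkB64 : rangeD 100 3 100117 600 = true := by decide +kernel

theorem chunkB65 : rangeD 100 3 100717 600 = true := by decide +kernel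

theorem chunkB66 : rangeD 100 3 101317 600 = true := by decide +kernel

theorem chunkB67 : rangeD 100 3 101917 600 = true := by decide +kernel

theorem chunkB68 : rangeD 100 3 102517 600 = true := by decide +kernel

theorem chunkB69 : rangeD 100 3 103117 600 = true := by decide +kernel

theorem chunkB70 : rangeD 100 3 103717 600 = true := by decide +kernel

theorem chunkB71 : rangeD 100 3 104317 600 = true := by decide +kernel

theorem chunkB72 : rangeD 100 3 104917 600 = true := by decide +kernel

theorem chunkB73 : rangeD 100 3 105517 600 = true := by decide +kernel

theorem chunkB74 : rangeD 100 3 106117 600 = true := by decide +kernel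

theorem chunkB75 : rangeD 100 3 106717 600 = true := by decide +kernel

theorem chunkB76 : rangeD 100 3 107317 600 = true := by decide +kernel

theorem chunkB77 : rangeD 100 3 107917 600 = true := by decide +kernel

theorem chunkB78 : rangeD 100 3 108517 600 = true := by decide +kernel

theorem chunkB79 : rangeD 100 3 109117 600 = true := by decide +kernel

theorem chunkB80 : rangeD 100 3 109717 600 = true := by decide +kernel

theorem chunkB81 : rangeD 100 3 110317 600 = true := by decide +kernel

theorem chunkB82 : rangeD 100 3 110917 600 = true := by decide +kernel

theorem chunkB83 : rangeD 100 3 111517 600 = true := by decide +kernel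

theorem chunkB84 : rangeD 100 3 112117 600 = true := by decide +kernel

theorem chunkB85 : rangeD 100 3 112717 600 = true := by decide +kernel

theorem chunkB86 : rangeD 100 3 113317 600 = true := by decide +kernel

theorem chunkB87 : rangeD 100 3 113917 600 = true := by decide +kernel

end Pool.Agent.KLA
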