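import Pool.Agent.KLA.Sim

/-! Kernel checks of ranges of numbers. -/

namespace Pool.Agent.KLA

theorem chunkB88 : rangeD 100 3 114517 600 = true := by decide +kernel

theorem chunkB89 : rangeD 100 3 115117 600 = true := by decide +kernel

theorem chunkB90 : rangeD 100 3 115717 600 = true := by decide +kernel

theorem chunkB91 : rangeD 100 3 116317 600 = true := by decide +kernel

theorem chunkB92 : rangeD 100 3 116917 600 = true := by decide +kernel

theorem chunkB93 : rangeD 100 3 117517 600 = true := by decide +kernel

theorem chunkB94 : rangeD 100 3 118117 600 = true := by decide +kernel

theorem chunkB95 : rangeD 100 3 118717 600 = true := by decide +kernel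

theorem chunkB96 : rangeD 100 3 119317 600 = true := by decide +kernel

theorem chunkB97 : rangeD 100 3 119917 600 = true := by decide +kernel

theorem chunkB98 : rangeD 100 3 120517 600 = true := by decide +kernel

theorem chunkB99 : rangeD 100 3 121117 600 = true := by decide +kernel

theorem chunkB100 : rangeD 100 3 121717 600 = true := by decide +kernel

theorem chunkB101 : rangeD 100 3 122317 600 = true := by decide +kernel

theorem chunkB102 : rangeD 100 3 122917 600 = true := by decide +kernel

theorem chunkB103 : rangeD 100 3 123517 600 = true := by decide +kernel

theorem chunkB104 : rangeD 100 3 124117 600 = true := by decide +kernel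

theorem chunkB105 : rangeD 100 3 124717 600 = true := by decide +kernel

theorem chunkB106 : rangeD 100 3 125317 600 = true := by decide +kernel

theorem chunkB107 : rangeD 100 3 125917 600 = true := by decide +kernel

theorem chunkB108 : rangeD 100 3 126517 600 = true := by decide +kernel

theorem chunkB109 : rangeD 100 3 127117 367 = true := by decide +kernel

theorem chunkC0 : rangeD 100 1 127483 600 = true := by decide +kernel

theorem chunkC1 : rangeD 100 1 128083 600 = true := by decide +kernel

theorem chunkC2 : rangeD 100 1 128683 600 = true := by decide +kernel

theorem chunkC3 : rangeD 100 1 129283 600 = true := by decide +kernel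

theorem chunkC4 : rangeD 100 1 129883 600 = true := by decide +kernel

theorem chunkC5 : rangeD 100 1 130483 600 = true := by decide +kernel

theorem chunkC6 : rangeD 100 1 131083 600 = true := by decide +kernel

theorem chunkC7 : rangeD 100 1 131683 600 = true := by decide +kernel

theorem chunkC8 : rangeD 100 1 132283 600 = true := by decide +kernel

theorem chunkC9 : rangeD 100 1 132883 600 = true := by decide +kernel

theorem chunkC10 : rangeD 100 1 133483 600 = true := by decide +kernel

theorem chunkC11 : rangeD 100 1 134083 600 = true := by decide +kernel

theorem chunkC12 : rangeD 100 1 134683 600 = true := by decide +kernel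

theorem chunkC13 : rangeD 100 1 135283 600 = true := by decide +kernel

theorem chunkC14 : rangeD 100 1 135883 600 = true := by decide +kernel

theorem chunkC15 : rangeD 100 1 136483 600 = true := by decide +kernel

theorem chunkC16 : rangeD 100 1 137083 600 = true := by decide +kernel

theorem chunkC17 : rangeD 100 1 137683 600 = true := by decide +kernel

theorem chunkC18 : rangeD 100 1 138283 600 = true := by decide +kernel

theorem chunkC19 : rangeD 100 1 138883 600 = true := by decide +kernel

theorem chunkC20 : rangeD 100 1 139483 600 = true := by decide +kernel

theorem chunkC21 : rangeD 100 1 140083 600 = true := by decide +kernel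

theorem chunkC22 : rangeD 100 1 140683 600 = true := by decide +kernel

theorem chunkC23 : rangeD 100 1 141283 600 = true := by decide +kernel

theorem chunkC24 : rangeD 100 1 141883 600 = true := by decide +kernel

theorem chunkC25 : rangeD 100 1 142483 600 = true := by decide +kernel

end Pool.Agent.KLA
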