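import Pool.Agent.KLA.Sim

/-! Kernel checks of ranges of numbers. -/

namespace Pool.Agent.KLA

theorem chunkC26 : rangeD 100 1 143083 600 = true := by decide +kernel

theorem chunkC27 : rangeD 100 1 143683 600 = true := by decide +kernel

theorem chunkC28 : rangeD 100 1 144283 600 = true := by decide +kernel

theorem chunkC29 : rangeD 100 1 144883 600 = true := by decide +kernel

theorem chunkC30 : rangeD 100 1 145483 600 = true := by decide +kernel

theorem chunkC31 : rangeD 100 1 146083 600 = true := by decide +kernel

theorem chunkC32 : rangeD 100 1 146683 600 = true := by decide +kernel

theorem chunkC33 : rangeD 100 1 147283 600 = true := by decide +kernel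

theorem chunkC34 : rangeD 100 1 147883 600 = true := by decide +kernel

theorem chunkC35 : rangeD 100 1 148483 600 = true := by decide +kernel

theorem chunkC36 : rangeD 100 1 149083 600 = true := by decide +kernel

theorem chunkC37 : rangeD 100 1 149683 600 = true := by decide +kernel

theorem chunkC38 : rangeD 100 1 150283 600 = true := by decide +kernel

theorem chunkC39 : rangeD 100 1 150883 600 = true := by decide +kernel

theorem chunkC40 : rangeD 100 1 151483 600 = true := by decide +kernel

theorem chunkC41 : rangeD 100 1 152083 600 = true := by decide +kernel

theorem chunkC42 : rangeD 100 1 152683 600 = true := by decide +kernel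

theorem chunkC43 : rangeD 100 1 153283 600 = true := by decide +kernel

theorem chunkC44 : rangeD 100 1 153883 600 = true := by decide +kernel

theorem chunkC45 : rangeD 100 1 154483 600 = true := by decide +kernel

theorem chunkC46 : rangeD 100 1 155083 600 = true := by decide +kernel

theorem chunkC47 : rangeD 100 1 155683 600 = true := by decide +kernel

theorem chunkC48 : rangeD 100 1 156283 600 = true := by decide +kernel

theorem chunkC49 : rangeD 100 1 156883 600 = true := by decide +kernel

theorem chunkC50 : rangeD 100 1 157483 600 = true := by decide +kernel

theorem chunkC51 : rangeD 100 1 158083 600 = true := by decide +kernel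

theorem chunkC52 : rangeD 100 1 158683 600 = true := by decide +kernel

theorem chunkC53 : rangeD 100 1 159283 600 = true := by decide +kernel

theorem chunkC54 : rangeD 100 1 159883 600 = true := by decide +kernel

theorem chunkC55 : rangeD 100 1 160483 600 = true := by decide +kernel

theorem chunkC56 : rangeD 100 1 161083 600 = true := by decide +kernel

theorem chunkC57 : rangeD 100 1 161683 600 = true := by decide +kernel

theorem chunkC58 : rangeD 100 1 162283 600 = true := by decide +kernel

theorem chunkC59 : rangeD 100 1 162883 600 = true := by decide +kernel

theorem chunkC60 : rangeD 100 1 163483 600 = true := by decide +kernel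

theorem chunkC61 : rangeD 100 1 164083 600 = true := by decide +kernel

theorem chunkC62 : rangeD 100 1 164683 600 = true := by decide +kernel

theorem chunkC63 : rangeD 100 1 165283 600 = true := by decide +kernel

theorem chunkC64 : rangeD 100 1 165883 600 = true := by decide +kernel

theorem chunkC65 : rangeD 100 1 166483 600 = true := by decide +kernel

theorem chunkC66 : rangeD 100 1 167083 600 = true := by decide +kernel

theorem chunkC67 : rangeD 100 1 167683 600 = true := by decide +kernel

theorem chunkC68 : rangeD 100 1 168283 600 = true := by decide +kernel

theorem chunkC69 : rangeD 100 1 168883 600 = true := by decide +kernel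

theorem chunkC70 : rangeD 100 1 169483 600 = true := by decide +kernel

theorem chunkC71 : rangeD 100 1 170083 600 = true := by decide +kernel

theorem chunkC72 : rangeD 100 1 170683 600 = true := by decide +kernel

theorem chunkC73 : rangeD 100 1 171283 600 = true := by decide +kernel

end Pool.Agent.KLA
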