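import Pool.Agent.KLA.Sim

/-! Kernel checks of ranges of numbers. -/

namespace Pool.Agent.KLA

theorem chunkC74 : rangeD 100 1 171883 417 = true := by decide +kernel

end Pool.Agent.KLA
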