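import Pool.Agent.KLA.Chunk1
import Pool.Agent.KLA.Chunk2
import Pool.Agent.KLA.Chunk3
import Pool.Agent.KLA.Chunk4
import Pool.Agent.KLA.Chunk5
import Pool.Agent.KLA.Chunk6
import Pool.Agent.KLA.Chunk7

/-! All kernel checks put together. -/

namespace Pool.Agent.KLA

theorem allE (i : ℕ) (h1 : 8 ≤ i) (h2 : i < 2650) :
    simE (6 * i + 2) 200 (6 * i + 2) 15 = true ∧
      simE (6 * i + 4) 200 (6 * i + 4) 15 = true := by
  rcases Nat.lt_or_ge i 608 with h | h
  · exact rangeE_sound _ chunkE0 i (by omega) (by omega)
  rcases Nat.lt_or_ge i 1208 with h | h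
  · exact rangeE_sound _ chunkE1 i (by omega) (by omega)
  rcases Nat.lt_or_ge i 1808 with h | h
  · exact rangeE_sound _ chunkE2 i (by omega) (by omega)
  rcases Nat.lt_or_ge i 2408 with h | h
  · exact rangeE_sound _ chunkE3 i (by omega) (by omega)
  exact rangeE_sound _ chunkE4 i (by omega) (by omega)

theorem allA (i : ℕ) (h1 : 2650 ≤ i) (h2 : i < 61717) :
    simD (6 * i + 2) 150 (6 * i + 2) 12 = true ∧
      simD (6 * i + 4) 150 (6 * i + 4) 12 = true := by
  rcases Nat.lt_or_ge i 3250 with h | h
  · exact rangeD_sound _ chunkA0 i (by omega) (by omega)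
  rcases Nat.lt_or_ge i 3850 with h | h
  · exact rangeD_sound _ chunkA1 i (by omega) (by omega)
  rcases Nat.lt_or_ge i 4450 with h | h
  · exact rangeD_sound _ chunkA2 i (by omega) (by omega)
  rcases Nat.lt_or_ge i 5050 with h | h
  · exact rangeD_sound _ chunkA3 i (by omega) (by omega)
  rcases Nat.lt_or_ge i 5650 with h | h
  · exact rangeD_sound _ chunkA4 i (by omega) (by omega)
  rcases Nat.lt_or_ge i 6250 with h | h
  · exact rangeD_sound _ chunkA5 i (by omega) (by omega)
  rcases Nat.lt_or_ge i 6850 with h | h
  · exact rangeD_sound _ chunkA6 i (by omega) (by omega)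
  rcases Nat.lt_or_ge i 7450 with h | h
  · exact rangeD_sound _ chunkA7 i (by omega) (by omega)
  rcases Nat.lt_or_ge i 8050 with h | h
  · exact rangeD_sound _ chunkA8 i (by omega) (by omega)
  rcases Nat.lt_or_ge i 8650 with h | h
  · exact rangeD_sound _ chunkA9 i (by omega) (by omega)
  rcases Nat.lt_or_ge i 9250 with h | h
  · exact rangeD_sound _ chunkA10 i (by omega) (by omega)
  rcases Nat.lt_or_ge i 9850 with h | h
  · exact rangeD_sound _ chunkA11 i (by omega) (by omega)
  rcases Nat.lt_or_ge i 10450 with h | h
  · exact rangeD_sound _ chunkA12 i (by omega) (by omega)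
  rcases Nat.lt_or_ge i 11050 with h | h
  · exact rangeD_sound _ chunkA13 i (by omega) (by omega)
  rcases Nat.lt_or_ge i 11650 with h | h
  · exact rangeD_sound _ chunkA14 i (by omega) (by omega)
  rcases Nat.lt_or_ge i 12250 with h | h
  · exact rangeD_sound _ chunkA15 i (by omega) (by omega)
  rcases Nat.lt_or_ge i 12850 with h | h
  · exact rangeD_sound _ chunkA16 i (by omega) (by omega)
  rcases Nat.lt_or_ge i 13450 with h | h
  · exact rangeD_sound _ chunkA17 i (by omega) (by omega)
  rcases Nat.lt_or_ge i 14050 with h | h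
  · exact rangeD_sound _ chunkA18 i (by omega) (by omega)
  rcases Nat.lt_or_ge i 14650 with h | h
  · exact rangeD_sound _ chunkA19 i (by omega) (by omega)
  rcases Nat.lt_or_ge i 15250 with h | h
  · exact rangeD_sound _ chunkA20 i (by omega) (by omega)
  rcases Nat.lt_or_ge i 15850 with h | h
  · exact rangeD_sound _ chunkA21 i (by omega) (by omega)
  rcases Nat.lt_or_ge i 16450 with h | h
  · exact rangeD_sound _ chunkA22 i (by omega) (by omega)
  rcases Nat.lt_or_ge i 17050 with h | h
  · exact rangeD_sound _ chunkA23 i (by omega) (by omega)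
  rcases Nat.lt_or_ge i 17650 with h | h
  · exact rangeD_sound _ chunkA24 i (by omega) (by omega)
  rcases Nat.lt_or_ge i 18250 with h | h
  · exact rangeD_sound _ chunkA25 i (by omega) (by omega)
  rcases Nat.lt_or_ge i 18850 with h | h
  · exact rangeD_sound _ chunkA26 i (by omega) (by omega)
  rcases Nat.lt_or_ge i 19450 with h | h
  · exact rangeD_sound _ chunkA27 i (by omega) (by omega)
  rcases Nat.lt_or_ge i 20050 with h | h
  · exact rangeD_sound _ chunkA28 i (by omega) (by omega)
  rcases Nat.lt_or_ge i 20650 with h | h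
  · exact rangeD_sound _ chunkA29 i (by omega) (by omega)
  rcases Nat.lt_or_ge i 21250 with h | h
  · exact rangeD_sound _ chunkA30 i (by omega) (by omega)
  rcases Nat.lt_or_ge i 21850 with h | h
  · exact rangeD_sound _ chunkA31 i (by omega) (by omega)
  rcases Nat.lt_or_ge i 22450 with h | h
  · exact rangeD_sound _ chunkA32 i (by omega) (by omega)
  rcases Nat.lt_or_ge i 23050 with h | h
  · exact rangeD_sound _ chunkA33 i (by omega) (by omega)
  rcases Nat.lt_or_ge i 23650 with h | h
  · exact rangeD_sound _ chunkA34 i (by omega) (by omega)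
  rcases Nat.lt_or_ge i 24250 with h | h
  · exact rangeD_sound _ chunkA35 i (by omega) (by omega)
  rcases Nat.lt_or_ge i 24850 with h | h
  · exact rangeD_sound _ chunkA36 i (by omega) (by omega)
  rcases Nat.lt_or_ge i 25450 with h | h
  · exact rangeD_sound _ chunkA37 i (by omega) (by omega)
  rcases Nat.lt_or_ge i 26050 with h | h
  · exact rangeD_sound _ chunkA38 i (by omega) (by omega)
  rcases Nat.lt_or_ge i 26650 with h | h
  · exact rangeD_sound _ chunkA39 i (by omega) (by omega)
  rcases Nat.lt_or_ge i 27250 with h | h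
  · exact rangeD_sound _ chunkA40 i (by omega) (by omega)
  rcases Nat.lt_or_ge i 27850 with h | h
  · exact rangeD_sound _ chunkA41 i (by omega) (by omega)
  rcases Nat.lt_or_ge i 28450 with h | h
  · exact rangeD_sound _ chunkA42 i (by omega) (by omega)
  rcases Nat.lt_or_ge i 29050 with h | h
  · exact rangeD_sound _ chunkA43 i (by omega) (by omega)
  rcases Nat.lt_or_ge i 29650 with h | h
  · exact rangeD_sound _ chunkA44 i (by omega) (by omega)
  rcases Nat.lt_or_ge i 30250 with h | h
  · exact rangeD_sound _ chunkA45 i (by omega) (by omega)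
  rcases Nat.lt_or_ge i 30850 with h | h
  · exact rangeD_sound _ chunkA46 i (by omega) (by omega)
  rcases Nat.lt_or_ge i 31450 with h | h
  · exact rangeD_sound _ chunkA47 i (by omega) (by omega)
  rcases Nat.lt_or_ge i 32050 with h | h
  · exact rangeD_sound _ chunkA48 i (by omega) (by omega)
  rcases Nat.lt_or_ge i 32650 with h | h
  · exact rangeD_sound _ chunkA49 i (by omega) (by omega)
  rcases Nat.lt_or_ge i 33250 with h | h
  · exact rangeD_sound _ chunkA50 i (by omega) (by omega)
  rcases Nat.lt_or_ge i 33850 with h | h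
  · exact rangeD_sound _ chunkA51 i (by omega) (by omega)
  rcases Nat.lt_or_ge i 34450 with h | h
  · exact rangeD_sound _ chunkA52 i (by omega) (by omega)
  rcases Nat.lt_or_ge i 35050 with h | h
  · exact rangeD_sound _ chunkA53 i (by omega) (by omega)
  rcases Nat.lt_or_ge i 35650 with h | h
  · exact rangeD_sound _ chunkA54 i (by omega) (by omega)
  rcases Nat.lt_or_ge i 36250 with h | h
  · exact rangeD_sound _ chunkA55 i (by omega) (by omega)
  rcases Nat.lt_or_ge i 36850 with h | h
  · exact rangeD_sound _ chunkA56 i (by omega) (by omega)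
  rcases Nat.lt_or_ge i 37450 with h | h
  · exact rangeD_sound _ chunkA57 i (by omega) (by omega)
  rcases Nat.lt_or_ge i 38050 with h | h
  · exact rangeD_sound _ chunkA58 i (by omega) (by omega)
  rcases Nat.lt_or_ge i 38650 with h | h
  · exact rangeD_sound _ chunkA59 i (by omega) (by omega)
  rcases Nat.lt_or_ge i 39250 with h | h
  · exact rangeD_sound _ chunkA60 i (by omega) (by omega)
  rcases Nat.lt_or_ge i 39850 with h | h
  · exact rangeD_sound _ chunkA61 i (by omega) (by omega)
  rcases Nat.lt_or_ge i 40450 with h | h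
  · exact rangeD_sound _ chunkA62 i (by omega) (by omega)
  rcases Nat.lt_or_ge i 41050 with h | h
  · exact rangeD_sound _ chunkA63 i (by omega) (by omega)
  rcases Nat.lt_or_ge i 41650 with h | h
  · exact rangeD_sound _ chunkA64 i (by omega) (by omega)
  rcases Nat.lt_or_ge i 42250 with h | h
  · exact rangeD_sound _ chunkA65 i (by omega) (by omega)
  rcases Nat.lt_or_ge i 42850 with h | h
  · exact rangeD_sound _ chunkA66 i (by omega) (by omega)
  rcases Nat.lt_or_ge i 43450 with h | h
  · exact rangeD_sound _ chunkA67 i (by omega) (by omega)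
  rcases Nat.lt_or_ge i 44050 with h | h
  · exact rangeD_sound _ chunkA68 i (by omega) (by omega)
  rcases Nat.lt_or_ge i 44650 with h | h
  · exact rangeD_sound _ chunkA69 i (by omega) (by omega)
  rcases Nat.lt_or_ge i 45250 with h | h
  · exact rangeD_sound _ chunkA70 i (by omega) (by omega)
  rcases Nat.lt_or_ge i 45850 with h | h
  · exact rangeD_sound _ chunkA71 i (by omega) (by omega)
  rcases Nat.lt_or_ge i 46450 with h | h
  · exact rangeD_sound _ chunkA72 i (by omega) (by omega)
  rcases Nat.lt_or_ge i 47050 with h | h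
  · exact rangeD_sound _ chunkA73 i (by omega) (by omega)
  rcases Nat.lt_or_ge i 47650 with h | h
  · exact rangeD_sound _ chunkA74 i (by omega) (by omega)
  rcases Nat.lt_or_ge i 48250 with h | h
  · exact rangeD_sound _ chunkA75 i (by omega) (by omega)
  rcases Nat.lt_or_ge i 48850 with h | h
  · exact rangeD_sound _ chunkA76 i (by omega) (by omega)
  rcases Nat.lt_or_ge i 49450 with h | h
  · exact rangeD_sound _ chunkA77 i (by omega) (by omega)
  rcases Nat.lt_or_ge i 50050 with h | h
  · exact rangeD_sound _ chunkA78 i (by omega) (by omega)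
  rcases Nat.lt_or_ge i 50650 with h | h
  · exact rangeD_sound _ chunkA79 i (by omega) (by omega)
  rcases Nat.lt_or_ge i 51250 with h | h
  · exact rangeD_sound _ chunkA80 i (by omega) (by omega)
  rcases Nat.lt_or_ge i 51850 with h | h
  · exact rangeD_sound _ chunkA81 i (by omega) (by omega)
  rcases Nat.lt_or_ge i 52450 with h | h
  · exact rangeD_sound _ chunkA82 i (by omega) (by omega)
  rcases Nat.lt_or_ge i 53050 with h | h
  · exact rangeD_sound _ chunkA83 i (by omega) (by omega)
  rcases Nat.lt_or_ge i 53650 with h | h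
  · exact rangeD_sound _ chunkA84 i (by omega) (by omega)
  rcases Nat.lt_or_ge i 54250 with h | h
  · exact rangeD_sound _ chunkA85 i (by omega) (by omega)
  rcases Nat.lt_or_ge i 54850 with h | h
  · exact rangeD_sound _ chunkA86 i (by omega) (by omega)
  rcases Nat.lt_or_ge i 55450 with h | h
  · exact rangeD_sound _ chunkA87 i (by omega) (by omega)
  rcases Nat.lt_or_ge i 56050 with h | h
  · exact rangeD_sound _ chunkA88 i (by omega) (by omega)
  rcases Nat.lt_or_ge i 56650 with h | h
  · exact rangeD_sound _ chunkA89 i (by omega) (by omega)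
  rcases Nat.lt_or_ge i 57250 with h | h
  · exact rangeD_sound _ chunkA90 i (by omega) (by omega)
  rcases Nat.lt_or_ge i 57850 with h | h
  · exact rangeD_sound _ chunkA91 i (by omega) (by omega)
  rcases Nat.lt_or_ge i 58450 with h | h
  · exact rangeD_sound _ chunkA92 i (by omega) (by omega)
  rcases Nat.lt_or_ge i 59050 with h | h
  · exact rangeD_sound _ chunkA93 i (by omega) (by omega)
  rcases Nat.lt_or_ge i 59650 with h | h
  · exact rangeD_sound _ chunkA94 i (by omega) (by omega)
  rcases Nat.lt_or_ge i 60250 with h | h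
  · exact rangeD_sound _ chunkA95 i (by omega) (by omega)
  rcases Nat.lt_or_ge i 60850 with h | h
  · exact rangeD_sound _ chunkA96 i (by omega) (by omega)
  rcases Nat.lt_or_ge i 61450 with h | h
  · exact rangeD_sound _ chunkA97 i (by omega) (by omega)
  exact rangeD_sound _ chunkA98 i (by omega) (by omega)

theorem allB (i : ℕ) (h1 : 61717 ≤ i) (h2 : i < 127484) :
    simD (6 * i + 2) 100 (6 * i + 2) 3 = true ∧
      simD (6 * i + 4) 100 (6 * i + 4) 3 = true := by
  rcases Nat.lt_or_ge i 62317 with h | h
  · exact rangeD_sound _ chunkB0 i (by omega) (by omega)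
  rcases Nat.lt_or_ge i 62917 with h | h
  · exact rangeD_sound _ chunkB1 i (by omega) (by omega)
  rcases Nat.lt_or_ge i 63517 with h | h
  · exact rangeD_sound _ chunkB2 i (by omega) (by omega)
  rcases Nat.lt_or_ge i 64117 with h | h
  · exact rangeD_sound _ chunkB3 i (by omega) (by omega)
  rcases Nat.lt_or_ge i 64717 with h | h
  · exact rangeD_sound _ chunkB4 i (by omega) (by omega)
  rcases Nat.lt_or_ge i 65317 with h | h
  · exact rangeD_sound _ chunkB5 i (by omega) (by omega)
  rcases Nat.lt_or_ge i 65917 with h | h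
  · exact rangeD_sound _ chunkB6 i (by omega) (by omega)
  rcases Nat.lt_or_ge i 66517 with h | h
  · exact rangeD_sound _ chunkB7 i (by omega) (by omega)
  rcases Nat.lt_or_ge i 67117 with h | h
  · exact rangeD_sound _ chunkB8 i (by omega) (by omega)
  rcases Nat.lt_or_ge i 67717 with h | h
  · exact rangeD_sound _ chunkB9 i (by omega) (by omega)
  rcases Nat.lt_or_ge i 68317 with h | h
  · exact rangeD_sound _ chunkB10 i (by omega) (by omega)
  rcases Nat.lt_or_ge i 68917 with h | h
  · exact rangeD_sound _ chunkB11 i (by omega) (by omega)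
  rcases Nat.lt_or_ge i 69517 with h | h
  · exact rangeD_sound _ chunkB12 i (by omega) (by omega)
  rcases Nat.lt_or_ge i 70117 with h | h
  · exact rangeD_sound _ chunkB13 i (by omega) (by omega)
  rcases Nat.lt_or_ge i 70717 with h | h
  · exact rangeD_sound _ chunkB14 i (by omega) (by omega)
  rcases Nat.lt_or_ge i 71317 with h | h
  · exact rangeD_sound _ chunkB15 i (by omega) (by omega)
  rcases Nat.lt_or_ge i 71917 with h | h
  · exact rangeD_sound _ chunkB16 i (by omega) (by omega)
  rcases Nat.lt_or_ge i 72517 with h | h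
  · exact rangeD_sound _ chunkB17 i (by omega) (by omega)
  rcases Nat.lt_or_ge i 73117 with h | h
  · exact rangeD_sound _ chunkB18 i (by omega) (by omega)
  rcases Nat.lt_or_ge i 73717 with h | h
  · exact rangeD_sound _ chunkB19 i (by omega) (by omega)
  rcases Nat.lt_or_ge i 74317 with h | h
  · exact rangeD_sound _ chunkB20 i (by omega) (by omega)
  rcases Nat.lt_or_ge i 74917 with h | h
  · exact rangeD_sound _ chunkB21 i (by omega) (by omega)
  rcases Nat.lt_or_ge i 75517 with h | h
  · exact rangeD_sound _ chunkB22 i (by omega) (by omega)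
  rcases Nat.lt_or_ge i 76117 with h | h
  · exact rangeD_sound _ chunkB23 i (by omega) (by omega)
  rcases Nat.lt_or_ge i 76717 with h | h
  · exact rangeD_sound _ chunkB24 i (by omega) (by omega)
  rcases Nat.lt_or_ge i 77317 with h | h
  · exact rangeD_sound _ chunkB25 i (by omega) (by omega)
  rcases Nat.lt_or_ge i 77917 with h | h
  · exact rangeD_sound _ chunkB26 i (by omega) (by omega)
  rcases Nat.lt_or_ge i 78517 with h | h
  · exact rangeD_sound _ chunkB27 i (by omega) (by omega)
  rcases Nat.lt_or_ge i 79117 with h | h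
  · exact rangeD_sound _ chunkB28 i (by omega) (by omega)
  rcases Nat.lt_or_ge i 79717 with h | h
  · exact rangeD_sound _ chunkB29 i (by omega) (by omega)
  rcases Nat.lt_or_ge i 80317 with h | h
  · exact rangeD_sound _ chunkB30 i (by omega) (by omega)
  rcases Nat.lt_or_ge i 80917 with h | h
  · exact rangeD_sound _ chunkB31 i (by omega) (by omega)
  rcases Nat.lt_or_ge i 81517 with h | h
  · exact rangeD_sound _ chunkB32 i (by omega) (by omega)
  rcases Nat.lt_or_ge i 82117 with h | h
  · exact rangeD_sound _ chunkB33 i (by omega) (by omega)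
  rcases Nat.lt_or_ge i 82717 with h | h
  · exact rangeD_sound _ chunkB34 i (by omega) (by omega)
  rcases Nat.lt_or_ge i 83317 with h | h
  · exact rangeD_sound _ chunkB35 i (by omega) (by omega)
  rcases Nat.lt_or_ge i 83917 with h | h
  · exact rangeD_sound _ chunkB36 i (by omega) (by omega)
  rcases Nat.lt_or_ge i 84517 with h | h
  · exact rangeD_sound _ chunkB37 i (by omega) (by omega)
  rcases Nat.lt_or_ge i 85117 with h | h
  · exact rangeD_sound _ chunkB38 i (by omega) (by omega)
  rcases Nat.lt_or_ge i 85717 with h | h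
  · exact rangeD_sound _ chunkB39 i (by omega) (by omega)
  rcases Nat.lt_or_ge i 86317 with h | h
  · exact rangeD_sound _ chunkB40 i (by omega) (by omega)
  rcases Nat.lt_or_ge i 86917 with h | h
  · exact rangeD_sound _ chunkB41 i (by omega) (by omega)
  rcases Nat.lt_or_ge i 87517 with h | h
  · exact rangeD_sound _ chunkB42 i (by omega) (by omega)
  rcases Nat.lt_or_ge i 88117 with h | h
  · exact rangeD_sound _ chunkB43 i (by omega) (by omega)
  rcases Nat.lt_or_ge i 88717 with h | h
  · exact rangeD_sound _ chunkB44 i (by omega) (by omega)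
  rcases Nat.lt_or_ge i 89317 with h | h
  · exact rangeD_sound _ chunkB45 i (by omega) (by omega)
  rcases Nat.lt_or_ge i 89917 with h | h
  · exact rangeD_sound _ chunkB46 i (by omega) (by omega)
  rcases Nat.lt_or_ge i 90517 with h | h
  · exact rangeD_sound _ chunkB47 i (by omega) (by omega)
  rcases Nat.lt_or_ge i 91117 with h | h
  · exact rangeD_sound _ chunkB48 i (by omega) (by omega)
  rcases Nat.lt_or_ge i 91717 with h | h
  · exact rangeD_sound _ chunkB49 i (by omega) (by omega)
  rcases Nat.lt_or_ge i 92317 with h | h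
  · exact rangeD_sound _ chunkB50 i (by omega) (by omega)
  rcases Nat.lt_or_ge i 92917 with h | h
  · exact rangeD_sound _ chunkB51 i (by omega) (by omega)
  rcases Nat.lt_or_ge i 93517 with h | h
  · exact rangeD_sound _ chunkB52 i (by omega) (by omega)
  rcases Nat.lt_or_ge i 94117 with h | h
  · exact rangeD_sound _ chunkB53 i (by omega) (by omega)
  rcases Nat.lt_or_ge i 94717 with h | h
  · exact rangeD_sound _ chunkB54 i (by omega) (by omega)
  rcases Nat.lt_or_ge i 95317 with h | h
  · exact rangeD_sound _ chunkB55 i (by omega) (by omega)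
  rcases Nat.lt_or_ge i 95917 with h | h
  · exact rangeD_sound _ chunkB56 i (by omega) (by omega)
  rcases Nat.lt_or_ge i 96517 with h | h
  · exact rangeD_sound _ chunkB57 i (by omega) (by omega)
  rcases Nat.lt_or_ge i 97117 with h | h
  · exact rangeD_sound _ chunkB58 i (by omega) (by omega)
  rcases Nat.lt_or_ge i 97717 with h | h
  · exact rangeD_sound _ chunkB59 i (by omega) (by omega)
  rcases Nat.lt_or_ge i 98317 with h | h
  · exact rangeD_sound _ chunkB60 i (by omega) (by omega)
  rcases Nat.lt_or_ge i 98917 with h | h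
  · exact rangeD_sound _ chunkB61 i (by omega) (by omega)
  rcases Nat.lt_or_ge i 99517 with h | h
  · exact rangeD_sound _ chunkB62 i (by omega) (by omega)
  rcases Nat.lt_or_ge i 100117 with h | h
  · exact rangeD_sound _ chunkB63 i (by omega) (by omega)
  rcases Nat.lt_or_ge i 100717 with h | h
  · exact rangeD_sound _ chunkB64 i (by omega) (by omega)
  rcases Nat.lt_or_ge i 101317 with h | h
  · exact rangeD_sound _ chunkB65 i (by omega) (by omega)
  rcases Nat.lt_or_ge i 101917 with h | h
  · exact rangeD_sound _ chunkB66 i (by omega) (by omega)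
  rcases Nat.lt_or_ge i 102517 with h | h
  · exact rangeD_sound _ chunkB67 i (by omega) (by omega)
  rcases Nat.lt_or_ge i 103117 with h | h
  · exact rangeD_sound _ chunkB68 i (by omega) (by omega)
  rcases Nat.lt_or_ge i 103717 with h | h
  · exact rangeD_sound _ chunkB69 i (by omega) (by omega)
  rcases Nat.lt_or_ge i 104317 with h | h
  · exact rangeD_sound _ chunkB70 i (by omega) (by omega)
  rcases Nat.lt_or_ge i 104917 with h | h
  · exact rangeD_sound _ chunkB71 i (by omega) (by omega)
  rcases Nat.lt_or_ge i 105517 with h | h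
  · exact rangeD_sound _ chunkB72 i (by omega) (by omega)
  rcases Nat.lt_or_ge i 106117 with h | h
  · exact rangeD_sound _ chunkB73 i (by omega) (by omega)
  rcases Nat.lt_or_ge i 106717 with h | h
  · exact rangeD_sound _ chunkB74 i (by omega) (by omega)
  rcases Nat.lt_or_ge i 107317 with h | h
  · exact rangeD_sound _ chunkB75 i (by omega) (by omega)
  rcases Nat.lt_or_ge i 107917 with h | h
  · exact rangeD_sound _ chunkB76 i (by omega) (by omega)
  rcases Nat.lt_or_ge i 108517 with h | h
  · exact rangeD_sound _ chunkB77 i (by omega) (by omega)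
  rcases Nat.lt_or_ge i 109117 with h | h
  · exact rangeD_sound _ chunkB78 i (by omega) (by omega)
  rcases Nat.lt_or_ge i 109717 with h | h
  · exact rangeD_sound _ chunkB79 i (by omega) (by omega)
  rcases Nat.lt_or_ge i 110317 with h | h
  · exact rangeD_sound _ chunkB80 i (by omega) (by omega)
  rcases Nat.lt_or_ge i 110917 with h | h
  · exact rangeD_sound _ chunkB81 i (by omega) (by omega)
  rcases Nat.lt_or_ge i 111517 with h | h
  · exact rangeD_sound _ chunkB82 i (by omega) (by omega)
  rcases Nat.lt_or_ge i 112117 with h | h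
  · exact rangeD_sound _ chunkB83 i (by omega) (by omega)
  rcases Nat.lt_or_ge i 112717 with h | h
  · exact rangeD_sound _ chunkB84 i (by omega) (by omega)
  rcases Nat.lt_or_ge i 113317 with h | h
  · exact rangeD_sound _ chunkB85 i (by omega) (by omega)
  rcases Nat.lt_or_ge i 113917 with h | h
  · exact rangeD_sound _ chunkB86 i (by omega) (by omega)
  rcases Nat.lt_or_ge i 114517 with h | h
  · exact rangeD_sound _ chunkB87 i (by omega) (by omega)
  rcases Nat.lt_or_ge i 115117 with h | h
  · exact rangeD_sound _ chunkB88 i (by omega) (by omega)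
  rcases Nat.lt_or_ge i 115717 with h | h
  · exact rangeD_sound _ chunkB89 i (by omega) (by omega)
  rcases Nat.lt_or_ge i 116317 with h | h
  · exact rangeD_sound _ chunkB90 i (by omega) (by omega)
  rcases Nat.lt_or_ge i 116917 with h | h
  · exact rangeD_sound _ chunkB91 i (by omega) (by omega)
  rcases Nat.lt_or_ge i 117517 with h | h
  · exact rangeD_sound _ chunkB92 i (by omega) (by omega)
  rcases Nat.lt_or_ge i 118117 with h | h
  · exact rangeD_sound _ chunkB93 i (by omega) (by omega)
  rcases Nat.lt_or_ge i 118717 with h | h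
  · exact rangeD_sound _ chunkB94 i (by omega) (by omega)
  rcases Nat.lt_or_ge i 119317 with h | h
  · exact rangeD_sound _ chunkB95 i (by omega) (by omega)
  rcases Nat.lt_or_ge i 119917 with h | h
  · exact rangeD_sound _ chunkB96 i (by omega) (by omega)
  rcases Nat.lt_or_ge i 120517 with h | h
  · exact rangeD_sound _ chunkB97 i (by omega) (by omega)
  rcases Nat.lt_or_ge i 121117 with h | h
  · exact rangeD_sound _ chunkB98 i (by omega) (by omega)
  rcases Nat.lt_or_ge i 121717 with h | h
  · exact rangeD_sound _ chunkB99 i (by omega) (by omega)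
  rcases Nat.lt_or_ge i 122317 with h | h
  · exact rangeD_sound _ chunkB100 i (by omega) (by omega)
  rcases Nat.lt_or_ge i 122917 with h | h
  · exact rangeD_sound _ chunkB101 i (by omega) (by omega)
  rcases Nat.lt_or_ge i 123517 with h | h
  · exact rangeD_sound _ chunkB102 i (by omega) (by omega)
  rcases Nat.lt_or_ge i 124117 with h | h
  · exact rangeD_sound _ chunkB103 i (by omega) (by omega)
  rcases Nat.lt_or_ge i 124717 with h | h
  · exact rangeD_sound _ chunkB104 i (by omega) (by omega)
  rcases Nat.lt_or_ge i 125317 with h | h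
  · exact rangeD_sound _ chunkB105 i (by omega) (by omega)
  rcases Nat.lt_or_ge i 125917 with h | h
  · exact rangeD_sound _ chunkB106 i (by omega) (by omega)
  rcases Nat.lt_or_ge i 126517 with h | h
  · exact rangeD_sound _ chunkB107 i (by omega) (by omega)
  rcases Nat.lt_or_ge i 127117 with h | h
  · exact rangeD_sound _ chunkB108 i (by omega) (by omega)
  exact rangeD_sound _ chunkB109 i (by omega) (by omega)

theorem allC (i : ℕ) (h1 : 127483 ≤ i) (h2 : i < 172300) :
    simD (6 * i + 2) 100 (6 * i + 2) 1 = true ∧
      simD (6 * i + 4) 100 (6 * i + 4) 1 = true := by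
  rcases Nat.lt_or_ge i 128083 with h | h
  · exact rangeD_sound _ chunkC0 i (by omega) (by omega)
  rcases Nat.lt_or_ge i 128683 with h | h
  · exact rangeD_sound _ chunkC1 i (by omega) (by omega)
  rcases Nat.lt_or_ge i 129283 with h | h
  · exact rangeD_sound _ chunkC2 i (by omega) (by omega)
  rcases Nat.lt_or_ge i 129883 with h | h
  · exact rangeD_sound _ chunkC3 i (by omega) (by omega)
  rcases Nat.lt_or_ge i 130483 with h | h
  · exact rangeD_sound _ chunkC4 i (by omega) (by omega)
  rcases Nat.lt_or_ge i 131083 with h | h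
  · exact rangeD_sound _ chunkC5 i (by omega) (by omega)
  rcases Nat.lt_or_ge i 131683 with h | h
  · exact rangeD_sound _ chunkC6 i (by omega) (by omega)
  rcases Nat.lt_or_ge i 132283 with h | h
  · exact rangeD_sound _ chunkC7 i (by omega) (by omega)
  rcases Nat.lt_or_ge i 132883 with h | h
  · exact rangeD_sound _ chunkC8 i (by omega) (by omega)
  rcases Nat.lt_or_ge i 133483 with h | h
  · exact rangeD_sound _ chunkC9 i (by omega) (by omega)
  rcases Nat.lt_or_ge i 134083 with h | h
  · exact rangeD_sound _ chunkC10 i (by omega) (by omega)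
  rcases Nat.lt_or_ge i 134683 with h | h
  · exact rangeD_sound _ chunkC11 i (by omega) (by omega)
  rcases Nat.lt_or_ge i 135283 with h | h
  · exact rangeD_sound _ chunkC12 i (by omega) (by omega)
  rcases Nat.lt_or_ge i 135883 with h | h
  · exact rangeD_sound _ chunkC13 i (by omega) (by omega)
  rcases Nat.lt_or_ge i 136483 with h | h
  · exact rangeD_sound _ chunkC14 i (by omega) (by omega)
  rcases Nat.lt_or_ge i 137083 with h | h
  · exact rangeD_sound _ chunkC15 i (by omega) (by omega)
  rcases Nat.lt_or_ge i 137683 with h | h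
  · exact rangeD_sound _ chunkC16 i (by omega) (by omega)
  rcases Nat.lt_or_ge i 138283 with h | h
  · exact rangeD_sound _ chunkC17 i (by omega) (by omega)
  rcases Nat.lt_or_ge i 138883 with h | h
  · exact rangeD_sound _ chunkC18 i (by omega) (by omega)
  rcases Nat.lt_or_ge i 139483 with h | h
  · exact rangeD_sound _ chunkC19 i (by omega) (by omega)
  rcases Nat.lt_or_ge i 140083 with h | h
  · exact rangeD_sound _ chunkC20 i (by omega) (by omega)
  rcases Nat.lt_or_ge i 140683 with h | h
  · exact rangeD_sound _ chunkC21 i (by omega) (by omega)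
  rcases Nat.lt_or_ge i 141283 with h | h
  · exact rangeD_sound _ chunkC22 i (by omega) (by omega)
  rcases Nat.lt_or_ge i 141883 with h | h
  · exact rangeD_sound _ chunkC23 i (by omega) (by omega)
  rcases Nat.lt_or_ge i 142483 with h | h
  · exact rangeD_sound _ chunkC24 i (by omega) (by omega)
  rcases Nat.lt_or_ge i 143083 with h | h
  · exact rangeD_sound _ chunkC25 i (by omega) (by omega)
  rcases Nat.lt_or_ge i 143683 with h | h
  · exact rangeD_sound _ chunkC26 i (by omega) (by omega)
  rcases Nat.lt_or_ge i 144283 with h | h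
  · exact rangeD_sound _ chunkC27 i (by omega) (by omega)
  rcases Nat.lt_or_ge i 144883 with h | h
  · exact rangeD_sound _ chunkC28 i (by omega) (by omega)
  rcases Nat.lt_or_ge i 145483 with h | h
  · exact rangeD_sound _ chunkC29 i (by omega) (by omega)
  rcases Nat.lt_or_ge i 146083 with h | h
  · exact rangeD_sound _ chunkC30 i (by omega) (by omega)
  rcases Nat.lt_or_ge i 146683 with h | h
  · exact rangeD_sound _ chunkC31 i (by omega) (by omega)
  rcases Nat.lt_or_ge i 147283 with h | h
  · exact rangeD_sound _ chunkC32 i (by omega) (by omega)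
  rcases Nat.lt_or_ge i 147883 with h | h
  · exact rangeD_sound _ chunkC33 i (by omega) (by omega)
  rcases Nat.lt_or_ge i 148483 with h | h
  · exact rangeD_sound _ chunkC34 i (by omega) (by omega)
  rcases Nat.lt_or_ge i 149083 with h | h
  · exact rangeD_sound _ chunkC35 i (by omega) (by omega)
  rcases Nat.lt_or_ge i 149683 with h | h
  · exact rangeD_sound _ chunkC36 i (by omega) (by omega)
  rcases Nat.lt_or_ge i 150283 with h | h
  · exact rangeD_sound _ chunkC37 i (by omega) (by omega)
  rcases Nat.lt_or_ge i 150883 with h | h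
  · exact rangeD_sound _ chunkC38 i (by omega) (by omega)
  rcases Nat.lt_or_ge i 151483 with h | h
  · exact rangeD_sound _ chunkC39 i (by omega) (by omega)
  rcases Nat.lt_or_ge i 152083 with h | h
  · exact rangeD_sound _ chunkC40 i (by omega) (by omega)
  rcases Nat.lt_or_ge i 152683 with h | h
  · exact rangeD_sound _ chunkC41 i (by omega) (by omega)
  rcases Nat.lt_or_ge i 153283 with h | h
  · exact rangeD_sound _ chunkC42 i (by omega) (by omega)
  rcases Nat.lt_or_ge i 153883 with h | h
  · exact rangeD_sound _ chunkC43 i (by omega) (by omega)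
  rcases Nat.lt_or_ge i 154483 with h | h
  · exact rangeD_sound _ chunkC44 i (by omega) (by omega)
  rcases Nat.lt_or_ge i 155083 with h | h
  · exact rangeD_sound _ chunkC45 i (by omega) (by omega)
  rcases Nat.lt_or_ge i 155683 with h | h
  · exact rangeD_sound _ chunkC46 i (by omega) (by omega)
  rcases Nat.lt_or_ge i 156283 with h | h
  · exact rangeD_sound _ chunkC47 i (by omega) (by omega)
  rcases Nat.lt_or_ge i 156883 with h | h
  · exact rangeD_sound _ chunkC48 i (by omega) (by omega)
  rcases Nat.lt_or_ge i 157483 with h | h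
  · exact rangeD_sound _ chunkC49 i (by omega) (by omega)
  rcases Nat.lt_or_ge i 158083 with h | h
  · exact rangeD_sound _ chunkC50 i (by omega) (by omega)
  rcases Nat.lt_or_ge i 158683 with h | h
  · exact rangeD_sound _ chunkC51 i (by omega) (by omega)
  rcases Nat.lt_or_ge i 159283 with h | h
  · exact rangeD_sound _ chunkC52 i (by omega) (by omega)
  rcases Nat.lt_or_ge i 159883 with h | h
  · exact rangeD_sound _ chunkC53 i (by omega) (by omega)
  rcases Nat.lt_or_ge i 160483 with h | h
  · exact rangeD_sound _ chunkC54 i (by omega) (by omega)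
  rcases Nat.lt_or_ge i 161083 with h | h
  · exact rangeD_sound _ chunkC55 i (by omega) (by omega)
  rcases Nat.lt_or_ge i 161683 with h | h
  · exact rangeD_sound _ chunkC56 i (by omega) (by omega)
  rcases Nat.lt_or_ge i 162283 with h | h
  · exact rangeD_sound _ chunkC57 i (by omega) (by omega)
  rcases Nat.lt_or_ge i 162883 with h | h
  · exact rangeD_sound _ chunkC58 i (by omega) (by omega)
  rcases Nat.lt_or_ge i 163483 with h | h
  · exact rangeD_sound _ chunkC59 i (by omega) (by omega)
  rcases Nat.lt_or_ge i 164083 with h | h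
  · exact rangeD_sound _ chunkC60 i (by omega) (by omega)
  rcases Nat.lt_or_ge i 164683 with h | h
  · exact rangeD_sound _ chunkC61 i (by omega) (by omega)
  rcases Nat.lt_or_ge i 165283 with h | h
  · exact rangeD_sound _ chunkC62 i (by omega) (by omega)
  rcases Nat.lt_or_ge i 165883 with h | h
  · exact rangeD_sound _ chunkC63 i (by omega) (by omega)
  rcases Nat.lt_or_ge i 166483 with h | h
  · exact rangeD_sound _ chunkC64 i (by omega) (by omega)
  rcases Nat.lt_or_ge i 167083 with h | h
  · exact rangeD_sound _ chunkC65 i (by omega) (by omega)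
  rcases Nat.lt_or_ge i 167683 with h | h
  · exact rangeD_sound _ chunkC66 i (by omega) (by omega)
  rcases Nat.lt_or_ge i 168283 with h | h
  · exact rangeD_sound _ chunkC67 i (by omega) (by omega)
  rcases Nat.lt_or_ge i 168883 with h | h
  · exact rangeD_sound _ chunkC68 i (by omega) (by omega)
  rcases Nat.lt_or_ge i 169483 with h | h
  · exact rangeD_sound _ chunkC69 i (by omega) (by omega)
  rcases Nat.lt_or_ge i 170083 with h | h
  · exact rangeD_sound _ chunkC70 i (by omega) (by omega)
  rcases Nat.lt_or_ge i 170683 with h | h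
  · exact rangeD_sound _ chunkC71 i (by omega) (by omega)
  rcases Nat.lt_or_ge i 171283 with h | h
  · exact rangeD_sound _ chunkC72 i (by omega) (by omega)
  rcases Nat.lt_or_ge i 171883 with h | h
  · exact rangeD_sound _ chunkC73 i (by omega) (by omega)
  exact rangeD_sound _ chunkC74 i (by omega) (by omega)

end Pool.Agent.KLA
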