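import Pool.Agent.KLA.Logs

/-!
Finite cycles of Collatz's original permutation: inequalities between the length, the number of
descending runs, the least and the greatest element.
-/

open Finset

namespace Pool.Agent.KLA

/-- Collatz's original permutation: `3k ↦ 2k`, `3k+1 ↦ 4k+1`, `3k+2 ↦ 4k+3`. -/
def klam (x : ℕ) : ℕ :=
  if x % 3 = 0 then 2 * (x / 3) else if x % 3 = 1 then 4 * (x / 3) + 1 else 4 * (x / 3) + 3

theorem klam_of_dvd {x : ℕ} (h : 3 ∣ x) : 3 * klam x = 2 * x := by
  unfold klam; rw [if_pos (by omega)]; omega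

theorem klam_of_one {x : ℕ} (h : x % 3 = 1) : 3 * klam x + 1 = 4 * x := by
  unfold klam; rw [if_neg (by omega), if_pos h]; omega

theorem klam_of_two {x : ℕ} (h : x % 3 = 2) : 3 * klam x = 4 * x + 1 := by
  unfold klam; rw [if_neg (by omega), if_neg (by omega)]; omega

theorem klam_pos {x : ℕ} (h : 0 < x) : 0 < klam x := by
  unfold klam
  split_ifs with h1 h2
  · omega
  · omega
  · omega

theorem klam_ndvd_bounds {x : ℕ} (h : ¬ 3 ∣ x) : 4 * x ≤ 3 * klam x + 1 ∧ 3 * klam x ≤ 4 * x + 1 := by
  have : x % 3 = 1 ∨ x % 3 = 2 := by omega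
  rcases this with h | h
  · have := klam_of_one h; omega
  · have := klam_of_two h; omega

theorem lt_klam {x : ℕ} (h2 : 2 ≤ x) (h : ¬ 3 ∣ x) : x < klam x := by
  have := klam_ndvd_bounds h
  omega

theorem klam_lt {x : ℕ} (h2 : 0 < x) (h : 3 ∣ x) : klam x < x := by
  have := klam_of_dvd h
  omega

theorem klam_133 {x : ℕ} (hx : 100 ≤ x) (h : ¬ 3 ∣ x) : 133 * x ≤ 100 * klam x := by
  have := klam_ndvd_bounds h
  omega

/-- Indicator of the last element of a descending run. -/
def re (x : ℕ) : ℕ := if 3 ∣ x ∧ ¬ 3 ∣ klam x then 1 else 0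

/-- Number of descending runs along `ℓ` steps. -/
def runs (x ℓ : ℕ) : ℕ := ∑ t ∈ range ℓ, re (klam^[t] x)

/-- Number of ascending steps along `ℓ` steps. -/
def asc (x ℓ : ℕ) : ℕ := ∑ t ∈ range ℓ, (if 3 ∣ klam^[t] x then 0 else 1)

theorem runs_shift {x ℓ : ℕ} (h : klam^[ℓ] x = x) (s : ℕ) : runs (klam^[s] x) ℓ = runs x ℓ := by
  induction s with
  | zero => rfl
  | succ s ih =>
    rw [← ih]
    have hy : klam^[ℓ] (klam^[s] x) = klam^[s] x := by
      rw [← Function.iterate_add_apply, add_comm, Function.iterate_add_apply, h]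
    set y := klam^[s] x with hyd
    have e : klam^[s + 1] x = klam y := by rw [Function.iterate_succ_apply', hyd]
    rw [e]
    unfold runs
    have h1 := Finset.sum_range_succ (fun t => re (klam^[t] y)) ℓ
    have h2 := Finset.sum_range_succ' (fun t => re (klam^[t] y)) ℓ
    rw [h1] at h2
    simp only [Function.iterate_zero, id_eq, hy] at h2
    have h3 : ∑ t ∈ range ℓ, re (klam^[t] (klam y)) = ∑ t ∈ range ℓ, re (klam^[t + 1] y) := by
      apply Finset.sum_congr rfl
      intro t _
      rw [Function.iterate_succ_apply]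
    rw [h3]
    omega

/-- Telescoping: a potential summed over a cycle. -/
theorem cycle_sum_le {x ℓ : ℕ} (h : klam^[ℓ] x = x) (u : ℕ → ℝ) (H : ℕ → ℝ) (w : ℕ → ℝ)
    (hstep : ∀ t < ℓ, u (klam^[t] x) ≤ H (klam^[t + 1] x) - H (klam^[t] x) +
      w (klam^[t] x)) :
    ∑ t ∈ range ℓ, u (klam^[t] x) ≤ ∑ t ∈ range ℓ, w (klam^[t] x) := by
  calc ∑ t ∈ range ℓ, u (klam^[t] x)
      ≤ ∑ t ∈ range ℓ, (H (klam^[t + 1] x) - H (klam^[t] x) + w (klam^[t] x)) :=
        Finset.sum_le_sum (fun t ht => hstep t (Finset.mem_range.mp ht))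
    _ = (H (klam^[ℓ] x) - H (klam^[0] x)) + ∑ t ∈ range ℓ, w (klam^[t] x) := by
        rw [Finset.sum_add_distrib, Finset.sum_range_sub (fun t => H (klam^[t] x))]
    _ = ∑ t ∈ range ℓ, w (klam^[t] x) := by rw [h]; simp

/-- `F1`: the linear form of a cycle is at most `1.0102` times the sum of the reciprocals of
the local minima. -/
theorem cycle_lin {x ℓ n : ℕ} (h : klam^[ℓ] x = x) (hn : 100 ≤ n)
    (hmin : ∀ t, n ≤ klam^[t] x) :
    |((ℓ + asc x ℓ : ℕ) : ℝ) * Real.log 2 - ℓ * Real.log 3| ≤
      ∑ t ∈ range ℓ, (1.0102 : ℝ) * re (klam^[t] x) / klam (klam^[t] x) := by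
  have hn0 : (0 : ℝ) < n := by
    have : (100 : ℝ) ≤ n := by exact_mod_cast hn
    linarith
  -- error of one step
  set η : ℕ → ℝ := fun y => Real.log (klam y) - Real.log y + Real.log 3 -
    (1 + (if 3 ∣ y then (0 : ℝ) else 1)) * Real.log 2 with hη
  have hsum : ∑ t ∈ range ℓ, η (klam^[t] x) =
      -(((ℓ + asc x ℓ : ℕ) : ℝ) * Real.log 2 - ℓ * Real.log 3) := by
    have h1 : ∀ t ∈ range ℓ, η (klam^[t] x) =
        (Real.log (klam^[t + 1] x : ℕ) - Real.log (klam^[t] x : ℕ)) + Real.log 3 -
        (1 + ((if 3 ∣ klam^[t] x then 0 else 1 : ℕ) : ℝ)) * Real.log 2 := by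
      intro t _
      simp only [hη]
      rw [Function.iterate_succ_apply']
      split_ifs <;> simp
    rw [Finset.sum_congr rfl h1, Finset.sum_sub_distrib, Finset.sum_add_distrib,
      Finset.sum_range_sub (fun t => Real.log (klam^[t] x : ℕ)), h, ← Finset.sum_mul,
      Finset.sum_add_distrib]
    unfold asc
    push_cast
    simp
  have hkey := cycle_sum_le h (fun y => |η y|)
    (fun y => -(1.0102 * (if 3 ∣ y then (0 : ℝ) else 1 / y)))
    (fun y => (1.0102 : ℝ) * re y / klam y) (by
      intro t _
      set y := klam^[t] x with hy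
      have hyn : n ≤ y := hmin t
      have hfn : n ≤ klam y := by
        have := hmin (t + 1)
        rwa [Function.iterate_succ_apply', ← hy] at this
      rw [Function.iterate_succ_apply', ← hy]
      have hynr : (n : ℝ) ≤ y := by exact_mod_cast hyn
      have hfnr : (n : ℝ) ≤ klam y := by exact_mod_cast hfn
      have hy0 : (0 : ℝ) < y := by linarith
      have hf0 : (0 : ℝ) < klam y := by linarith
      by_cases hd : 3 ∣ y
      · have h3 : (3 : ℝ) * klam y = 2 * y := by exact_mod_cast klam_of_dvd hd
        have hη0 : η y = 0 := by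
          simp only [hη, if_pos hd]
          have : Real.log 3 + Real.log (klam y) = Real.log 2 + Real.log y := by
            rw [← Real.log_mul (by norm_num) hf0.ne', ← Real.log_mul (by norm_num) hy0.ne', h3]
          linarith
        simp only [hη0, abs_zero, if_pos hd]
        by_cases hf : 3 ∣ klam y
        · have hre : re y = 0 := by unfold re; rw [if_neg (fun h => h.2 hf)]
          rw [hre, if_pos hf]
          simp
        · have hre : re y = 1 := by
            unfold re
            rw [if_pos (show 3 ∣ y ∧ ¬ 3 ∣ klam y from ⟨hd, hf⟩)]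
          rw [hre, if_neg hf]
          have : (1.0102 : ℝ) * ((1 : ℕ) : ℝ) / klam y = 1.0102 * (1 / klam y) := by
            push_cast; ring
          rw [this]
          linarith
      · simp only [if_neg hd]
        have hre : re y = 0 := by unfold re; rw [if_neg (fun h => hd h.1)]
        rw [hre]
        have hy100 : (100 : ℝ) ≤ y := by
          have : (100 : ℝ) ≤ n := by exact_mod_cast hn
          linarith
        -- the bound for η
        have hb := klam_ndvd_bounds hd
        have hb1 : (4 : ℝ) * y ≤ 3 * klam y + 1 := by exact_mod_cast hb.1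
        have hb2 : (3 : ℝ) * klam y ≤ 4 * y + 1 := by exact_mod_cast hb.2
        have hη1 : η y = Real.log (3 * klam y / (4 * y)) := by
          simp only [hη, if_neg hd]
          rw [Real.log_div (by positivity) (by positivity), Real.log_mul (by norm_num) hf0.ne',
            Real.log_mul (by norm_num) hy0.ne',
            show (4 : ℝ) = 2 ^ 2 by norm_num, Real.log_pow]
          push_cast
          ring
        have hq1 : 3 * (klam y : ℝ) / (4 * y) ≤ 1 + 1 / (4 * y - 1) := by
          rw [div_le_iff₀ (by positivity)]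
          have : (1 + 1 / (4 * (y : ℝ) - 1)) * (4 * y) = 4 * y + 4 * y / (4 * y - 1) := by ring
          rw [this]
          have : (1 : ℝ) ≤ 4 * y / (4 * y - 1) := by
            rw [le_div_iff₀ (by linarith)]; linarith
          linarith
        have hq2 : (4 * (y : ℝ)) / (3 * klam y) ≤ 1 + 1 / (4 * y - 1) := by
          rw [div_le_iff₀ (by positivity)]
          have e1 : (1 + 1 / (4 * (y : ℝ) - 1)) = 4 * y / (4 * y - 1) := by
            have : (4 * (y : ℝ) - 1) ≠ 0 := by linarith
            field_simp
            ring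
          rw [e1, div_mul_eq_mul_div, le_div_iff₀ (by linarith)]
          nlinarith
        have hηb : |η y| ≤ 1 / (4 * y - 1) := by
          rw [hη1, abs_le]
          constructor
          · have h5 : -Real.log (3 * (klam y : ℝ) / (4 * y)) = Real.log (4 * y / (3 * klam y)) := by
              rw [← Real.log_inv, inv_div]
            have h6 := Real.log_le_sub_one_of_pos
              (show (0 : ℝ) < 4 * y / (3 * klam y) by positivity)
            linarith
          · have h6 := Real.log_le_sub_one_of_pos
              (show (0 : ℝ) < 3 * (klam y : ℝ) / (4 * y) by positivity)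
            linarith
        refine hηb.trans ?_
        have h133 : (133 : ℝ) * y ≤ 100 * klam y := by
          exact_mod_cast klam_133 (hn.trans hyn) hd
        have hH : (if 3 ∣ klam y then (0 : ℝ) else 1 / klam y) ≤ 100 / 133 * (1 / y) := by
          split_ifs
          · positivity
          · rw [div_mul_div_comm, div_le_div_iff₀ hf0 (by positivity)]
            linarith
        have hfin : (1 : ℝ) / (4 * y - 1) ≤ 1.0102 * (33 / 133) * (1 / y) := by
          rw [mul_one_div, div_le_div_iff₀ (by linarith) hy0]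
          norm_num
          linarith
        have : (1.0102 : ℝ) * (33 / 133) * (1 / y) = 1.0102 * (1 / y) - 1.0102 * (100 / 133 * (1 / y)) := by
          ring
        rw [Nat.cast_zero, mul_zero, zero_div]
        linarith)
  have h2 : |((ℓ + asc x ℓ : ℕ) : ℝ) * Real.log 2 - ℓ * Real.log 3| ≤
      ∑ t ∈ range ℓ, |η (klam^[t] x)| := by
    rw [← abs_neg, ← hsum]
    exact Finset.abs_sum_le_sum_abs _ _
  exact h2.trans hkey

end Pool.Agent.KLA
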