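import Pool.Agent.KLA.Cycle

open Finset

namespace Pool.Agent.KLA

theorem padic_klam {y : ℕ} (hy : 0 < y) (hd : 3 ∣ y) :
    padicValNat 3 y = padicValNat 3 (klam y) + 1 := by
  have h3 := klam_of_dvd hd
  have hf : klam y ≠ 0 := (klam_pos hy).ne'
  have h1 : padicValNat 3 (3 * klam y) = 1 + padicValNat 3 (klam y) := by
    have : Fact (Nat.Prime 3) := ⟨Nat.prime_three⟩
    rw [padicValNat.mul (by norm_num) hf, padicValNat_self]
  have h2 : padicValNat 3 (2 * y) = padicValNat 3 y := by
    have : Fact (Nat.Prime 3) := ⟨Nat.prime_three⟩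
    rw [padicValNat.mul (by norm_num) hy.ne']
    have : padicValNat 3 2 = 0 := padicValNat.eq_zero_of_not_dvd (by norm_num)
    rw [this, zero_add]
  rw [h3, h2] at h1
  omega

/-- The exponent `log 2 / log 3`. -/
noncomputable def th : ℝ := Real.log 2 / Real.log 3

theorem th_pos : 0 < th := by
  unfold th
  have h1 : 0 < Real.log 2 := Real.log_pos (by norm_num)
  have h2 : 0 < Real.log 3 := Real.log_pos (by norm_num)
  positivity

theorem th_lt_one : th < 1 := by
  unfold th
  rw [div_lt_one (Real.log_pos (by norm_num))]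
  exact Real.log_lt_log (by norm_num) (by norm_num)

/-- Descending from a multiple `Y` of `3 ^ (i+1)`. -/
theorem descend {Y z i : ℕ} (hY : 0 < Y) (hz : 0 < z) (hd : 3 ^ i ∣ Y)
    (h : 3 ^ i * z = 2 ^ i * Y) : th * Real.log Y ≤ Real.log z := by
  have hl2 : 0 < Real.log 2 := Real.log_pos (by norm_num)
  have hl3 : 0 < Real.log 3 := Real.log_pos (by norm_num)
  have hl23 : Real.log 2 < Real.log 3 := Real.log_lt_log (by norm_num) (by norm_num)
  have hY0 : (0 : ℝ) < Y := by exact_mod_cast hY
  have hz0 : (0 : ℝ) < z := by exact_mod_cast hz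
  have h1 : (i : ℝ) * Real.log 3 + Real.log z = i * Real.log 2 + Real.log Y := by
    have : (3 : ℝ) ^ i * z = 2 ^ i * Y := by exact_mod_cast h
    have h2 := congrArg Real.log this
    rwa [Real.log_mul (by positivity) hz0.ne', Real.log_mul (by positivity) hY0.ne',
      Real.log_pow, Real.log_pow] at h2
  have h2 : (i : ℝ) * Real.log 3 ≤ Real.log Y := by
    rw [← Real.log_pow]
    apply Real.log_le_log (by positivity)
    exact_mod_cast Nat.le_of_dvd hY hd
  unfold th
  rw [div_mul_eq_mul_div, div_le_iff₀ hl3]
  have h3 : Real.log z = Real.log Y - i * (Real.log 3 - Real.log 2) := by linarith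
  rw [h3]
  nlinarith

theorem runs_mono {x k ℓ : ℕ} (hk : k ≤ ℓ) : runs x k ≤ runs x ℓ := by
  unfold runs
  exact Finset.sum_le_sum_of_subset (Finset.range_mono hk)

/-- `F2`: descending from `x` to `n` takes many runs. -/
theorem path_descend {x n : ℕ} (hx0 : 0 < x) (hn3 : ¬ 3 ∣ n)
    {k : ℕ} (hkn : klam^[k] x = n) :
    th ^ runs x k * Real.log x ≤ Real.log n := by
  have hpos : ∀ t, 0 < klam^[t] x := by
    intro t
    induction t with
    | zero => simpa using hx0
    | succ t ih => rw [Function.iterate_succ_apply']; exact klam_pos ih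
  have inv : ∀ t, (¬ 3 ∣ klam^[t] x ∧ th ^ runs x t * Real.log x ≤ Real.log (klam^[t] x : ℕ)) ∨
      (∃ i Y : ℕ, 0 < Y ∧ 3 ^ (i + 1) ∣ Y ∧ 3 ^ i * klam^[t] x = 2 ^ i * Y ∧
        th ^ runs x t * Real.log x ≤ Real.log Y) := by
    intro t
    induction t with
    | zero =>
      by_cases hx3 : 3 ∣ x
      · right
        refine ⟨0, x, hx0, by simpa using hx3, by simp, ?_⟩
        simp [runs]
      · left
        refine ⟨by simpa using hx3, ?_⟩
        simp [runs]
    | succ t ih =>
      have hruns : runs x (t + 1) = runs x t + re (klam^[t] x) := by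
        unfold runs; rw [Finset.sum_range_succ]
      rw [Function.iterate_succ_apply', hruns]
      set y := klam^[t] x with hy
      have hy0 : 0 < y := hpos t
      have hf0 : 0 < klam y := klam_pos hy0
      rcases ih with ⟨hd, hle⟩ | ⟨i, Y, hY0, hdvd, heq, hle⟩
      · have hre : re y = 0 := by unfold re; rw [if_neg (fun h => hd h.1)]
        rw [hre, add_zero]
        have hyf : y ≤ klam y := by
          rcases Nat.lt_or_ge y 2 with h | h
          · have : y = 1 := by omega
            rw [this]; decide
          · exact (lt_klam h hd).le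
        have hle' : th ^ runs x t * Real.log x ≤ Real.log (klam y) := by
          refine hle.trans (Real.log_le_log (by exact_mod_cast hy0) (by exact_mod_cast hyf))
        by_cases hf : 3 ∣ klam y
        · right
          exact ⟨0, klam y, hf0, by simpa using hf, by simp, hle'⟩
        · left
          exact ⟨hf, hle'⟩
      · have hd : 3 ∣ y := by
          have h1 : 3 ^ (i + 1) ∣ 2 ^ i * Y := hdvd.mul_left _
          rw [← heq, pow_succ] at h1
          exact Nat.dvd_of_mul_dvd_mul_left (by positivity) h1
        have h3 := klam_of_dvd hd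
        have heq' : 3 ^ (i + 1) * klam y = 2 ^ (i + 1) * Y := by
          calc 3 ^ (i + 1) * klam y = 3 ^ i * (3 * klam y) := by ring
            _ = 2 * (3 ^ i * y) := by rw [h3]; ring
            _ = 2 ^ (i + 1) * Y := by rw [heq]; ring
        by_cases hf : 3 ∣ klam y
        · have hre : re y = 0 := by unfold re; rw [if_neg (fun h => h.2 hf)]
          rw [hre, add_zero]
          right
          refine ⟨i + 1, Y, hY0, ?_, heq', hle⟩
          have h1 : 3 ^ (i + 1 + 1) ∣ 2 ^ (i + 1) * Y := by
            rw [← heq', pow_succ 3 (i + 1)]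
            exact Nat.mul_dvd_mul_left _ hf
          have hcop : Nat.Coprime (3 ^ (i + 1 + 1)) (2 ^ (i + 1)) :=
            Nat.Coprime.pow _ _ (by norm_num)
          exact hcop.dvd_of_dvd_mul_left h1
        · have hre : re y = 1 := by
            unfold re
            rw [if_pos (show 3 ∣ y ∧ ¬ 3 ∣ klam y from ⟨hd, hf⟩)]
          rw [hre]
          left
          refine ⟨hf, ?_⟩
          have h4 := descend hY0 hf0 hdvd heq'
          calc th ^ (runs x t + 1) * Real.log x = th * (th ^ runs x t * Real.log x) := by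
                rw [pow_succ]; ring
            _ ≤ th * Real.log Y := by
                apply mul_le_mul_of_nonneg_left hle th_pos.le
            _ ≤ _ := h4
  rcases inv k with ⟨-, h⟩ | ⟨i, Y, hY0, hdvd, heq, -⟩
  · rwa [hkn] at h
  · exfalso
    apply hn3
    rw [hkn] at heq
    have h1 : 3 ^ (i + 1) ∣ 2 ^ i * Y := hdvd.mul_left _
    rw [← heq, pow_succ] at h1
    exact Nat.dvd_of_mul_dvd_mul_left (by positivity) h1

theorem runs_add (x s t : ℕ) : runs x (s + t) = runs x s + runs (klam^[s] x) t := by
  unfold runs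
  rw [Finset.sum_range_add]
  congr 1
  apply Finset.sum_congr rfl
  intro i _
  rw [← Function.iterate_add_apply, add_comm i s]

/-- Geometric sum `∑_{i=1}^{R} th⁻¹ ^ i`. -/
noncomputable def GS (R : ℕ) : ℝ := ∑ i ∈ range R, (th⁻¹) ^ (i + 1)

theorem GS_succ (R : ℕ) : GS (R + 1) = GS R + (th⁻¹) ^ (R + 1) := by
  unfold GS; rw [Finset.sum_range_succ]

theorem GS_mono {R R' : ℕ} (h : R ≤ R') : GS R ≤ GS R' := by
  unfold GS
  apply Finset.sum_le_sum_of_subset_of_nonneg (Finset.range_mono h)
  intro i _ _
  have := th_pos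
  positivity

/-- Number of descending steps among the first `ℓ` ones. -/
def dsc (x ℓ : ℕ) : ℕ := ∑ t ∈ range ℓ, (if 3 ∣ klam^[t] x then 1 else 0)

theorem dsc_add_asc (x ℓ : ℕ) : dsc x ℓ + asc x ℓ = ℓ := by
  unfold dsc asc
  rw [← Finset.sum_add_distrib]
  have : ∀ t ∈ range ℓ, ((if 3 ∣ klam^[t] x then 1 else 0) + (if 3 ∣ klam^[t] x then 0 else 1)) =
      1 := by
    intro t _; split_ifs <;> rfl
  rw [Finset.sum_congr rfl this]
  simp

theorem dsc_add (x s t : ℕ) : dsc x (s + t) = dsc x s + dsc (klam^[s] x) t := by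
  unfold dsc
  rw [Finset.sum_range_add]
  congr 1
  apply Finset.sum_congr rfl
  intro i _
  rw [← Function.iterate_add_apply, add_comm i s]

/-- The number of descending steps of a path ending at `n` is bounded in terms of the number of
its runs and of `log n`. -/
theorem path_dsc {n : ℕ} (hn3 : ¬ 3 ∣ n) (hn0 : 0 < n) : ∀ (k x : ℕ), 0 < x → klam^[k] x = n →
    (dsc x k : ℝ) ≤ GS (runs x k) * Real.log n / Real.log 3 ∧
    (3 ∣ x → (dsc x k : ℝ) + ((th⁻¹) ^ runs x k * Real.log n / Real.log 3 - padicValNat 3 x) ≤
      GS (runs x k) * Real.log n / Real.log 3) := by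
  have : Fact (Nat.Prime 3) := ⟨Nat.prime_three⟩
  have hl3 : 0 < Real.log 3 := Real.log_pos (by norm_num)
  have hlogn : 0 ≤ Real.log n := Real.log_natCast_nonneg n
  intro k
  induction k with
  | zero =>
    intro x hx h
    have hxn : x = n := by simpa using h
    subst hxn
    refine ⟨?_, fun hd => absurd hd hn3⟩
    simp [dsc, runs, GS]
  | succ k ih =>
    intro x hx h
    have hfx : 0 < klam x := klam_pos hx
    have h' : klam^[k] (klam x) = n := by rwa [Function.iterate_succ_apply] at h
    obtain ⟨ih1, ih2⟩ := ih (klam x) hfx h'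
    have hruns : runs x (k + 1) = re x + runs (klam x) k := by
      rw [add_comm k 1, runs_add]
      simp [runs]
    have hdsc : dsc x (k + 1) = (if 3 ∣ x then 1 else 0) + dsc (klam x) k := by
      rw [add_comm k 1, dsc_add]
      have h1 : dsc x 1 = (if 3 ∣ x then 1 else 0) := by
        unfold dsc; rw [Finset.sum_range_one]; rfl
      rw [h1]
      rfl
    have hval : ∀ (y j : ℕ), 0 < y → klam^[j] y = n →
        (padicValNat 3 y : ℝ) ≤ (th⁻¹) ^ runs y j * Real.log n / Real.log 3 := by
      intro y j hy hyn
      have h1 := path_descend hy hn3 hyn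
      rw [le_div_iff₀ hl3]
      have h2 : (padicValNat 3 y : ℝ) * Real.log 3 ≤ Real.log y := by
        rw [← Real.log_pow]
        apply Real.log_le_log (by positivity)
        exact_mod_cast Nat.le_of_dvd hy pow_padicValNat_dvd
      have h3 : Real.log y ≤ (th⁻¹) ^ runs y j * Real.log n := by
        rw [inv_pow, inv_mul_eq_div, le_div_iff₀ (pow_pos th_pos _), mul_comm]
        exact h1
      exact h2.trans h3
    by_cases hd : 3 ∣ x
    · have hp := padic_klam hx hd
      have hv := hval x (k + 1) hx h
      -- main inequality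
      have main : (dsc x (k + 1) : ℝ) +
          ((th⁻¹) ^ runs x (k + 1) * Real.log n / Real.log 3 - padicValNat 3 x) ≤
          GS (runs x (k + 1)) * Real.log n / Real.log 3 := by
        rw [hdsc, if_pos hd, hp]
        by_cases hf : 3 ∣ klam x
        · have hre : re x = 0 := by unfold re; rw [if_neg (fun h => h.2 hf)]
          rw [hruns, hre, zero_add]
          have := ih2 hf
          push_cast
          linarith
        · have hre : re x = 1 := by
            unfold re
            rw [if_pos (show 3 ∣ x ∧ ¬ 3 ∣ klam x from ⟨hd, hf⟩)]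
          rw [hruns, hre, padicValNat.eq_zero_of_not_dvd hf, add_comm 1 (runs (klam x) k), GS_succ]
          have h4 := ih1
          have h5 : (GS (runs (klam x) k) + th⁻¹ ^ (runs (klam x) k + 1)) * Real.log n /
              Real.log 3 = GS (runs (klam x) k) * Real.log n / Real.log 3 +
              th⁻¹ ^ (runs (klam x) k + 1) * Real.log n / Real.log 3 := by ring
          rw [h5]
          push_cast
          linarith
      refine ⟨?_, fun _ => main⟩
      linarith
    · refine ⟨?_, fun h => absurd h hd⟩
      have hre : re x = 0 := by unfold re; rw [if_neg (fun h => hd h.1)]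
      rw [hdsc, hruns, hre, if_neg hd, zero_add, zero_add]
      exact ih1

theorem path_dsc' {n x k : ℕ} (hn3 : ¬ 3 ∣ n) (hn0 : 0 < n) (hx : 0 < x) (h : klam^[k] x = n) :
    (dsc x k : ℝ) ≤ GS (runs x k) * Real.log n / Real.log 3 := by
  exact (path_dsc hn3 hn0 k x hx h).1

end Pool.Agent.KLA
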