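import Pool.Agent.KLA.Cycle2

/-!
Refined inequalities: near minima (at most `8 n`) and far minima.
-/

open Finset

namespace Pool.Agent.KLA

/-- Run ends whose local minimum exceeds `8 n`. -/
def far (n x : ℕ) : ℕ := if re x = 1 ∧ 8 * n < klam x then 1 else 0

/-- Run ends whose local minimum is at most `8 n`. -/
def nearI (n x : ℕ) : ℕ := if re x = 1 ∧ klam x ≤ 8 * n then 1 else 0

/-- Number of far run ends. -/
def Zs (n x k : ℕ) : ℕ := ∑ t ∈ range k, far n (klam^[t] x)

/-- Number of near run ends. -/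
def Ss (n x k : ℕ) : ℕ := ∑ t ∈ range k, nearI n (klam^[t] x)

theorem re_le_one (x : ℕ) : re x ≤ 1 := by unfold re; split_ifs <;> omega

theorem near_add_far (n x : ℕ) : nearI n x + far n x = re x := by
  unfold nearI far
  have := re_le_one x
  split_ifs <;> omega

theorem Ss_add_Zs (n x k : ℕ) : Ss n x k + Zs n x k = runs x k := by
  unfold Ss Zs runs
  rw [← Finset.sum_add_distrib]
  exact Finset.sum_congr rfl (fun t _ => near_add_far n _)

theorem Zs_add (n x s t : ℕ) : Zs n x (s + t) = Zs n x s + Zs n (klam^[s] x) t := by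
  unfold Zs
  rw [Finset.sum_range_add]
  congr 1
  apply Finset.sum_congr rfl
  intro i _
  rw [← Function.iterate_add_apply, add_comm i s]

theorem Ss_add (n x s t : ℕ) : Ss n x (s + t) = Ss n x s + Ss n (klam^[s] x) t := by
  unfold Ss
  rw [Finset.sum_range_add]
  congr 1
  apply Finset.sum_congr rfl
  intro i _
  rw [← Function.iterate_add_apply, add_comm i s]

theorem iter_pos {x : ℕ} (hx : 0 < x) (t : ℕ) : 0 < klam^[t] x := by
  induction t with
  | zero => simpa using hx
  | succ t ih => rw [Function.iterate_succ_apply']; exact klam_pos ih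

/-- The first run end. -/
theorem first_run (x : ℕ) : ∀ k, runs x k = 0 ∨ ∃ j < k, runs x j = 0 ∧ re (klam^[j] x) = 1 := by
  intro k
  induction k with
  | zero => left; simp [runs]
  | succ k ih =>
    rcases ih with h | ⟨j, hj, h⟩
    · have h1 := re_le_one (klam^[k] x)
      rcases Nat.lt_or_ge (re (klam^[k] x)) 1 with h2 | h2
      · left
        unfold runs at h ⊢
        rw [Finset.sum_range_succ, h]
        omega
      · right
        exact ⟨k, by omega, h, by omega⟩
    · right
      exact ⟨j, by omega, h⟩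

theorem dsc_zero {x : ℕ} : ∀ k, runs x k = 0 → ¬ 3 ∣ klam^[k] x → dsc x k = 0 := by
  intro k
  induction k with
  | zero => intro _ _; simp [dsc]
  | succ k ih =>
    intro hr hd
    have hr1 : runs x (k + 1) = runs x k + re (klam^[k] x) := by
      unfold runs; rw [Finset.sum_range_succ]
    have hd1 : dsc x (k + 1) = dsc x k + (if 3 ∣ klam^[k] x then 1 else 0) := by
      unfold dsc; rw [Finset.sum_range_succ]
    rw [Function.iterate_succ_apply'] at hd
    have h3 : ¬ 3 ∣ klam^[k] x := by
      intro h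
      have : re (klam^[k] x) = 1 := by
        unfold re
        rw [if_pos (show 3 ∣ klam^[k] x ∧ ¬ 3 ∣ klam (klam^[k] x) from ⟨h, hd⟩)]
      omega
    rw [hd1, if_neg h3, ih (by omega) h3]

theorem dsc_dvd {x : ℕ} : ∀ k, runs x k = 0 → 3 ∣ klam^[k] x →
    2 ^ dsc x k ∣ klam^[k] x := by
  intro k
  induction k with
  | zero => intro _ _; simp [dsc]
  | succ k ih =>
    intro hr _
    have hr1 : runs x (k + 1) = runs x k + re (klam^[k] x) := by
      unfold runs; rw [Finset.sum_range_succ]
    have hd1 : dsc x (k + 1) = dsc x k + (if 3 ∣ klam^[k] x then 1 else 0) := by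
      unfold dsc; rw [Finset.sum_range_succ]
    rw [Function.iterate_succ_apply', hd1]
    by_cases h : 3 ∣ klam^[k] x
    · have h1 := ih (by omega) h
      have h2 := klam_of_dvd h
      rw [if_pos h]
      have h4 : 2 ^ (dsc x k + 1) ∣ 3 * klam (klam^[k] x) := by
        rw [h2, pow_succ, mul_comm]
        exact Nat.mul_dvd_mul_left 2 h1
      exact (Nat.Coprime.pow_left _ (by norm_num : Nat.Coprime 2 3)).dvd_of_dvd_mul_left h4
    · rw [if_neg h, dsc_zero k (by omega) h]
      simp

theorem seg_dsc {x j : ℕ} (hx : 0 < x) (hr : runs x j = 0) (he : re (klam^[j] x) = 1) :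
    (dsc x (j + 1) : ℝ) * Real.log 2 ≤ Real.log (klam^[j + 1] x : ℕ) := by
  have h3 : 3 ∣ klam^[j] x := by
    by_contra h
    have : re (klam^[j] x) = 0 := by unfold re; rw [if_neg (fun h' => h h'.1)]
    omega
  have h1 := dsc_dvd j hr h3
  have hd1 : dsc x (j + 1) = dsc x j + 1 := by
    unfold dsc; rw [Finset.sum_range_succ, if_pos h3]
  have h2 := klam_of_dvd h3
  have h4 : 2 ^ (dsc x j + 1) ∣ 3 * klam (klam^[j] x) := by
    rw [h2, pow_succ, mul_comm]
    exact Nat.mul_dvd_mul_left 2 h1
  have h5 : 2 ^ (dsc x j + 1) ∣ klam (klam^[j] x) :=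
    (Nat.Coprime.pow_left _ (by norm_num : Nat.Coprime 2 3)).dvd_of_dvd_mul_left h4
  have h6 := Nat.le_of_dvd (klam_pos (iter_pos hx j)) h5
  rw [hd1, ← Real.log_pow, Function.iterate_succ_apply']
  apply Real.log_le_log (by positivity)
  exact_mod_cast h6

theorem not_dvd_of_re {x : ℕ} (h : re x = 1) : ¬ 3 ∣ klam x := by
  intro h3
  have : re x = 0 := by unfold re; rw [if_neg (fun h' => h'.2 h3)]
  omega

/-- Bounds for a path ending at `n`. -/
theorem path_refined {n : ℕ} (hn3 : ¬ 3 ∣ n) (hn0 : 0 < n) : ∀ (k x : ℕ), 0 < x →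
    klam^[k] x = n →
    th ^ (Zs n x k + 1) * Real.log x ≤ Real.log ((8 * n : ℕ) : ℝ) ∧
    (dsc x k : ℝ) * Real.log 2 ≤
      Real.log ((8 * n : ℕ) : ℝ) * ((Ss n x k : ℝ) + GS (Zs n x k)) := by
  have hth := th_pos
  have hth1 := th_lt_one
  have hn0' : (0 : ℝ) < n := by exact_mod_cast hn0
  have hl8 : Real.log n ≤ Real.log ((8 * n : ℕ) : ℝ) := by
    apply Real.log_le_log hn0'
    push_cast; linarith
  have hl0 : 0 ≤ Real.log ((8 * n : ℕ) : ℝ) := Real.log_natCast_nonneg _
  intro k
  induction k using Nat.strong_induction_on with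
  | _ k ih =>
  intro x hx hxn
  have hlx : 0 ≤ Real.log x := Real.log_natCast_nonneg x
  rcases first_run x k with h0 | ⟨j, hjk, hr, he⟩
  · have hZ : Zs n x k = 0 := by have := Ss_add_Zs n x k; omega
    have hS : Ss n x k = 0 := by have := Ss_add_Zs n x k; omega
    have h1 := path_descend hx hn3 hxn
    rw [h0, pow_zero, one_mul] at h1
    constructor
    · rw [hZ, zero_add, pow_one]
      nlinarith
    · rw [dsc_zero k h0 (by rw [hxn]; exact hn3), hZ, hS]
      simp only [Nat.cast_zero, zero_mul, zero_add]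
      have : GS 0 = 0 := by simp [GS]
      rw [this, mul_zero]
  · set v := klam^[j + 1] x with hv
    have hv0 : 0 < v := iter_pos hx _
    have hv3 : ¬ 3 ∣ v := by
      rw [hv, Function.iterate_succ_apply']; exact not_dvd_of_re he
    have hvk : klam^[k - (j + 1)] v = n := by
      rw [hv, ← Function.iterate_add_apply]
      have : k - (j + 1) + (j + 1) = k := by omega
      rw [this]; exact hxn
    obtain ⟨ih1, ih2⟩ := ih (k - (j + 1)) (by omega) v hv0 hvk
    have hk : k = (j + 1) + (k - (j + 1)) := by omega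
    have hruns1 : runs x (j + 1) = 1 := by
      unfold runs at hr ⊢
      rw [Finset.sum_range_succ, hr, he]
    have hdesc := path_descend (n := v) hx hv3 (k := j + 1) rfl
    rw [hruns1, pow_one] at hdesc
    have hZk : Zs n x k = Zs n x (j + 1) + Zs n v (k - (j + 1)) := by
      conv_lhs => rw [hk]
      rw [Zs_add]
    have hSk : Ss n x k = Ss n x (j + 1) + Ss n v (k - (j + 1)) := by
      conv_lhs => rw [hk]
      rw [Ss_add]
    have hdk : dsc x k = dsc x (j + 1) + dsc v (k - (j + 1)) := by
      conv_lhs => rw [hk]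
      rw [dsc_add]
    have hZj : Zs n x j = 0 := by have := Ss_add_Zs n x j; omega
    have hSj : Ss n x j = 0 := by have := Ss_add_Zs n x j; omega
    have hvv : klam (klam^[j] x) = v := by rw [hv, Function.iterate_succ_apply']
    have hseg := seg_dsc hx hr he
    rw [← hv] at hseg
    by_cases hfar : 8 * n < v
    · have hZ1 : Zs n x (j + 1) = 1 := by
        unfold Zs at hZj ⊢
        rw [Finset.sum_range_succ, hZj]
        unfold far
        rw [hvv, if_pos ⟨he, hfar⟩]
      have hS1 : Ss n x (j + 1) = 0 := by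
        have := Ss_add_Zs n x (j + 1); omega
      set Zv := Zs n v (k - (j + 1)) with hZv
      have hlv : 0 ≤ Real.log v := Real.log_natCast_nonneg v
      constructor
      · rw [hZk, hZ1]
        calc th ^ (1 + Zv + 1) * Real.log x = th ^ (Zv + 1) * (th * Real.log x) := by
              rw [show 1 + Zv + 1 = (Zv + 1) + 1 by ring, pow_succ]; ring
          _ ≤ th ^ (Zv + 1) * Real.log v := by gcongr
          _ ≤ _ := ih1
      · rw [hZk, hZ1, hSk, hS1, hdk, zero_add, add_comm 1 Zv, GS_succ]
        have h7 : Real.log v ≤ th⁻¹ ^ (Zv + 1) * Real.log ((8 * n : ℕ) : ℝ) := by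
          rw [inv_pow, inv_mul_eq_div, le_div_iff₀ (pow_pos hth _), mul_comm]
          exact ih1
        have h8 : ((dsc x (j + 1) + dsc v (k - (j + 1)) : ℕ) : ℝ) * Real.log 2 =
            (dsc x (j + 1) : ℝ) * Real.log 2 + (dsc v (k - (j + 1)) : ℝ) * Real.log 2 := by
          push_cast; ring
        rw [h8]
        have h9 : Real.log ((8 * n : ℕ) : ℝ) * ((Ss n v (k - (j + 1)) : ℝ) +
            (GS Zv + th⁻¹ ^ (Zv + 1))) =
            Real.log ((8 * n : ℕ) : ℝ) * ((Ss n v (k - (j + 1)) : ℝ) + GS Zv) +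
            th⁻¹ ^ (Zv + 1) * Real.log ((8 * n : ℕ) : ℝ) := by ring
        rw [h9]
        linarith
    · have hS1 : Ss n x (j + 1) = 1 := by
        unfold Ss at hSj ⊢
        rw [Finset.sum_range_succ, hSj]
        unfold nearI
        rw [hvv, if_pos ⟨he, by omega⟩]
      have hZ1 : Zs n x (j + 1) = 0 := by
        have := Ss_add_Zs n x (j + 1); omega
      have hlv : Real.log v ≤ Real.log ((8 * n : ℕ) : ℝ) := by
        apply Real.log_le_log (by exact_mod_cast hv0)
        exact_mod_cast Nat.le_of_not_lt hfar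
      set Zv := Zs n v (k - (j + 1)) with hZv
      constructor
      · rw [hZk, hZ1, zero_add]
        calc th ^ (Zv + 1) * Real.log x = th ^ Zv * (th * Real.log x) := by rw [pow_succ]; ring
          _ ≤ 1 * (th * Real.log x) := by
              gcongr
              exact pow_le_one₀ hth.le hth1.le
          _ = th * Real.log x := one_mul _
          _ ≤ Real.log v := hdesc
          _ ≤ _ := hlv
      · rw [hZk, hZ1, hSk, hS1, hdk, zero_add]
        have h8 : ((dsc x (j + 1) + dsc v (k - (j + 1)) : ℕ) : ℝ) * Real.log 2 =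
            (dsc x (j + 1) : ℝ) * Real.log 2 + (dsc v (k - (j + 1)) : ℝ) * Real.log 2 := by
          push_cast; ring
        rw [h8]
        have h9 : Real.log ((8 * n : ℕ) : ℝ) * (((1 + Ss n v (k - (j + 1)) : ℕ) : ℝ) +
            GS Zv) =
            Real.log ((8 * n : ℕ) : ℝ) * ((Ss n v (k - (j + 1)) : ℝ) + GS Zv) +
            Real.log ((8 * n : ℕ) : ℝ) := by push_cast; ring
        rw [h9]
        linarith

end Pool.Agent.KLA
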