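import Pool.Agent.KLA.Step

/-!
An explicit (weak) lower bound for the linear form `K log 2 - L log 3`:
`|K log 2 - L log 3| > 2 ^ (- 2 ^ 26 e ^ 4)` as soon as `2 ^ 18 e ^ 2 L ≤ 2 ^ e`
(so `e` may be taken of size `2 log L`), by Siegel's lemma and extrapolation
(the method of Gelfond and Schneider over the reals).
-/

open Polynomial Finset

namespace Pool.Agent.KLA

theorem exp_node {K L : ℕ} (hL : 0 < L) (r s : ℕ) :
    Real.exp (Real.log 2 / L * ((r * L + s * K : ℕ) : ℝ)) =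
      (2 ^ r * 3 ^ s : ℝ) * Real.exp (s * (K * Real.log 2 - L * Real.log 3) / L) := by
  have hL' : (L : ℝ) ≠ 0 := by positivity
  have h2 : (2 : ℝ) ^ r = Real.exp (r * Real.log 2) := by
    rw [← Real.log_pow, Real.exp_log (by positivity)]
  have h3 : (3 : ℝ) ^ s = Real.exp (s * Real.log 3) := by
    rw [← Real.log_pow, Real.exp_log (by positivity)]
  rw [h2, h3, ← Real.exp_add, ← Real.exp_add]
  congr 1
  push_cast
  field_simp
  ring

theorem EJ_zero (I J : ℕ) (p : ℕ → ℕ → ℤ) (lam x : ℝ) :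
    EJ I J p lam 0 x = ∑ j ∈ range J, eval x (PJ I p j) * Real.exp (j * lam * x) := by
  simp [EJ]

theorem FJ_eq (I J : ℕ) (p : ℕ → ℕ → ℤ) (K L r s : ℕ) :
    ((FJ I J p K L r s : ℤ) : ℝ) =
      ∑ j ∈ range J, eval (((r * L + s * K : ℕ) : ℝ)) (PJ I p j) * (2 ^ r * 3 ^ s : ℝ) ^ j := by
  unfold FJ PJ
  push_cast
  apply Finset.sum_congr rfl
  intro j _
  rw [eval_finsetSum, Finset.sum_mul]
  apply Finset.sum_congr rfl
  intro i _
  simp

theorem near {I J : ℕ} {p : ℕ → ℕ → ℤ} {K L : ℕ} (hL : 0 < L) {H X Y : ℝ} {S : ℕ}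
    (hp : ∀ i < I, ∀ j < J, |(p i j : ℝ)| ≤ H) (hH : 0 ≤ H) (hX : 1 ≤ X)
    (r s : ℕ) (hs : s ≤ S) (hn : ((r * L + s * K : ℕ) : ℝ) ≤ X)
    (hY : (2 ^ r * 3 ^ s : ℝ) ≤ Y)
    (hsmall : (J : ℝ) * S * |K * Real.log 2 - L * Real.log 3| ≤ 1) :
    |EJ I J p (Real.log 2 / L) 0 ((r * L + s * K : ℕ) : ℝ) - (FJ I J p K L r s : ℝ)| ≤
      J * (I * H * X ^ I * Y ^ J * (2 * (J * S * |K * Real.log 2 - L * Real.log 3|))) := by
  have hL' : (1 : ℝ) ≤ L := by exact_mod_cast hL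
  have hY1 : (1 : ℝ) ≤ Y := by
    refine le_trans ?_ hY
    have h1 : (1 : ℝ) ≤ 2 ^ r := one_le_pow₀ (by norm_num)
    have h2 : (1 : ℝ) ≤ 3 ^ s := one_le_pow₀ (by norm_num)
    nlinarith
  set n : ℝ := ((r * L + s * K : ℕ) : ℝ) with hndef
  set Lam : ℝ := K * Real.log 2 - L * Real.log 3 with hLam
  rw [EJ_zero, FJ_eq, ← Finset.sum_sub_distrib]
  refine (Finset.abs_sum_le_sum_abs _ _).trans ?_
  have key : ∀ j ∈ range J, |eval n (PJ I p j) * Real.exp (j * (Real.log 2 / L) * n) -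
      eval n (PJ I p j) * (2 ^ r * 3 ^ s : ℝ) ^ j| ≤
      I * H * X ^ I * Y ^ J * (2 * (J * S * |Lam|)) := by
    intro j hj
    have hj' := Finset.mem_range.mp hj
    have hjJ : (j : ℝ) ≤ J := by exact_mod_cast hj'.le
    have hsS : (s : ℝ) ≤ S := by exact_mod_cast hs
    have h1 : |eval n (PJ I p j)| ≤ I * H * X ^ I := by
      have := PJ_eval_T_bound (c := 0) (fun i hi => hp i hi j hj') hH le_rfl hX
        (x := n) (Nat.cast_nonneg _) hn 0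
      simpa using this
    have h2 : Real.exp (j * (Real.log 2 / L) * n) =
        (2 ^ r * 3 ^ s : ℝ) ^ j * Real.exp (j * (s * Lam / L)) := by
      have e1 : (j : ℝ) * (Real.log 2 / L) * n = j * (Real.log 2 / L * n) := by ring
      rw [e1, Real.exp_nat_mul, exp_node hL r s, mul_pow, ← Real.exp_nat_mul]
    have h3 : |(j : ℝ) * (s * Lam / L)| ≤ J * S * |Lam| := by
      rw [abs_mul, abs_div, abs_mul, Nat.abs_cast, Nat.abs_cast, Nat.abs_cast]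
      calc (j : ℝ) * (s * |Lam| / L) ≤ J * (S * |Lam| / 1) := by gcongr
        _ = J * S * |Lam| := by ring
    have h4 := Real.abs_exp_sub_one_le (h3.trans hsmall)
    have e2 : eval n (PJ I p j) * Real.exp (j * (Real.log 2 / L) * n) -
        eval n (PJ I p j) * (2 ^ r * 3 ^ s : ℝ) ^ j =
        eval n (PJ I p j) * (2 ^ r * 3 ^ s : ℝ) ^ j * (Real.exp (j * (s * Lam / L)) - 1) := by
      rw [h2]; ring
    rw [e2, abs_mul, abs_mul]
    have h5 : |(2 ^ r * 3 ^ s : ℝ) ^ j| ≤ Y ^ J := by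
      rw [abs_of_nonneg (by positivity)]
      calc (2 ^ r * 3 ^ s : ℝ) ^ j ≤ Y ^ j := by gcongr
        _ ≤ Y ^ J := by gcongr
    calc |eval n (PJ I p j)| * |(2 ^ r * 3 ^ s : ℝ) ^ j| * |Real.exp (j * (s * Lam / L)) - 1|
        ≤ (I * H * X ^ I) * Y ^ J * (2 * (J * S * |Lam|)) := by
          gcongr
          exact h4.trans (by gcongr)
      _ = _ := by ring
  refine (Finset.sum_le_sum key).trans ?_
  rw [Finset.sum_const, Finset.card_range, nsmul_eq_mul]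

theorem node_inj {K L S : ℕ} (hcop : Nat.Coprime K L) (hL : 0 < L) (hS : S ≤ L)
    {r s r' s' : ℕ} (hs : s < S) (hs' : s' < S) (h : r * L + s * K = r' * L + s' * K) :
    r = r' ∧ s = s' := by
  have h1 : s * K ≡ s' * K [MOD L] := by
    have e1 : r * L + s * K ≡ s * K [MOD L] := by
      simp [Nat.ModEq, Nat.add_mod]
    have e2 : r' * L + s' * K ≡ s' * K [MOD L] := by
      simp [Nat.ModEq, Nat.add_mod]
    exact e1.symm.trans ((h ▸ Nat.ModEq.refl _ : r * L + s * K ≡ r' * L + s' * K [MOD L]).trans e2)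
  have h2 : s ≡ s' [MOD L] := Nat.ModEq.cancel_right_of_coprime (by
    rw [Nat.coprime_comm] at hcop; exact hcop) h1
  have h3 : s = s' := by
    have := h2
    rw [Nat.ModEq, Nat.mod_eq_of_lt (by omega), Nat.mod_eq_of_lt (by omega)] at this
    exact this
  subst h3
  refine ⟨?_, rfl⟩
  have : r * L = r' * L := by omega
  exact Nat.eq_of_mul_eq_mul_right hL this

attribute [local instance] Matrix.seminormedAddCommGroup

open Matrix in
theorem siegel {I J S B : ℕ} {K L : ℕ} (hS : 0 < S) (hIJ : I * J = 2 * (S * S))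
    (hB : ∀ r < S, ∀ s < S, ∀ i < I, ∀ j < J,
      (r * L + s * K) ^ i * (2 ^ r * 3 ^ s) ^ j ≤ B) (hB1 : 1 ≤ B) :
    ∃ p : ℕ → ℕ → ℤ, (∀ i < I, ∀ j < J, |(p i j : ℝ)| ≤ (I * J : ℕ) * B) ∧
      (∃ i < I, ∃ j < J, p i j ≠ 0) ∧ ∀ r < S, ∀ s < S, FJ I J p K L r s = 0 := by
  classical
  let A : Matrix (Fin S × Fin S) (Fin I × Fin J) ℤ := fun a b =>
    (((a.1 : ℕ) * L + (a.2 : ℕ) * K : ℕ) : ℤ) ^ (b.1 : ℕ) *
      ((2 ^ (a.1 : ℕ) * 3 ^ (a.2 : ℕ) : ℕ) : ℤ) ^ (b.2 : ℕ)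
  have hcα : Fintype.card (Fin S × Fin S) = S * S := by simp
  have hcβ : Fintype.card (Fin I × Fin J) = I * J := by simp
  have hSS : 0 < S * S := by positivity
  obtain ⟨t, ht0, htA, htn⟩ := Int.Matrix.exists_ne_zero_int_vec_norm_le A
    (by rw [hcα, hcβ, hIJ]; omega) (by rw [hcα]; exact hSS)
  have hA : ‖A‖ ≤ (B : ℝ) := by
    rw [Matrix.norm_le_iff (by positivity)]
    intro a b
    rw [Int.norm_eq_abs]
    have h1 := hB a.1 a.1.2 a.2 a.2.2 b.1 b.1.2 b.2 b.2.2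
    have h2 : |((A a b : ℤ) : ℝ)| = (((a.1 : ℕ) * L + (a.2 : ℕ) * K) ^ (b.1 : ℕ) *
        (2 ^ (a.1 : ℕ) * 3 ^ (a.2 : ℕ)) ^ (b.2 : ℕ) : ℕ) := by
      rw [abs_of_nonneg]
      · simp [A]
      · simp only [A]; positivity
    rw [h2]
    exact_mod_cast h1
  have htn' : ‖t‖ ≤ ((I * J : ℕ) : ℝ) * B := by
    refine htn.trans ?_
    rw [hcα, hcβ]
    have e1 : ((S * S : ℕ) : ℝ) / (((I * J : ℕ) : ℝ) - ((S * S : ℕ) : ℝ)) = 1 := by
      rw [hIJ]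
      push_cast
      have : (2 : ℝ) * (S * S) - S * S = S * S := by ring
      rw [this]
      have : (0 : ℝ) < (S : ℝ) * S := by exact_mod_cast hSS
      exact div_self this.ne'
    rw [e1, Real.rpow_one]
    gcongr
    exact max_le (by exact_mod_cast hB1) hA
  have htb : ∀ b, |(t b : ℝ)| ≤ ((I * J : ℕ) : ℝ) * B := by
    intro b
    have h1 := norm_le_pi_norm t b
    rw [Int.norm_eq_abs] at h1
    exact h1.trans htn'
  refine ⟨fun i j => if h : i < I ∧ j < J then t (⟨i, h.1⟩, ⟨j, h.2⟩) else 0, ?_, ?_, ?_⟩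
  · intro i hi j hj
    simp only [hi, hj, and_self, dite_true]
    exact htb _
  · by_contra hcon
    push Not at hcon
    apply ht0
    funext b
    obtain ⟨⟨i, hi⟩, ⟨j, hj⟩⟩ := b
    have := hcon i hi j hj
    simpa [hi, hj] using this
  · intro r hr s hs
    have h1 := congrFun htA (⟨r, hr⟩, ⟨s, hs⟩)
    rw [Matrix.mulVec, dotProduct, Fintype.sum_prod_type] at h1
    unfold FJ
    rw [Finset.sum_comm, Finset.sum_range]
    simp only [Finset.sum_range]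
    simp only [A, Pi.zero_apply] at h1
    rw [← h1]
    apply Finset.sum_congr rfl
    intro i _
    apply Finset.sum_congr rfl
    intro j _
    simp only [i.2, j.2, and_self, dite_true, Fin.eta]
    ring

/-- Main term of the extrapolation step. -/
theorem main_term {e R L : ℕ} (he : 8 ≤ e) (hSR : 256 * e ≤ R)
    (hX : L * (R + 2 * (256 * e)) ≤ 2 ^ e) {lam : ℝ}
    (hlam : lam = Real.log 2 / L) (hL : 0 < L) (hN : 2 ^ 17 * e ^ 2 ≤ 2 ^ e) :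
    ((8 * e : ℕ) : ℝ) * ((2 ^ 14 * e : ℕ) : ℝ) * (2 ^ (e + e * (2 ^ 14 * e) + 3 * (256 * e) * (8 * e)) : ℝ) *
      ((L * (R + 2 * (256 * e)) : ℕ) : ℝ) ^ (2 ^ 14 * e) *
      Real.exp (((8 * e : ℕ) : ℝ) * lam * ((L * (R + 2 * (256 * e)) : ℕ) : ℝ)) *
      ((((8 * e : ℕ) : ℝ) * lam * ((L * (R + 2 * (256 * e)) : ℕ) : ℝ) + ((2 ^ 14 * e : ℕ) : ℝ)) ^
        (R * (256 * e)) / ((R * (256 * e)).factorial : ℝ)) ≤ 1 / 4 := by
  set T : ℕ := R + 2 * (256 * e) with hT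
  set M : ℕ := R * (256 * e) with hM
  have hR0 : 0 < R := by omega
  have hL' : (L : ℝ) ≠ 0 := by positivity
  have hT3 : T ≤ 3 * R := by omega
  have hlamX : lam * ((L * T : ℕ) : ℝ) = Real.log 2 * T := by
    rw [hlam]; push_cast; field_simp
  have hJlX : ((8 * e : ℕ) : ℝ) * lam * ((L * T : ℕ) : ℝ) = ((8 * e * T : ℕ) : ℝ) * Real.log 2 := by
    rw [mul_assoc, hlamX]; push_cast; ring
  have hexp : Real.exp (((8 * e : ℕ) : ℝ) * lam * ((L * T : ℕ) : ℝ)) = 2 ^ (8 * e * T) := by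
    rw [hJlX, ← Real.log_pow, Real.exp_log (by positivity)]
  have hlog2 : Real.log 2 ≤ 1 := by
    have := Real.log_two_lt_d9; linarith
  have hlog0 : 0 ≤ Real.log 2 := Real.log_nonneg (by norm_num)
  -- the argument of the power
  have hu : ((8 * e : ℕ) : ℝ) * lam * ((L * T : ℕ) : ℝ) + ((2 ^ 14 * e : ℕ) : ℝ) ≤ (M : ℝ) / 8 := by
    rw [hJlX]
    have h1 : ((8 * e * T : ℕ) : ℝ) * Real.log 2 ≤ ((8 * e * (3 * R) : ℕ) : ℝ) * 1 := by
      gcongr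
    have h2 : ((2 ^ 14 * e : ℕ) : ℝ) ≤ ((8 * e * R : ℕ) : ℝ) := by
      have : 2 ^ 14 * e ≤ 8 * e * R := by
        have h3 : 256 * 8 ≤ R := by omega
        nlinarith
      exact_mod_cast this
    have h3 : (M : ℝ) / 8 = ((8 * e * (3 * R) : ℕ) : ℝ) * 1 + ((8 * e * R : ℕ) : ℝ) := by
      rw [hM]; push_cast; ring
    rw [h3]
    exact add_le_add h1 h2
  have hu0 : 0 ≤ ((8 * e : ℕ) : ℝ) * lam * ((L * T : ℕ) : ℝ) + ((2 ^ 14 * e : ℕ) : ℝ) := by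
    rw [hJlX]; positivity
  have hpow : (((8 * e : ℕ) : ℝ) * lam * ((L * T : ℕ) : ℝ) + ((2 ^ 14 * e : ℕ) : ℝ)) ^ M /
      (M.factorial : ℝ) ≤ (1 / 2) ^ M := by
    calc _ ≤ ((M : ℝ) / 8) ^ M / (M.factorial : ℝ) := by gcongr
      _ = (1 / 8) ^ M * ((M : ℝ) ^ M / (M.factorial : ℝ)) := by
          rw [div_pow, one_div, inv_pow]; ring
      _ ≤ (1 / 8) ^ M * Real.exp M := by
          gcongr
          exact Real.pow_div_factorial_le_exp _ (Nat.cast_nonneg _) _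
      _ = (1 / 8 * Real.exp 1) ^ M := by
          rw [mul_pow, ← Real.exp_nat_mul, mul_one]
      _ ≤ (1 / 2) ^ M := by
          gcongr
          have := Real.exp_one_lt_d9
          linarith
  have hXI : ((L * T : ℕ) : ℝ) ^ (2 ^ 14 * e) ≤ 2 ^ (e * (2 ^ 14 * e)) := by
    rw [pow_mul (2 : ℝ) e]
    gcongr
    exact_mod_cast hX
  have hIJ : ((8 * e : ℕ) : ℝ) * ((2 ^ 14 * e : ℕ) : ℝ) ≤ 2 ^ e := by
    have : (8 * e) * (2 ^ 14 * e) ≤ 2 ^ e := by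
      calc (8 * e) * (2 ^ 14 * e) = 2 ^ 17 * e ^ 2 := by ring
        _ ≤ _ := hN
    exact_mod_cast this
  rw [hexp]
  calc ((8 * e : ℕ) : ℝ) * ((2 ^ 14 * e : ℕ) : ℝ) *
        (2 ^ (e + e * (2 ^ 14 * e) + 3 * (256 * e) * (8 * e)) : ℝ) *
        ((L * T : ℕ) : ℝ) ^ (2 ^ 14 * e) * 2 ^ (8 * e * T) *
        ((((8 * e : ℕ) : ℝ) * lam * ((L * T : ℕ) : ℝ) + ((2 ^ 14 * e : ℕ) : ℝ)) ^ M /
          (M.factorial : ℝ))
      ≤ 2 ^ e * (2 ^ (e + e * (2 ^ 14 * e) + 3 * (256 * e) * (8 * e)) : ℝ) *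
        2 ^ (e * (2 ^ 14 * e)) * 2 ^ (8 * e * T) * (1 / 2) ^ M := by
        gcongr
    _ = 2 ^ (e + (e + e * (2 ^ 14 * e) + 3 * (256 * e) * (8 * e)) + e * (2 ^ 14 * e) + 8 * e * T) /
          2 ^ M := by
        rw [pow_add, pow_add, pow_add, one_div, inv_pow]
        ring
    _ ≤ 1 / 4 := by
        rw [div_le_div_iff₀ (by positivity) (by norm_num), one_mul]
        have h4 : (4 : ℝ) = 2 ^ 2 := by norm_num
        rw [h4, ← pow_add]
        apply pow_le_pow_right₀ (by norm_num)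
        have a1 : e * (2 ^ 14 * e) ≤ 64 * (e * R) := by nlinarith
        have a2 : 3 * (256 * e) * (8 * e) ≤ 24 * (e * R) := by nlinarith
        have a3 : 8 * e * T ≤ 24 * (e * R) := by nlinarith
        have a4 : M = 256 * (e * R) := by rw [hM]; ring
        have a5 : e ≤ e * R := Nat.le_mul_of_pos_right _ hR0
        have a6 : 8 ≤ e * R := he.trans a5
        rw [a4]
        generalize e * (2 ^ 14 * e) = A at *
        generalize 3 * (256 * e) * (8 * e) = B at *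
        generalize 8 * e * T = C at *
        generalize e * R = D at *
        omega

/-- Perturbation term of the extrapolation step. -/
theorem near_term {e R L : ℕ} (he : 8 ≤ e) (hSR : 256 * e ≤ R) (hRN : R < 2 ^ 17 * e ^ 2)
    (hX1 : 1 ≤ L * (R + 2 * (256 * e))) (hX : L * (R + 2 * (256 * e)) ≤ 2 ^ e)
    (hN : 2 ^ 17 * e ^ 2 ≤ 2 ^ e) {Lam : ℝ} (hLam : Lam ≤ 1 / 2 ^ (2 ^ 26 * e ^ 4))
    (hLam0 : 0 ≤ Lam) {eps : ℝ}
    (heps : eps = ((8 * e : ℕ) : ℝ) * (((2 ^ 14 * e : ℕ) : ℝ) *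
        (2 ^ (e + e * (2 ^ 14 * e) + 3 * (256 * e) * (8 * e)) : ℝ) *
        ((L * (R + 2 * (256 * e)) : ℕ) : ℝ) ^ (2 ^ 14 * e) *
        ((2 : ℝ) ^ (R + 2 * (256 * e))) ^ (8 * e) *
        (2 * (((8 * e : ℕ) : ℝ) * ((256 * e : ℕ) : ℝ) * Lam)))) :
    ((R * (256 * e) : ℕ) : ℝ) * ((L * (R + 2 * (256 * e)) : ℕ) : ℝ) ^ (R * (256 * e)) * eps + eps
      ≤ 1 / 4 := by
  set T : ℕ := R + 2 * (256 * e) with hT
  set M : ℕ := R * (256 * e) with hM
  have hR0 : 0 < R := by omega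
  have hT3 : T ≤ 3 * R := by omega
  have hXI : ((L * T : ℕ) : ℝ) ^ (2 ^ 14 * e) ≤ 2 ^ (e * (2 ^ 14 * e)) := by
    rw [pow_mul (2 : ℝ) e]
    gcongr
    exact_mod_cast hX
  have hXM : ((L * T : ℕ) : ℝ) ^ M ≤ 2 ^ (e * M) := by
    rw [pow_mul (2 : ℝ) e]
    gcongr
    exact_mod_cast hX
  have hIJ : ((8 * e : ℕ) : ℝ) * ((2 ^ 14 * e : ℕ) : ℝ) ≤ 2 ^ e := by
    have : (8 * e) * (2 ^ 14 * e) ≤ 2 ^ e := by
      calc (8 * e) * (2 ^ 14 * e) = 2 ^ 17 * e ^ 2 := by ring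
        _ ≤ _ := hN
    exact_mod_cast this
  have hJS : 2 * (((8 * e : ℕ) : ℝ) * ((256 * e : ℕ) : ℝ)) ≤ 2 ^ e := by
    have : 2 * ((8 * e) * (256 * e)) ≤ 2 ^ e := by
      calc 2 * ((8 * e) * (256 * e)) = 2 ^ 12 * e ^ 2 := by ring
        _ ≤ 2 ^ 17 * e ^ 2 := by gcongr <;> norm_num
        _ ≤ _ := hN
    exact_mod_cast this
  set Q : ℕ := e + (e + e * (2 ^ 14 * e) + 3 * (256 * e) * (8 * e)) + e * (2 ^ 14 * e) +
    T * (8 * e) + e with hQ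
  have heps' : eps ≤ 2 ^ Q * Lam := by
    rw [heps]
    calc _ = (((8 * e : ℕ) : ℝ) * ((2 ^ 14 * e : ℕ) : ℝ)) *
        (2 ^ (e + e * (2 ^ 14 * e) + 3 * (256 * e) * (8 * e)) : ℝ) *
        ((L * T : ℕ) : ℝ) ^ (2 ^ 14 * e) * ((2 : ℝ) ^ T) ^ (8 * e) *
        (2 * (((8 * e : ℕ) : ℝ) * ((256 * e : ℕ) : ℝ))) * Lam := by ring
      _ ≤ 2 ^ e * (2 ^ (e + e * (2 ^ 14 * e) + 3 * (256 * e) * (8 * e)) : ℝ) *
        2 ^ (e * (2 ^ 14 * e)) * ((2 : ℝ) ^ T) ^ (8 * e) * 2 ^ e * Lam := by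
        gcongr
      _ = 2 ^ Q * Lam := by
        rw [← pow_mul (2 : ℝ) T, ← pow_add, ← pow_add, ← pow_add, ← pow_add]
  have heps0 : 0 ≤ eps := by rw [heps]; positivity
  have hM1 : (M : ℝ) * ((L * T : ℕ) : ℝ) ^ M + 1 ≤ 2 ^ M * 2 ^ (e * M) := by
    have h1 : (M : ℝ) + 1 ≤ 2 ^ M := by
      have := Nat.lt_two_pow_self (n := M)
      exact_mod_cast this
    have h2 : (1 : ℝ) ≤ ((L * T : ℕ) : ℝ) ^ M := by
      apply one_le_pow₀
      exact_mod_cast hX1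
    calc (M : ℝ) * ((L * T : ℕ) : ℝ) ^ M + 1 ≤ (M + 1) * ((L * T : ℕ) : ℝ) ^ M := by linarith
      _ ≤ 2 ^ M * 2 ^ (e * M) := by gcongr
  have htot : (M : ℝ) * ((L * T : ℕ) : ℝ) ^ M * eps + eps ≤
      2 ^ M * 2 ^ (e * M) * (2 ^ Q * (1 / 2 ^ (2 ^ 26 * e ^ 4))) := by
    calc (M : ℝ) * ((L * T : ℕ) : ℝ) ^ M * eps + eps
        = ((M : ℝ) * ((L * T : ℕ) : ℝ) ^ M + 1) * eps := by ring
      _ ≤ (2 ^ M * 2 ^ (e * M)) * (2 ^ Q * Lam) := by gcongr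
      _ ≤ _ := by gcongr
  refine htot.trans ?_
  have e1 : (2 : ℝ) ^ M * 2 ^ (e * M) * (2 ^ Q * (1 / 2 ^ (2 ^ 26 * e ^ 4))) =
      2 ^ (M + e * M + Q) / 2 ^ (2 ^ 26 * e ^ 4) := by
    rw [pow_add, pow_add]; ring
  rw [e1, div_le_div_iff₀ (by positivity) (by norm_num), one_mul]
  have h4 : (4 : ℝ) = 2 ^ 2 := by norm_num
  rw [h4, ← pow_add]
  apply pow_le_pow_right₀ (by norm_num)
  have a1 : e * (2 ^ 14 * e) ≤ 64 * (e * R) := by nlinarith
  have a2 : 3 * (256 * e) * (8 * e) ≤ 24 * (e * R) := by nlinarith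
  have a3 : T * (8 * e) ≤ 24 * (e * R) := by nlinarith
  have a4 : M = 256 * (e * R) := by rw [hM]; ring
  have a5 : e ≤ e * R := Nat.le_mul_of_pos_right _ hR0
  have a6 : 8 ≤ e * R := he.trans a5
  have b1 : M + e * M + Q + 2 ≤ 256 * (e * (e * R)) + 440 * (e * R) := by
    have : e * M = 256 * (e * (e * R)) := by rw [a4]; ring
    rw [this, a4, hQ]
    generalize e * (2 ^ 14 * e) = A at *
    generalize 3 * (256 * e) * (8 * e) = B at *
    generalize T * (8 * e) = C at *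
    generalize e * (e * R) = D' at *
    generalize e * R = D at *
    omega
  have b2 : 440 * (e * R) ≤ 55 * (e * (e * R)) := by nlinarith
  have b3 : 311 * (e * (e * R)) ≤ 311 * (e * (e * (2 ^ 17 * e ^ 2))) := by gcongr
  have b4 : 311 * (e * (e * (2 ^ 17 * e ^ 2))) ≤ 2 ^ 26 * e ^ 4 := by
    have : e * (e * (2 ^ 17 * e ^ 2)) = 2 ^ 17 * e ^ 4 := by ring
    rw [this]
    have : 0 ≤ e ^ 4 := Nat.zero_le _
    omega
  omega

end Pool.Agent.KLA
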