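import Pool.Agent.KLA.Gelfond

open Polynomial Finset

namespace Pool.Agent.KLA

/-- Weak Gelfond bound, coprime case. -/
theorem gelfond_coprime {e K L : ℕ} (he : 8 ≤ e) (hcop : Nat.Coprime K L) (hSL : 256 * e ≤ L)
    (hK : K ≤ 2 * L) (hLe : 2 ^ 18 * e ^ 2 * L ≤ 2 ^ e) :
    1 / 2 ^ (2 ^ 26 * e ^ 4) < |(K : ℝ) * Real.log 2 - L * Real.log 3| := by
  by_contra hcon
  push Not at hcon
  set Lam : ℝ := |(K : ℝ) * Real.log 2 - L * Real.log 3| with hLamdef
  have hL0 : 0 < L := by omega
  have hLam0 : 0 ≤ Lam := abs_nonneg _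
  have hlog0 : 0 ≤ Real.log 2 := Real.log_nonneg (by norm_num)
  have hN : 2 ^ 17 * e ^ 2 ≤ 2 ^ e := by
    calc 2 ^ 17 * e ^ 2 ≤ 2 ^ 18 * e ^ 2 * L := by
          have : 1 ≤ L := hL0
          nlinarith [Nat.zero_le (e ^ 2)]
      _ ≤ _ := hLe
  -- Siegel
  set S : ℕ := 256 * e with hS
  set I : ℕ := 2 ^ 14 * e with hI
  set J : ℕ := 8 * e with hJ
  have hS0 : 0 < S := by omega
  have hIJ : I * J = 2 * (S * S) := by rw [hI, hJ, hS]; ring
  have hB : ∀ r < S, ∀ s < S, ∀ i < I, ∀ j < J,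
      (r * L + s * K) ^ i * (2 ^ r * 3 ^ s) ^ j ≤ 2 ^ (e * I + 3 * S * J) := by
    intro r hr s hs i hi j hj
    have h1 : r * L + s * K ≤ 2 ^ e := by
      calc r * L + s * K ≤ S * L + S * (2 * L) := by gcongr
        _ = 768 * e * L := by rw [hS]; ring
        _ ≤ 2 ^ 18 * e ^ 2 * L := by
            gcongr ?_ * L
            nlinarith
        _ ≤ 2 ^ e := hLe
    have h2 : 2 ^ r * 3 ^ s ≤ 2 ^ (3 * S) := by
      calc 2 ^ r * 3 ^ s ≤ 2 ^ S * 4 ^ S := by
            gcongr <;> norm_num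
        _ = 2 ^ (3 * S) := by
            rw [show (4 : ℕ) = 2 ^ 2 by norm_num, ← pow_mul, ← pow_add]
            congr 1; ring
    calc (r * L + s * K) ^ i * (2 ^ r * 3 ^ s) ^ j ≤ (2 ^ e) ^ I * (2 ^ (3 * S)) ^ J := by
          apply Nat.mul_le_mul
          · exact (Nat.pow_le_pow_left h1 i).trans
              (Nat.pow_le_pow_right (by positivity) hi.le)
          · exact (Nat.pow_le_pow_left h2 j).trans
              (Nat.pow_le_pow_right (by positivity) hj.le)
      _ = 2 ^ (e * I + 3 * S * J) := by rw [← pow_mul, ← pow_mul, ← pow_add]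
  obtain ⟨p, hp, hpne, hF0⟩ := siegel (K := K) (L := L) hS0 hIJ hB (Nat.one_le_two_pow)
  -- the bound for the coefficients
  set H : ℝ := (2 ^ (e + e * (2 ^ 14 * e) + 3 * (256 * e) * (8 * e)) : ℝ) with hH
  have hHp : ∀ i < I, ∀ j < J, |(p i j : ℝ)| ≤ H := by
    intro i hi j hj
    refine (hp i hi j hj).trans ?_
    rw [hH]
    have h1 : I * J ≤ 2 ^ e := by
      calc I * J = 2 ^ 17 * e ^ 2 := by rw [hI, hJ]; ring
        _ ≤ _ := hN
    have h2 : ((I * J : ℕ) : ℝ) * ((2 ^ (e * I + 3 * S * J) : ℕ) : ℝ) ≤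
        2 ^ e * 2 ^ (e * I + 3 * S * J) := by
      have h3 : ((I * J : ℕ) : ℝ) ≤ 2 ^ e := by exact_mod_cast h1
      push_cast at h3 ⊢
      gcongr
    refine h2.trans (le_of_eq ?_)
    rw [← pow_add, hI, hS, hJ]
    congr 1
    ring
  have hH0 : 0 ≤ H := by rw [hH]; positivity
  set lam : ℝ := Real.log 2 / L with hlam
  have hlam0 : 0 ≤ lam := by positivity
  -- the induction
  have hmain : ∀ R, S ≤ R → R ≤ 2 ^ 17 * e ^ 2 → ∀ r < R, ∀ s < S, FJ I J p K L r s = 0 := by
    intro R hSR
    induction R, hSR using Nat.le_induction with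
    | base => intro _; exact hF0
    | succ R hSR ih =>
      intro hR1 r hr s₀ hs₀
      have ih' := ih (by omega)
      rcases Nat.lt_or_ge r R with hrR | hrR
      · exact ih' r hrR s₀ hs₀
      have hrR' : r = R := by omega
      subst hrR'
      -- now extrapolate
      have hT : r + 2 * (256 * e) ≤ 2 ^ 18 * e ^ 2 := by nlinarith
      have hXle : L * (r + 2 * (256 * e)) ≤ 2 ^ e := by
        calc L * (r + 2 * (256 * e)) ≤ L * (2 ^ 18 * e ^ 2) := by gcongr
          _ = 2 ^ 18 * e ^ 2 * L := by ring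
          _ ≤ _ := hLe
      have hX1 : 1 ≤ L * (r + 2 * (256 * e)) := by
        apply Nat.mul_pos hL0; omega
      set X : ℝ := ((L * (r + 2 * (256 * e)) : ℕ) : ℝ) with hX
      have hX1' : (1 : ℝ) ≤ X := by rw [hX]; exact_mod_cast hX1
      have hnode : ∀ a b : ℕ, a ≤ r → b < S → ((a * L + b * K : ℕ) : ℝ) ≤ X := by
        intro a b ha hb
        rw [hX]
        have : a * L + b * K ≤ L * (r + 2 * (256 * e)) := by
          calc a * L + b * K ≤ r * L + S * (2 * L) := by gcongr
            _ = L * (r + 2 * (256 * e)) := by rw [hS]; ring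
        exact_mod_cast this
      have hYn : ∀ a b : ℕ, a ≤ r → b < S → (2 ^ a * 3 ^ b : ℝ) ≤ 2 ^ (r + 2 * (256 * e)) := by
        intro a b ha hb
        calc (2 ^ a * 3 ^ b : ℝ) ≤ 2 ^ r * 4 ^ S := by
              gcongr
              · norm_num
              · calc (3 : ℝ) ^ b ≤ 4 ^ b := by gcongr; norm_num
                  _ ≤ 4 ^ S := by gcongr; norm_num
          _ = 2 ^ (r + 2 * (256 * e)) := by
              rw [show (4 : ℝ) = 2 ^ 2 by norm_num, ← pow_mul, ← pow_add]
      have hsmall : (J : ℝ) * S * Lam ≤ 1 := by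
        have h1 : J * S ≤ 2 ^ e := by
          calc J * S = 2 ^ 11 * e ^ 2 := by rw [hJ, hS]; ring
            _ ≤ 2 ^ 17 * e ^ 2 := by gcongr <;> norm_num
            _ ≤ _ := hN
        have h2 : (J : ℝ) * S ≤ 2 ^ e := by exact_mod_cast h1
        calc (J : ℝ) * S * Lam ≤ 2 ^ e * (1 / 2 ^ (2 ^ 26 * e ^ 4)) := by gcongr
          _ = 2 ^ e / 2 ^ (2 ^ 26 * e ^ 4) := by ring
          _ ≤ 1 := by
              rw [div_le_one (by positivity)]
              apply pow_le_pow_right₀ (by norm_num)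
              calc e = 1 * e ^ 1 := by ring
                _ ≤ 2 ^ 26 * e ^ 4 := by
                    apply Nat.mul_le_mul (by norm_num)
                    exact Nat.pow_le_pow_right (by omega) (by norm_num)
      set eps : ℝ := ((8 * e : ℕ) : ℝ) * (((2 ^ 14 * e : ℕ) : ℝ) *
        (2 ^ (e + e * (2 ^ 14 * e) + 3 * (256 * e) * (8 * e)) : ℝ) *
        ((L * (r + 2 * (256 * e)) : ℕ) : ℝ) ^ (2 ^ 14 * e) *
        ((2 : ℝ) ^ (r + 2 * (256 * e))) ^ (8 * e) *
        (2 * (((8 * e : ℕ) : ℝ) * ((256 * e : ℕ) : ℝ) * Lam))) with heps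
      have heps0 : 0 ≤ eps := by rw [heps]; positivity
      have hnear : ∀ a b : ℕ, a ≤ r → b < S →
          |EJ I J p lam 0 ((a * L + b * K : ℕ) : ℝ) - (FJ I J p K L a b : ℝ)| ≤ eps := by
        intro a b ha hb
        exact near hL0 hHp hH0 hX1' a b hb.le (hnode a b ha hb) (hYn a b ha hb) hsmall
      -- node set
      set s : Finset ℕ := (Finset.range r ×ˢ Finset.range S).image (fun ab => ab.1 * L + ab.2 * K)
        with hs
      have hcard : s.card = r * (256 * e) := by
        rw [hs, Finset.card_image_of_injOn, Finset.card_product, Finset.card_range,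
          Finset.card_range]
        rintro ⟨a, b⟩ hab ⟨a', b'⟩ hab' h
        simp only [Finset.coe_product, Finset.coe_range, Set.mem_prod, Set.mem_Iio] at hab hab'
        obtain ⟨h1, h2⟩ := node_inj hcop hL0 hSL hab.2 hab'.2 h
        exact Prod.ext h1 h2
      have hsX : ∀ n ∈ s, (n : ℝ) ≤ X := by
        intro n hn
        rw [hs, Finset.mem_image] at hn
        obtain ⟨⟨a, b⟩, hab, rfl⟩ := hn
        rw [Finset.mem_product, Finset.mem_range, Finset.mem_range] at hab
        exact hnode a b hab.1.le hab.2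
      have hx₀s : r * L + s₀ * K ∉ s := by
        intro hmem
        rw [hs, Finset.mem_image] at hmem
        obtain ⟨⟨a, b⟩, hab, h⟩ := hmem
        rw [Finset.mem_product, Finset.mem_range, Finset.mem_range] at hab
        obtain ⟨h1, -⟩ := node_inj hcop hL0 hSL hab.2 hs₀ h
        have := hab.1
        simp only at h1 this
        omega
      have hsE : ∀ n ∈ s, |EJ I J p lam 0 (n : ℝ)| ≤ eps := by
        intro n hn
        rw [hs, Finset.mem_image] at hn
        obtain ⟨⟨a, b⟩, hab, rfl⟩ := hn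
        rw [Finset.mem_product, Finset.mem_range, Finset.mem_range] at hab
        have h1 := hnear a b hab.1.le hab.2
        have h2 := ih' a hab.1 b hab.2
        rw [h2] at h1
        simpa using h1
      have hext := extrapolate hHp hH0 hlam0 hX1' s hsX (r * L + s₀ * K) (hnode r s₀ le_rfl hs₀)
        hx₀s heps0 hsE
      rw [hcard] at hext
      have hmt := main_term (lam := lam) he hSR hXle hlam hL0 hN
      have hnt := near_term he hSR (by omega) hX1 hXle hN hcon hLam0 heps
      have hn0 := hnear r s₀ le_rfl hs₀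
      have hbound : |(FJ I J p K L r s₀ : ℝ)| < 1 := by
        have h3 : |(FJ I J p K L r s₀ : ℝ)| ≤
            |EJ I J p lam 0 ((r * L + s₀ * K : ℕ) : ℝ)| + eps := by
          have := abs_sub_abs_le_abs_sub (FJ I J p K L r s₀ : ℝ)
            (EJ I J p lam 0 ((r * L + s₀ * K : ℕ) : ℝ))
          rw [abs_sub_comm] at this
          linarith
        have h4 : (J : ℝ) * I * H * X ^ I * Real.exp (J * lam * X) *
            ((J * lam * X + I) ^ (r * (256 * e)) / ((r * (256 * e)).factorial : ℝ)) ≤ 1 / 4 := hmt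
        linarith
      have h5 : |FJ I J p K L r s₀| < 1 := by exact_mod_cast hbound
      exact Int.abs_lt_one_iff.mp h5
  -- the contradiction
  have hall := hmain (2 ^ 17 * e ^ 2) (by rw [hS]; nlinarith) le_rfl
  have hzero : ZerosIn (fun x => ∑ j ∈ range J, eval x (PJ I p j) * Real.exp (j * lam * x))
      0 (((2 ^ 17 * e ^ 2 * L : ℕ) : ℝ)) (J * I) := by
    have hJI : J * I = 2 ^ 17 * e ^ 2 := by rw [hI, hJ]; ring
    rw [hJI]
    refine ⟨fun i => (((i : ℕ) * L : ℕ) : ℝ), ?_, ?_, ?_⟩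
    · intro a b hab
      have : (a : ℕ) * L < (b : ℕ) * L := Nat.mul_lt_mul_of_pos_right hab hL0
      beta_reduce
      exact_mod_cast this
    · intro a
      refine ⟨Nat.cast_nonneg _, ?_⟩
      have : (a : ℕ) * L ≤ 2 ^ 17 * e ^ 2 * L := Nat.mul_le_mul_right L a.2.le
      beta_reduce
      exact_mod_cast this
    · intro a
      have h1 := hall a a.2 0 hS0
      have h2 := FJ_eq I J p K L a 0
      rw [h1] at h2
      rw [← Int.cast_zero, h2]
      apply Finset.sum_congr rfl
      intro j _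
      have e1 : (j : ℝ) * lam * (((a : ℕ) * L : ℕ) : ℝ) =
          j * (Real.log 2 / L * (((a : ℕ) * L + 0 * K : ℕ) : ℝ)) := by
        rw [hlam]; simp; ring
      simp only [zero_mul, add_zero, pow_zero, mul_one] at *
      rw [e1, Real.exp_nat_mul]
      have e2 := exp_node (K := K) hL0 (a : ℕ) 0
      simp only [zero_mul, add_zero, pow_zero, mul_one, Nat.cast_zero, zero_div,
        Real.exp_zero] at e2
      rw [e2]
  have hlam1 : 0 < lam := by
    rw [hlam]
    have : 0 < Real.log 2 := Real.log_pos (by norm_num)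
    positivity
  have hP := expPoly_zero I hlam1 J (PJ I p) (fun j _ => PJ_degree I p j) hzero
  obtain ⟨i, hi, j, hj, hne⟩ := hpne
  apply hne
  have h1 := PJ_coeff I p j i hi
  rw [hP j hj, coeff_zero] at h1
  exact_mod_cast h1.symm

end Pool.Agent.KLA
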