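import Pool.Agent.KLA.Cycle

/-!
The number of descending runs of a finite cycle, and its least element.
-/

open Finset

namespace Pool.Agent.KLA

theorem re_le_one (x : ℕ) : re x ≤ 1 := by unfold re; split_ifs <;> omega

theorem runs_eq_card (x ℓ : ℕ) : runs x ℓ =
    ((range ℓ).filter (fun t => 3 ∣ klam^[t] x ∧ ¬ 3 ∣ klam (klam^[t] x))).card := by
  unfold runs re
  rw [Finset.card_filter]

theorem ncard_eq {x : ℕ} (h : x ∈ Function.periodicPts klam) :
    {z | (∃ k, klam^[k] x = z) ∧ 3 ∣ z ∧ ¬ 3 ∣ klam z}.ncard =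
      runs x (Function.minimalPeriod klam x) := by
  set ℓ := Function.minimalPeriod klam x with hℓ
  have hpos : 0 < ℓ := Function.minimalPeriod_pos_of_mem_periodicPts h
  rw [runs_eq_card]
  have e : {z | (∃ k, klam^[k] x = z) ∧ 3 ∣ z ∧ ¬ 3 ∣ klam z} =
      (((range ℓ).filter (fun t => 3 ∣ klam^[t] x ∧ ¬ 3 ∣ klam (klam^[t] x))).image
        (fun t => klam^[t] x) : Finset ℕ) := by
    ext z
    simp only [Set.mem_ofPred_eq, Finset.coe_image, Finset.coe_filter, Finset.mem_range,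
      Set.mem_image]
    constructor
    · rintro ⟨⟨k, rfl⟩, h1, h2⟩
      have hk : klam^[k % ℓ] x = klam^[k] x := Function.iterate_mod_minimalPeriod_eq
      refine ⟨k % ℓ, ⟨Nat.mod_lt _ hpos, ?_⟩, hk⟩
      rw [hk]
      exact ⟨h1, h2⟩
    · rintro ⟨t, ⟨_, h1, h2⟩, rfl⟩
      exact ⟨⟨t, rfl⟩, h1, h2⟩
  rw [e, Set.ncard_coe_finset, Finset.card_image_of_injOn]
  intro a ha b hb hab
  simp only [Finset.coe_filter, Finset.mem_range, Set.mem_ofPred_eq] at ha hb
  exact Function.iterate_injOn_Iio_minimalPeriod ha.1 hb.1 hab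

/-- Least element of a cycle. -/
theorem exists_min {x ℓ : ℕ} (hx : 0 < x) (hℓ : 0 < ℓ) (h : klam^[ℓ] x = x) :
    ∃ n, 0 < n ∧ klam^[ℓ] n = n ∧ (∀ t, n ≤ klam^[t] n) ∧ runs n ℓ = runs x ℓ ∧
      (∃ s, klam^[s] n = x) ∧ ∃ s, klam^[s] x = n := by
  obtain ⟨s, hs, hmin⟩ := Finset.exists_min_image (range ℓ) (fun t => klam^[t] x)
    ⟨0, Finset.mem_range.mpr hℓ⟩
  rw [Finset.mem_range] at hs
  have hpos : ∀ t, 0 < klam^[t] x := by
    intro t
    induction t with
    | zero => simpa using hx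
    | succ t ih => rw [Function.iterate_succ_apply']; exact klam_pos ih
  have hper : Function.IsPeriodicPt klam ℓ x := h
  have hall : ∀ t, klam^[s] x ≤ klam^[t] x := by
    intro t
    have h1 := hmin (t % ℓ) (Finset.mem_range.mpr (Nat.mod_lt _ hℓ))
    rwa [hper.iterate_mod_apply t] at h1
  refine ⟨klam^[s] x, hpos s, ?_, ?_, runs_shift h s, ⟨ℓ - s, ?_⟩, ⟨s, rfl⟩⟩
  · rw [← Function.iterate_add_apply, add_comm, Function.iterate_add_apply, h]
  · intro t
    rw [← Function.iterate_add_apply]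
    exact hall _
  · rw [← Function.iterate_add_apply]
    have : ℓ - s + s = ℓ := by omega
    rw [this, h]

end Pool.Agent.KLA
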