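import Pool.Agent.KLA.Bound
import Pool.Agent.KLA.Orbit

/-!
Finite cycles whose number of descending runs is small compared with the logarithm of the length.
-/

open Finset Filter

namespace Pool.Agent.KLA

theorem three_half_le : (3 : ℝ) / 2 ≤ th⁻¹ := by
  rw [th_inv_eq, div_le_div_iff₀ (by norm_num) (Real.log_pos (by norm_num))]
  have h1 : 3 * Real.log 2 = Real.log 8 := by
    rw [show (8 : ℝ) = 2 ^ 3 by norm_num, Real.log_pow]; norm_num
  have h2 : Real.log 3 * 2 = Real.log 9 := by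
    rw [show (9 : ℝ) = 3 ^ 2 by norm_num, Real.log_pow]; ring
  rw [h1, h2]
  exact Real.log_le_log (by norm_num) (by norm_num)

theorem GS_le_pow (m : ℕ) : GS m ≤ 3 * th⁻¹ ^ m := by
  induction m with
  | zero => simp [GS]
  | succ m ih =>
    rw [GS_succ]
    have h1 := three_half_le
    have h2 : 0 < th⁻¹ ^ m := by have := th_pos; positivity
    have h3 : th⁻¹ ^ (m + 1) = th⁻¹ ^ m * th⁻¹ := pow_succ _ _
    rw [h3]
    nlinarith

theorem runs_le (x ℓ : ℕ) : runs x ℓ ≤ ℓ := by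
  rw [runs_eq_card]
  refine (Finset.card_filter_le _ _).trans ?_
  simp

/-- The length of a cycle in terms of its number of runs and of its least element. -/
theorem length_le {n ℓ : ℕ} (hn : 100 ≤ n) (hℓ : 1 ≤ ℓ) (h : klam^[ℓ] n = n)
    (hmin : ∀ t, n ≤ klam^[t] n) : (ℓ : ℝ) ≤ 9 * th⁻¹ ^ runs n ℓ * Real.log n := by
  have hn3 := min_not_dvd (by omega) hmin
  have F := cycle_facts hn hℓ h hmin
  have h1 := path_dsc' hn3 (by omega) (by omega) h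
  have h2 := GS_le_pow (runs n ℓ)
  have hlog3 : 1 ≤ Real.log 3 := by
    rw [Real.le_log_iff_exp_le (by norm_num)]
    linarith [Real.exp_one_lt_d9]
  have hlogn : 0 ≤ Real.log n := Real.log_natCast_nonneg n
  have h3 : (dsc n ℓ : ℝ) ≤ 3 * th⁻¹ ^ runs n ℓ * Real.log n := by
    refine h1.trans ?_
    rw [div_le_iff₀ (by linarith)]
    have h4 : GS (runs n ℓ) * Real.log n ≤ 3 * th⁻¹ ^ runs n ℓ * Real.log n := by gcongr
    have h5 : 0 ≤ 3 * th⁻¹ ^ runs n ℓ * Real.log n := by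
      have := th_pos
      positivity
    nlinarith
  have h4 := F.len
  have h5 := F.lin
  have h6 : ((Ss n n ℓ : ℕ) : ℝ) + (Zs n n ℓ : ℕ) ≤ ℓ := by
    exact_mod_cast F.sz.trans (runs_le n ℓ)
  have h7 : (0 : ℝ) ≤ (Zs n n ℓ : ℕ) := Nat.cast_nonneg _
  have h8 : (100 : ℝ) ≤ n := by exact_mod_cast hn
  have h9 := abs_nonneg (((ℓ + asc n ℓ : ℕ) : ℝ) * Real.log 2 - ℓ * Real.log 3)
  have h10 : |((ℓ + asc n ℓ : ℕ) : ℝ) * Real.log 2 - ℓ * Real.log 3| * 100 ≤ 1.0102 * ℓ := by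
    nlinarith
  nlinarith

/-- The least element of a cycle in terms of its length. -/
theorem min_le {n ℓ : ℕ} (hn : 100 ≤ n) (hℓ : 1 ≤ ℓ) (h : klam^[ℓ] n = n)
    (hmin : ∀ t, n ≤ klam^[t] n) : (n : ℝ) ≤ 1.0102 * ℓ * 2 ^ (2 ^ 26 * ee ℓ ^ 4) := by
  have F := cycle_facts hn hℓ h hmin
  have h1 := gelfond (ℓ + asc n ℓ) ℓ hℓ
  have h5 := F.lin
  have h6 : ((Ss n n ℓ : ℕ) : ℝ) + (Zs n n ℓ : ℕ) ≤ ℓ := by
    exact_mod_cast F.sz.trans (runs_le n ℓ)
  have h7 : (0 : ℝ) ≤ (Zs n n ℓ : ℕ) := Nat.cast_nonneg _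
  have h8 : (100 : ℝ) ≤ n := by exact_mod_cast hn
  set P : ℝ := 2 ^ (2 ^ 26 * ee ℓ ^ 4) with hP
  have hP0 : 0 < P := by positivity
  have h9 : 1 / P * n ≤ 1.0102 * ℓ := by
    have : 1 / P * n ≤ |((ℓ + asc n ℓ : ℕ) : ℝ) * Real.log 2 - ℓ * Real.log 3| * n := by
      gcongr
    linarith
  have h10 : (n : ℝ) = P * (1 / P * n) := by field_simp
  rw [h10]
  calc P * (1 / P * n) ≤ P * (1.0102 * ℓ) := by gcongr
    _ = 1.0102 * ℓ * P := by ring

theorem clog_le {ℓ : ℕ} (hℓ : 1 ≤ ℓ) : (Nat.clog 2 ℓ : ℝ) ≤ 2 * Real.log ℓ + 1 := by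
  have hlog : 0 ≤ Real.log ℓ := Real.log_natCast_nonneg ℓ
  have h2 : (1 / 2 : ℝ) ≤ Real.log 2 := by linarith [Real.log_two_gt_d9]
  rcases Nat.lt_or_ge 1 ℓ with h | h
  · have h1 : 2 ^ (Nat.clog 2 ℓ - 1) < ℓ := Nat.pow_pred_clog_lt_self (by norm_num) h
    have h3 : ((Nat.clog 2 ℓ - 1 : ℕ) : ℝ) * Real.log 2 ≤ Real.log ℓ := by
      rw [← Real.log_pow]
      apply Real.log_le_log (by positivity)
      exact_mod_cast h1.le
    have h4 : (Nat.clog 2 ℓ : ℝ) ≤ ((Nat.clog 2 ℓ - 1 : ℕ) : ℝ) + 1 := by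
      have : Nat.clog 2 ℓ ≤ (Nat.clog 2 ℓ - 1) + 1 := by omega
      exact_mod_cast this
    have h5 : (0 : ℝ) ≤ ((Nat.clog 2 ℓ - 1 : ℕ) : ℝ) := Nat.cast_nonneg _
    nlinarith
  · have : ℓ = 1 := by omega
    subst this
    simp

theorem log_min_le {n ℓ : ℕ} (hn : 100 ≤ n) (hℓ : 1 ≤ ℓ) (h : klam^[ℓ] n = n)
    (hmin : ∀ t, n ≤ klam^[t] n) :
    Real.log n ≤ (2 + 2 ^ 26 * 42 ^ 4) * (1 + Real.log ℓ) ^ 4 := by
  have h1 := min_le hn hℓ h hmin
  have hℓ0 : (0 : ℝ) < ℓ := by exact_mod_cast hℓ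
  have hn0 : (0 : ℝ) < n := by
    have : (100 : ℝ) ≤ n := by exact_mod_cast hn
    linarith
  have h2 : Real.log n ≤ 0.0102 + Real.log ℓ + (2 ^ 26 * ee ℓ ^ 4 : ℕ) * Real.log 2 := by
    refine (Real.log_le_log hn0 h1).trans ?_
    rw [Real.log_mul (by positivity) (by positivity), Real.log_mul (by norm_num) (by positivity),
      Real.log_pow]
    have : Real.log 1.0102 ≤ 0.0102 := by
      have := Real.log_le_sub_one_of_pos (x := 1.0102) (by norm_num)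
      linarith
    push_cast
    linarith
  have hlog : 0 ≤ Real.log ℓ := Real.log_natCast_nonneg ℓ
  have h3 : (ee ℓ : ℝ) ≤ 42 * (1 + Real.log ℓ) := by
    have := clog_le hℓ
    unfold ee
    push_cast
    linarith
  have h4 : (ee ℓ : ℝ) ^ 4 ≤ 42 ^ 4 * (1 + Real.log ℓ) ^ 4 := by
    rw [← mul_pow]
    gcongr
  have h5 : 0 ≤ (ee ℓ : ℝ) ^ 4 := by positivity
  have h6 : Real.log 2 ≤ 1 := by linarith [Real.log_two_lt_d9]
  have h7 : 1 + Real.log ℓ ≤ (1 + Real.log ℓ) ^ 4 := by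
    have : 1 ≤ (1 + Real.log ℓ) ^ 3 := one_le_pow₀ (by linarith)
    nlinarith
  push_cast at h2
  nlinarith

/-- `log n ≤ ...` combined with `length_le`. -/
theorem length_bound {n ℓ : ℕ} (hn : 100 ≤ n) (hℓ : 1 ≤ ℓ) (h : klam^[ℓ] n = n)
    (hmin : ∀ t, n ≤ klam^[t] n) :
    (ℓ : ℝ) ≤ 9 * (2 + 2 ^ 26 * 42 ^ 4) * th⁻¹ ^ runs n ℓ * (1 + Real.log ℓ) ^ 4 := by
  have h1 := length_le hn hℓ h hmin
  have h2 := log_min_le hn hℓ h hmin
  have h3 : 0 < th⁻¹ ^ runs n ℓ := by have := th_pos; positivity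
  calc (ℓ : ℝ) ≤ 9 * th⁻¹ ^ runs n ℓ * Real.log n := h1
    _ ≤ 9 * th⁻¹ ^ runs n ℓ * ((2 + 2 ^ 26 * 42 ^ 4) * (1 + Real.log ℓ) ^ 4) := by gcongr
    _ = _ := by ring

/-- Sublinear growth. -/
theorem eventually_small (K a : ℝ) (ha : a < 1) :
    ∃ L₀ : ℕ, ∀ ℓ : ℕ, L₀ ≤ ℓ → K * (ℓ : ℝ) ^ a * (1 + Real.log ℓ) ^ 4 < ℓ := by
  have h1 : (fun x : ℝ => Real.log x ^ (4 : ℝ)) =o[atTop] fun x : ℝ => x ^ (1 - a) :=
    isLittleO_log_rpow_rpow_atTop 4 (by linarith)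
  have h2 : ∀ᶠ x : ℝ in atTop, Real.log x ^ 4 ≤ (1 / (32 * (|K| + 1))) * x ^ (1 - a) := by
    have h3 := h1.def (c := 1 / (32 * (|K| + 1))) (by positivity)
    filter_upwards [h3, eventually_gt_atTop 1] with x hx hx1
    have hx0 : 0 < Real.log x := Real.log_pos hx1
    rw [Real.norm_of_nonneg (by positivity), Real.norm_of_nonneg (by positivity)] at hx
    have e : Real.log x ^ (4 : ℝ) = Real.log x ^ 4 := by
      rw [← Real.rpow_natCast]; norm_num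
    rw [e] at hx
    exact hx
  have h3 : ∀ᶠ x : ℝ in atTop, K * x ^ a * (1 + Real.log x) ^ 4 < x := by
    filter_upwards [h2, eventually_gt_atTop (Real.exp 1)] with x hx hx1
    have hx0 : 0 < x := (Real.exp_pos 1).trans hx1
    have hl : 1 ≤ Real.log x := by
      rw [Real.le_log_iff_exp_le hx0]; exact hx1.le
    have h4 : (1 + Real.log x) ^ 4 ≤ 16 * Real.log x ^ 4 := by
      calc (1 + Real.log x) ^ 4 ≤ (2 * Real.log x) ^ 4 := by gcongr; linarith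
        _ = 16 * Real.log x ^ 4 := by ring
    have hxa : 0 < x ^ a := Real.rpow_pos_of_pos hx0 a
    have e1 : x ^ a * x ^ (1 - a) = x := by
      rw [← Real.rpow_add hx0]; simp
    have hK : K ≤ |K| + 1 := by linarith [le_abs_self K]
    have hK0 : 0 < |K| + 1 := by positivity
    calc K * x ^ a * (1 + Real.log x) ^ 4 ≤ (|K| + 1) * x ^ a * (1 + Real.log x) ^ 4 := by gcongr
      _ ≤ (|K| + 1) * x ^ a * (16 * ((1 / (32 * (|K| + 1))) * x ^ (1 - a))) := by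
          gcongr
          exact h4.trans (by linarith)
      _ = (x ^ a * x ^ (1 - a)) / 2 := by field_simp; ring
      _ = x / 2 := by rw [e1]
      _ < x := by linarith
  obtain ⟨x₀, hx₀⟩ := eventually_atTop.mp h3
  refine ⟨⌈x₀⌉₊, fun ℓ hℓ => hx₀ ℓ ?_⟩
  exact (Nat.le_ceil x₀).trans (by exact_mod_cast hℓ)

/-- The least elements of the cycles with few runs are bounded. -/
theorem bounded_min (c C : ℝ) (hc : c * Real.log (Real.log 3 / Real.log 2) < 1) :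
    ∃ N : ℕ, ∀ n ℓ : ℕ, 1 ≤ ℓ → klam^[ℓ] n = n → (∀ t, n ≤ klam^[t] n) →
      (runs n ℓ : ℝ) ≤ C + c * Real.log ℓ → n ≤ N := by
  obtain ⟨L₀, hL₀⟩ := eventually_small
    (9 * (2 + 2 ^ 26 * 42 ^ 4) * Real.exp (C * Real.log th⁻¹)) (c * Real.log th⁻¹)
    (by rw [th_inv_eq]; exact hc)
  set B : ℕ → ℕ := fun ℓ => ⌈(1.0102 * ℓ * 2 ^ (2 ^ 26 * ee ℓ ^ 4) : ℝ)⌉₊ with hB
  refine ⟨100 + ∑ ℓ ∈ range L₀, B ℓ, ?_⟩
  intro n ℓ hℓ h hmin hr
  by_contra hcon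
  push Not at hcon
  have hn : 100 ≤ n := by omega
  have hℓL : ℓ < L₀ := by
    by_contra hc2
    push Not at hc2
    have h1 := hL₀ ℓ hc2
    have h2 := length_bound hn hℓ h hmin
    have hℓ0 : (0 : ℝ) < ℓ := by exact_mod_cast hℓ
    have hρ : 0 < th⁻¹ := by have := th_pos; positivity
    have hlogρ : 0 ≤ Real.log th⁻¹ := Real.log_nonneg one_le_th_inv
    have h3 : th⁻¹ ^ runs n ℓ ≤
        Real.exp (C * Real.log th⁻¹) * (ℓ : ℝ) ^ (c * Real.log th⁻¹) := by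
      rw [Real.rpow_def_of_pos hℓ0, ← Real.exp_add]
      have h4 : th⁻¹ ^ runs n ℓ = Real.exp (runs n ℓ * Real.log th⁻¹) := by
        rw [Real.exp_nat_mul, Real.exp_log hρ]
      rw [h4]
      apply Real.exp_le_exp.mpr
      calc (runs n ℓ : ℝ) * Real.log th⁻¹ ≤ (C + c * Real.log ℓ) * Real.log th⁻¹ := by gcongr
        _ = _ := by ring
    have hlog : 0 ≤ Real.log ℓ := Real.log_natCast_nonneg ℓ
    have h5 : (ℓ : ℝ) < ℓ := by
      calc (ℓ : ℝ) ≤ 9 * (2 + 2 ^ 26 * 42 ^ 4) * th⁻¹ ^ runs n ℓ * (1 + Real.log ℓ) ^ 4 := h2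
        _ ≤ 9 * (2 + 2 ^ 26 * 42 ^ 4) *
            (Real.exp (C * Real.log th⁻¹) * (ℓ : ℝ) ^ (c * Real.log th⁻¹)) *
              (1 + Real.log ℓ) ^ 4 := by gcongr
        _ = 9 * (2 + 2 ^ 26 * 42 ^ 4) * Real.exp (C * Real.log th⁻¹) *
            (ℓ : ℝ) ^ (c * Real.log th⁻¹) * (1 + Real.log ℓ) ^ 4 := by ring
        _ < ℓ := h1
    exact lt_irrefl _ h5
  have h1 := min_le hn hℓ h hmin
  have h2 : n ≤ B ℓ := by
    have h3 : (n : ℝ) ≤ B ℓ := h1.trans (Nat.le_ceil _)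
    exact_mod_cast h3
  have h4 : B ℓ ≤ ∑ ℓ ∈ range L₀, B ℓ :=
    Finset.single_le_sum (f := B) (fun _ _ => Nat.zero_le _) (Finset.mem_range.mpr hℓL)
  omega

theorem orbit_finite {n : ℕ} (h : n ∈ Function.periodicPts klam) :
    {x | ∃ s, klam^[s] n = x}.Finite := by
  have : {x | ∃ s, klam^[s] n = x} ⊆
      ((range (Function.minimalPeriod klam n)).image (fun t => klam^[t] n) : Finset ℕ) := by
    rintro x ⟨s, rfl⟩
    simp only [Finset.coe_image, Set.mem_image, Finset.coe_range, Set.mem_Iio]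
    exact ⟨s % Function.minimalPeriod klam n,
      Nat.mod_lt _ (Function.minimalPeriod_pos_of_mem_periodicPts h),
      Function.iterate_mod_minimalPeriod_eq⟩
  exact (Finset.finite_toSet _).subset this

/-- Only finitely many finite cycles have few descending runs compared with the logarithm of
their length. -/
theorem few_runs_finite (c C : ℝ) (hc : c * Real.log (Real.log 3 / Real.log 2) < 1) :
    {x : ℕ | 0 < x ∧ x ∈ Function.periodicPts klam ∧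
      ({z | (∃ k, klam^[k] x = z) ∧ 3 ∣ z ∧ ¬ 3 ∣ klam z}.ncard : ℝ) ≤
        C + c * Real.log (Function.minimalPeriod klam x)}.Finite := by
  obtain ⟨N, hN⟩ := bounded_min c C hc
  have hsub : {x : ℕ | 0 < x ∧ x ∈ Function.periodicPts klam ∧
      ({z | (∃ k, klam^[k] x = z) ∧ 3 ∣ z ∧ ¬ 3 ∣ klam z}.ncard : ℝ) ≤
        C + c * Real.log (Function.minimalPeriod klam x)} ⊆
      ⋃ n ∈ {n | n ≤ N ∧ n ∈ Function.periodicPts klam}, {x | ∃ s, klam^[s] n = x} := by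
    rintro x ⟨hx, hp, hr⟩
    rw [ncard_eq hp] at hr
    have hℓ := Function.minimalPeriod_pos_of_mem_periodicPts hp
    obtain ⟨n, hn0, h, hmin, hruns, hs, -⟩ :=
      exists_min hx hℓ (Function.isPeriodicPt_minimalPeriod klam x)
    rw [← hruns] at hr
    have h1 := hN n _ hℓ h hmin hr
    simp only [Set.mem_iUnion]
    exact ⟨n, ⟨h1, Function.mk_mem_periodicPts hℓ h⟩, hs⟩
  refine Set.Finite.subset ?_ hsub
  refine Set.Finite.biUnion ((Set.finite_Iic N).subset (fun n hn => hn.1)) ?_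
  intro n hn
  exact orbit_finite hn.2

end Pool.Agent.KLA
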