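import Pool.Agent.KLA.Bound
import Pool.Agent.KLA.Chunks
import Pool.Agent.KLA.Orbit

/-!
Finite cycles with at most 16 descending runs.
-/

open Finset

namespace Pool.Agent.KLA

theorem dsc_le (x t : ℕ) : dsc x t ≤ t := by
  have := dsc_add_asc x t
  omega

theorem log3_le {n c : ℕ} (hn0 : 0 < n) (h : n ≤ 3 ^ c) : Real.log n / Real.log 3 ≤ c := by
  have hl3 : 0 < Real.log 3 := Real.log_pos (by norm_num)
  rw [div_le_iff₀ hl3, ← Real.log_pow]
  apply Real.log_le_log (by exact_mod_cast hn0)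
  exact_mod_cast h

/-- Combination of a simulation and of the descent bound. -/
theorem simD_contra {n ℓ F r R c q : ℕ} (hn : 100 ≤ n) (hℓ : 1 ≤ ℓ) (h : klam^[ℓ] n = n)
    (hmin : ∀ t, n ≤ klam^[t] n) (hr : runs n ℓ ≤ 16) (hs : simD n F n r = true)
    (hc : n ≤ 3 ^ c) (hq : q ≤ ℓ) (hFq : F ≤ q) (hR : 16 ≤ R + (r + 1)) {G : ℝ} (hG : GS R ≤ G)
    (hfin : 2.4095 * (F + G * c) < (q : ℝ) - 1) : False := by
  have hn3 := min_not_dvd (by omega) hmin
  have F0 := cycle_facts hn hℓ h hmin
  have F1 : Facts n ℓ 16 (Ss n n ℓ) (Zs n n ℓ) (dsc n ℓ) (ℓ + asc n ℓ) :=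
    ⟨F0.sz.trans hr, F0.s1, F0.lin, F0.dsc, F0.len⟩
  have h1 := F1.b_ge hn hq
  obtain ⟨t, ht, hst⟩ := simD_sound F n r hs
  rcases hst with hst | hst
  · exact absurd (hmin t) (by omega)
  · obtain ⟨k, rfl⟩ : ∃ k, ℓ = t + k := ⟨ℓ - t, by omega⟩
    have e1 := runs_add n t k
    have e2 := dsc_add n t k
    have h2 : runs (klam^[t] n) k ≤ R := by omega
    have hk : klam^[k] (klam^[t] n) = n := by
      rw [← Function.iterate_add_apply, add_comm]; exact h
    have hpos : 0 < klam^[t] n := by have := hmin t; omega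
    have h3 := path_dsc' hn3 (by omega) hpos hk
    have h4 : (dsc (klam^[t] n) k : ℝ) ≤ G * c := by
      refine h3.trans ?_
      rw [mul_div_assoc]
      have h5 := log3_le (by omega) hc
      have h6 : 0 ≤ Real.log n / Real.log 3 := by
        have := Real.log_natCast_nonneg n
        have : 0 < Real.log 3 := Real.log_pos (by norm_num)
        positivity
      have h7 : GS (runs (klam^[t] n) k) ≤ G := (GS_mono h2).trans hG
      have h8 : 0 ≤ G := by
        refine le_trans ?_ hG
        unfold GS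
        have := th_pos
        positivity
      exact mul_le_mul h7 h5 h6 h8
    have h5 : (dsc n t : ℝ) ≤ F := by exact_mod_cast (dsc_le n t).trans ht
    rw [e2] at h1
    push_cast at h1
    linarith

theorem smallE : rangeE 200 15 1 6 = true := by decide +kernel

theorem smallE' : simE 46 200 46 15 = true := by decide +kernel

theorem simE_contra {n ℓ : ℕ} (hn : 2 ≤ n) (hℓ : 1 ≤ ℓ) (h : klam^[ℓ] n = n)
    (hmin : ∀ t, n ≤ klam^[t] n) (hr : runs n ℓ ≤ 16) (hs : simE n 200 n 15 = true) : False := by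
  obtain ⟨k, rfl⟩ : ∃ k, ℓ = k + 1 := ⟨ℓ - 1, by omega⟩
  have := simE_sound hn (min_not_dvd (by omega) hmin) 200 n 15 hs k (fun t _ => hmin t) h
  omega

/-- The least elements of the finite cycles with at most 16 descending runs. -/
theorem min_class {n ℓ : ℕ} (hn : 0 < n) (hℓ : 1 ≤ ℓ) (h : klam^[ℓ] n = n)
    (hmin : ∀ t, n ≤ klam^[t] n) (hr : runs n ℓ ≤ 16) : n = 1 ∨ n = 2 ∨ n = 4 ∨ n = 44 := by
  rcases Nat.lt_or_ge n 2 with h1 | h1
  · left; omega
  have hn3 := min_not_dvd hn hmin
  have heven : n % 2 = 0 := by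
    obtain ⟨k, rfl⟩ : ∃ k, ℓ = k + 1 := ⟨ℓ - 1, by omega⟩
    rw [Function.iterate_succ_apply'] at h
    have h2 := hmin k
    have h3 : 3 ∣ klam^[k] n := by
      by_contra hc
      have := lt_klam (by omega) hc
      omega
    have h4 := klam_of_dvd h3
    rw [h] at h4
    omega
  obtain ⟨i, hi⟩ : ∃ i, n = 6 * i + 2 ∨ n = 6 * i + 4 := ⟨n / 6, by omega⟩
  -- the simulations
  rcases Nat.lt_or_ge i 1 with c0 | c0
  · omega
  rcases Nat.lt_or_ge i 7 with c1 | c1
  · exfalso
    have hs := rangeE_sound 6 smallE i c0 (by omega)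
    rcases hi with rfl | rfl
    · exact simE_contra h1 hℓ h hmin hr hs.1
    · exact simE_contra h1 hℓ h hmin hr hs.2
  rcases Nat.lt_or_ge i 8 with c2 | c2
  · have hi7 : i = 7 := by omega
    subst hi7
    rcases hi with rfl | rfl
    · omega
    · exact (simE_contra h1 hℓ h hmin hr smallE').elim
  exfalso
  rcases Nat.lt_or_ge i 2650 with c3 | c3
  · have hs := allE i c2 c3
    rcases hi with rfl | rfl
    · exact simE_contra h1 hℓ h hmin hr hs.1
    · exact simE_contra h1 hℓ h hmin hr hs.2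
  have hn100 : 100 ≤ n := by omega
  have F0 := cycle_facts hn100 hℓ h hmin
  have F1 : Facts n ℓ 16 (Ss n n ℓ) (Zs n n ℓ) (dsc n ℓ) (ℓ + asc n ℓ) :=
    ⟨F0.sz.trans hr, F0.s1, F0.lin, F0.dsc, F0.len⟩
  rcases Nat.lt_or_ge i 61717 with c4 | c4
  · have hs : simD n 150 n 12 = true := by
      have hs := allA i c3 c4
      rcases hi with rfl | rfl
      · exact hs.1
      · exact hs.2
    exact simD_contra (R := 3) (c := 12) (G := 8.08) hn100 hℓ h hmin hr hs (by norm_num; omega)
      (F1.level4 hℓ (by omega)) (by norm_num) (by norm_num) GS3_le (by norm_num)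
  rcases Nat.lt_or_ge i 127484 with c5 | c5
  · have hs : simD n 100 n 3 = true := by
      have hs := allB i c4 c5
      rcases hi with rfl | rfl
      · exact hs.1
      · exact hs.2
    exact simD_contra (R := 12) (c := 13) (G := 678.3) hn100 hℓ h hmin hr hs (by norm_num; omega)
      (F1.level3 hℓ (by omega)) (by norm_num) (by norm_num) GS12_le (by norm_num)
  rcases Nat.lt_or_ge i 172300 with c6 | c6
  · have hs : simD n 100 n 1 = true := by
      have hs := allC i (by omega) c6
      rcases hi with rfl | rfl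
      · exact hs.1
      · exact hs.2
    exact simD_contra (R := 14) (c := 13) (G := 1708) hn100 hℓ h hmin hr hs (by norm_num; omega)
      (F1.level2 hℓ (by omega)) (by norm_num) (by norm_num) GS14_le (by norm_num)
  have := F1.level1 hℓ hn100
  omega

/-- The elements of the four known cycles. -/
def known : Finset ℕ :=
  {1, 2, 3, 4, 5, 7, 9, 6, 44, 59, 79, 105, 70, 93, 62, 83, 111, 74, 99, 66}

theorem known_closed : ∀ z ∈ known, klam z ∈ known := by decide +kernel

theorem known_pos : ∀ z ∈ known, 0 < z := by decide +kernel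

theorem known_per : ∀ z ∈ known, klam^[60] z = z := by decide +kernel

theorem known_card : (known.filter (fun z => 3 ∣ z ∧ ¬ 3 ∣ klam z)).card ≤ 16 := by
  decide +kernel

theorem known_orbit {x : ℕ} (h : x ∈ known) (k : ℕ) : klam^[k] x ∈ known := by
  induction k with
  | zero => simpa using h
  | succ k ih => rw [Function.iterate_succ_apply']; exact known_closed _ ih

theorem class16 (x : ℕ) :
    (0 < x ∧ x ∈ Function.periodicPts klam ∧
      {z : ℕ | (∃ k, klam^[k] x = z) ∧ 3 ∣ z ∧ ¬ 3 ∣ klam z}.ncard ≤ 16) ↔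
      x ∈ ({1, 2, 3, 4, 5, 7, 9, 6, 44, 59, 79, 105, 70, 93, 62, 83, 111, 74, 99, 66} :
        Set ℕ) := by
  have e : ({1, 2, 3, 4, 5, 7, 9, 6, 44, 59, 79, 105, 70, 93, 62, 83, 111, 74, 99, 66} :
      Set ℕ) = (known : Set ℕ) := by
    unfold known; push_cast; rfl
  rw [e, Finset.mem_coe]
  constructor
  · rintro ⟨hx, hp, hr⟩
    rw [ncard_eq hp] at hr
    have hℓ := Function.minimalPeriod_pos_of_mem_periodicPts hp
    obtain ⟨n, hn0, h, hmin, hruns, ⟨s, hs⟩, -⟩ :=
      exists_min hx hℓ (Function.isPeriodicPt_minimalPeriod klam x)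
    rw [← hruns] at hr
    have h1 : n ∈ known := by
      rcases min_class hn0 hℓ h hmin hr with rfl | rfl | rfl | rfl <;> decide
    rw [← hs]
    exact known_orbit h1 s
  · intro hx
    refine ⟨known_pos x hx, Function.mk_mem_periodicPts (by norm_num) (known_per x hx), ?_⟩
    refine le_trans ?_ known_card
    rw [← Set.ncard_coe_finset]
    apply Set.ncard_le_ncard _ (Finset.finite_toSet _)
    rintro z ⟨⟨k, rfl⟩, h1, h2⟩
    rw [Finset.coe_filter]
    exact ⟨known_orbit hx k, h1, h2⟩

end Pool.Agent.KLA
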