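import Pool.Agent.KLA.Cycle

/-!
Equidistribution of the branches of the permutation and pieces of its cycles.
-/

open Finset

namespace Pool.Agent.KLA

/-- Product of weights along the first `j` steps. -/
noncomputable def wt (w : ℕ → ℕ → ℝ) (j n : ℕ) : ℝ := ∏ i ∈ range j, w i (klam^[i] n % 3)

theorem wt_succ (w : ℕ → ℕ → ℝ) (j n : ℕ) :
    wt w (j + 1) n = w 0 (n % 3) * wt (fun i => w (i + 1)) j (klam n) := by
  unfold wt
  rw [Finset.prod_range_succ', mul_comm]
  simp [Function.iterate_succ_apply]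

theorem klam_mul_add (q r : ℕ) (hr : r < 3) : klam (3 * q + r) =
    if r = 0 then 2 * q else if r = 1 then 4 * q + 1 else 4 * q + 3 := by
  unfold klam
  have h1 : (3 * q + r) % 3 = r := by omega
  have h2 : (3 * q + r) / 3 = q := by omega
  rw [h1, h2]

theorem klam_congr {j n n' : ℕ} (h : n ≡ n' [MOD 3 ^ (j + 1)]) :
    n % 3 = n' % 3 ∧ klam n ≡ klam n' [MOD 3 ^ j] := by
  have h3 : n % 3 = n' % 3 := by
    have : n ≡ n' [MOD 3] := h.of_dvd (dvd_pow_self 3 (by omega))
    exact this
  refine ⟨h3, ?_⟩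
  obtain ⟨q, r, hr, rfl⟩ : ∃ q r, r < 3 ∧ n = 3 * q + r := ⟨n / 3, n % 3, by omega, by omega⟩
  obtain ⟨q', r', hr', rfl⟩ : ∃ q r, r < 3 ∧ n' = 3 * q + r := ⟨n' / 3, n' % 3, by omega, by omega⟩
  have hrr : r = r' := by omega
  subst hrr
  have hq : q ≡ q' [MOD 3 ^ j] := by
    have h1 : 3 * q ≡ 3 * q' [MOD 3 ^ (j + 1)] := Nat.ModEq.add_right_cancel' r h
    rw [pow_succ'] at h1
    exact Nat.ModEq.mul_left_cancel' (by norm_num) h1
  rw [klam_mul_add q r hr, klam_mul_add q' r hr]
  split_ifs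
  · exact hq.mul_left 2
  · exact (hq.mul_left 4).add_right 1
  · exact (hq.mul_left 4).add_right 3

theorem wt_congr (j : ℕ) : ∀ (w : ℕ → ℕ → ℝ) (n n' : ℕ), n ≡ n' [MOD 3 ^ j] →
    wt w j n = wt w j n' := by
  induction j with
  | zero => intro w n n' _; simp [wt]
  | succ j ih =>
    intro w n n' h
    obtain ⟨h1, h2⟩ := klam_congr h
    rw [wt_succ, wt_succ, h1, ih _ _ _ h2]

theorem sum_range_three (m : ℕ) (g : ℕ → ℝ) : ∑ n ∈ range (3 * m), g n =
    ∑ q ∈ range m, (g (3 * q) + g (3 * q + 1) + g (3 * q + 2)) := by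
  induction m with
  | zero => simp
  | succ m ih =>
    rw [Finset.sum_range_succ, ← ih]
    have : 3 * (m + 1) = 3 * m + 1 + 1 + 1 := by ring
    rw [this, Finset.sum_range_succ, Finset.sum_range_succ, Finset.sum_range_succ]
    ring

/-- Affine change of variable modulo `N`. -/
theorem sum_affine {N a b : ℕ} (hN : 0 < N) (ha : Nat.Coprime N a) (g : ℕ → ℝ)
    (hg : ∀ n n', n ≡ n' [MOD N] → g n = g n') :
    ∑ q ∈ range N, g (a * q + b) = ∑ q ∈ range N, g q := by
  have hinj : Set.InjOn (fun q => (a * q + b) % N) (range N : Finset ℕ) := by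
    intro x hx y hy hxy
    simp only [Finset.coe_range, Set.mem_Iio] at hx hy
    have h1 : a * x + b ≡ a * y + b [MOD N] := hxy
    have h2 : a * x ≡ a * y [MOD N] := Nat.ModEq.add_right_cancel' b h1
    have h3 : x ≡ y [MOD N] := Nat.ModEq.cancel_left_of_coprime ha h2
    exact Nat.ModEq.eq_of_lt_of_lt h3 hx hy
  have himg : (range N).image (fun q => (a * q + b) % N) = range N := by
    apply Finset.eq_of_subset_of_card_le
    · intro z hz
      rw [Finset.mem_image] at hz
      obtain ⟨q, _, rfl⟩ := hz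
      exact Finset.mem_range.mpr (Nat.mod_lt _ hN)
    · rw [Finset.card_image_of_injOn hinj]
  calc ∑ q ∈ range N, g (a * q + b) = ∑ q ∈ range N, g ((a * q + b) % N) := by
        apply Finset.sum_congr rfl
        intro q _
        exact hg _ _ (Nat.mod_modEq _ _).symm
    _ = ∑ q ∈ (range N).image (fun q => (a * q + b) % N), g q := by
        rw [Finset.sum_image hinj]
    _ = ∑ q ∈ range N, g q := by rw [himg]

theorem sum_wt (j : ℕ) : ∀ (w : ℕ → ℕ → ℝ),
    ∑ n ∈ range (3 ^ j), wt w j n = ∏ i ∈ range j, (w i 0 + w i 1 + w i 2) := by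
  induction j with
  | zero => intro w; simp [wt]
  | succ j ih =>
    intro w
    have hc2 : Nat.Coprime (3 ^ j) 2 := Nat.Coprime.pow_left j (by norm_num)
    have hc4 : Nat.Coprime (3 ^ j) 4 := Nat.Coprime.pow_left j (by norm_num)
    have hpos : 0 < 3 ^ j := by positivity
    rw [pow_succ', sum_range_three]
    have e0 : ∀ q, wt w (j + 1) (3 * q) = w 0 0 * wt (fun i => w (i + 1)) j (2 * q + 0) := by
      intro q
      rw [wt_succ]
      have h1 : 3 * q % 3 = 0 := by omega
      have h2 : klam (3 * q) = 2 * q := by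
        have := klam_mul_add q 0 (by norm_num); simpa using this
      rw [h1, h2, add_zero]
    have e1 : ∀ q, wt w (j + 1) (3 * q + 1) = w 0 1 * wt (fun i => w (i + 1)) j (4 * q + 1) := by
      intro q
      rw [wt_succ]
      have h1 : (3 * q + 1) % 3 = 1 := by omega
      have h2 : klam (3 * q + 1) = 4 * q + 1 := by
        have := klam_mul_add q 1 (by norm_num); simpa using this
      rw [h1, h2]
    have e2 : ∀ q, wt w (j + 1) (3 * q + 2) = w 0 2 * wt (fun i => w (i + 1)) j (4 * q + 3) := by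
      intro q
      rw [wt_succ]
      have h1 : (3 * q + 2) % 3 = 2 := by omega
      have h2 : klam (3 * q + 2) = 4 * q + 3 := by
        have := klam_mul_add q 2 (by norm_num); simpa using this
      rw [h1, h2]
    simp only [e0, e1, e2]
    rw [Finset.sum_add_distrib, Finset.sum_add_distrib, ← Finset.mul_sum, ← Finset.mul_sum,
      ← Finset.mul_sum, sum_affine hpos hc2 _ (wt_congr j _), sum_affine hpos hc4 _ (wt_congr j _),
      sum_affine hpos hc4 _ (wt_congr j _), ih, Finset.prod_range_succ']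
    ring

/-- The sum over any block of `3 ^ j` consecutive integers. -/
theorem sum_wt_block (w : ℕ → ℕ → ℝ) (j A : ℕ) :
    ∑ n ∈ range (3 ^ j), wt w j (A + n) = ∏ i ∈ range j, (w i 0 + w i 1 + w i 2) := by
  have h := sum_affine (N := 3 ^ j) (a := 1) (b := A) (by positivity) (Nat.coprime_one_right _)
    (wt w j) (wt_congr j w)
  rw [← sum_wt j w, ← h]
  apply Finset.sum_congr rfl
  intro n _
  rw [one_mul, add_comm]

end Pool.Agent.KLA
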