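import Pool.Agent.KLA.Pieces

/-!
Many starting points whose orbit rises for a long time.
-/

open Finset Filter

namespace Pool.Agent.KLA

/-- Multiplier of a branch. -/
noncomputable def mu (r : ℕ) : ℝ := if r = 0 then 2 / 3 else 4 / 3

theorem mu_pos (r : ℕ) : 0 < mu r := by unfold mu; split_ifs <;> norm_num

theorem klam_ge (z : ℕ) : mu (z % 3) * z - 1 / 3 ≤ klam z := by
  have hz : z % 3 = 0 ∨ z % 3 = 1 ∨ z % 3 = 2 := by omega
  rcases hz with h | h | h
  · have h1 := klam_of_dvd (show 3 ∣ z by omega)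
    have h2 : (3 : ℝ) * klam z = 2 * z := by exact_mod_cast h1
    unfold mu
    rw [h, if_pos rfl]
    linarith
  · have h1 := klam_of_one h
    have h2 : (3 : ℝ) * klam z + 1 = 4 * z := by exact_mod_cast h1
    unfold mu
    rw [h, if_neg (by norm_num)]
    linarith
  · have h1 := klam_of_two h
    have h2 : (3 : ℝ) * klam z = 4 * z + 1 := by exact_mod_cast h1
    unfold mu
    rw [h, if_neg (by norm_num)]
    linarith

/-- Product of the multipliers of the steps `K ≤ i < j`. -/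
noncomputable def Mp (K j n : ℕ) : ℝ := ∏ i ∈ Ico K j, mu (klam^[i] n % 3)

theorem Mp_pos (K j n : ℕ) : 0 < Mp K j n := Finset.prod_pos (fun _ _ => mu_pos _)

theorem Mp_succ {K j : ℕ} (h : K ≤ j) (n : ℕ) :
    Mp K (j + 1) n = Mp K j n * mu (klam^[j] n % 3) := by
  unfold Mp; rw [Finset.prod_Ico_succ_top h]

theorem Mp_split {K j : ℕ} (h : K ≤ j) (n : ℕ) : Mp 0 j n = Mp 0 K n * Mp K j n := by
  unfold Mp; rw [Finset.prod_Ico_consecutive _ (Nat.zero_le K) h]

/-- Growth along a path whose partial products are at least `1`. -/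
theorem growth {n : ℕ} (J : ℕ) (h1 : ∀ j ≤ J, 1 ≤ Mp 0 j n) :
    Mp 0 J n * (n - J / 3) ≤ klam^[J] n := by
  induction J with
  | zero => simp [Mp]
  | succ J ih =>
    have ih' := ih (fun j hj => h1 j (by omega))
    rw [Mp_succ (Nat.zero_le J), Function.iterate_succ_apply']
    have h2 := klam_ge (klam^[J] n)
    have h3 := h1 (J + 1) le_rfl
    rw [Mp_succ (Nat.zero_le J)] at h3
    have h4 := mu_pos (klam^[J] n % 3)
    have h5 : mu (klam^[J] n % 3) * (Mp 0 J n * (n - J / 3)) ≤ mu (klam^[J] n % 3) * klam^[J] n := by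
      gcongr
    push_cast
    nlinarith

/-- The first `K` steps ascend. -/
def Up (K n : ℕ) : Prop := ∀ i < K, klam^[i] n % 3 ≠ 0

theorem Up_Mp {K n : ℕ} (h : Up K n) : ∀ j ≤ K, Mp 0 j n = (4 / 3 : ℝ) ^ j := by
  intro j
  induction j with
  | zero => intro _; simp [Mp]
  | succ j ih =>
    intro hj
    rw [Mp_succ (Nat.zero_le j), ih (by omega), pow_succ]
    congr 1
    unfold mu
    rw [if_neg (h j (by omega))]

/-- Weights for counting. -/
noncomputable def ww (s : ℝ) (K j : ℕ) (i r : ℕ) : ℝ :=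
  if i < K then (if r = 0 then 0 else 1) else if i < j then (mu r) ^ (-s) else 1

noncomputable def lam (s : ℝ) : ℝ := ((2 / 3 : ℝ) ^ (-s) + 2 * (4 / 3 : ℝ) ^ (-s)) / 3

theorem lam_pos (s : ℝ) : 0 < lam s := by
  unfold lam
  have h1 : (0 : ℝ) < (2 / 3 : ℝ) ^ (-s) := Real.rpow_pos_of_pos (by norm_num) _
  have h2 : (0 : ℝ) < (4 / 3 : ℝ) ^ (-s) := Real.rpow_pos_of_pos (by norm_num) _
  positivity

theorem prod_ww (s : ℝ) {K j J : ℕ} (h1 : K ≤ j) (h2 : j ≤ J) :
    ∏ i ∈ range J, (ww s K j i 0 + ww s K j i 1 + ww s K j i 2) =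
      2 ^ K * 3 ^ (J - K) * lam s ^ (j - K) := by
  have e : ∀ i, ww s K j i 0 + ww s K j i 1 + ww s K j i 2 =
      if i < K then 2 else if i < j then 3 * lam s else 3 := by
    intro i
    by_cases h3 : i < K
    · simp only [ww, h3, if_true, one_ne_zero, OfNat.ofNat_ne_zero, if_false]
      norm_num
    · by_cases h4 : i < j
      · simp only [ww, h3, h4, lam, mu, if_true, one_ne_zero, OfNat.ofNat_ne_zero, if_false]
        ring
      · simp only [ww, h3, h4, if_false]
        norm_num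
  simp only [e]
  rw [← Finset.prod_range_mul_prod_Ico _ h2, ← Finset.prod_range_mul_prod_Ico _ h1]
  have p1 : ∏ i ∈ range K, (if i < K then (2 : ℝ) else if i < j then 3 * lam s else 3) = 2 ^ K := by
    rw [Finset.prod_congr rfl (g := fun _ => (2 : ℝ))]
    · simp
    · intro i hi; rw [if_pos (Finset.mem_range.mp hi)]
  have p2 : ∏ i ∈ Ico K j, (if i < K then (2 : ℝ) else if i < j then 3 * lam s else 3) =
      (3 * lam s) ^ (j - K) := by
    rw [Finset.prod_congr rfl (g := fun _ => 3 * lam s)]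
    · simp
    · intro i hi
      rw [Finset.mem_Ico] at hi
      rw [if_neg (by omega), if_pos hi.2]
  have p3 : ∏ i ∈ Ico j J, (if i < K then (2 : ℝ) else if i < j then 3 * lam s else 3) =
      3 ^ (J - j) := by
    rw [Finset.prod_congr rfl (g := fun _ => (3 : ℝ))]
    · simp
    · intro i hi
      rw [Finset.mem_Ico] at hi
      rw [if_neg (by omega), if_neg (by omega)]
  rw [p1, p2, p3, mul_pow]
  have : J - K = (j - K) + (J - j) := by omega
  rw [this, pow_add]
  ring

theorem wt_ww_nonneg (s : ℝ) (K j J n : ℕ) : 0 ≤ wt (ww s K j) J n := by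
  unfold wt
  apply Finset.prod_nonneg
  intro i _
  unfold ww
  have := mu_pos (klam^[i] n % 3)
  split_ifs
  · exact le_refl _
  · norm_num
  · positivity
  · norm_num

theorem wt_ww_eq (s : ℝ) {K j J n : ℕ} (h1 : K ≤ j) (h2 : j ≤ J) (hU : Up K n) :
    wt (ww s K j) J n = Mp K j n ^ (-s) := by
  unfold wt
  rw [← Finset.prod_range_mul_prod_Ico _ h2, ← Finset.prod_range_mul_prod_Ico _ h1]
  have p1 : ∏ i ∈ range K, ww s K j i (klam^[i] n % 3) = 1 := by
    apply Finset.prod_eq_one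
    intro i hi
    rw [Finset.mem_range] at hi
    unfold ww
    rw [if_pos hi, if_neg (hU i hi)]
  have p3 : ∏ i ∈ Ico j J, ww s K j i (klam^[i] n % 3) = 1 := by
    apply Finset.prod_eq_one
    intro i hi
    rw [Finset.mem_Ico] at hi
    unfold ww
    rw [if_neg (by omega), if_neg (by omega)]
  have p2 : ∏ i ∈ Ico K j, ww s K j i (klam^[i] n % 3) = Mp K j n ^ (-s) := by
    unfold Mp
    rw [← Real.finsetProd_rpow _ _ (fun i _ => (mu_pos _).le)]
    apply Finset.prod_congr rfl
    intro i hi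
    rw [Finset.mem_Ico] at hi
    unfold ww
    rw [if_neg (by omega), if_pos hi.2]
  rw [p1, p2, p3]
  ring

open Classical in
/-- Number of elements of a block with `K` initial ascents and a small partial product. -/
theorem count_small {s θ : ℝ} (hs : 0 ≤ s) (hθ : 0 < θ) {K j J : ℕ} (h1 : K ≤ j) (h2 : j ≤ J)
    (A : ℕ) :
    (((range (3 ^ J)).filter (fun n => Up K (A + n) ∧ Mp K j (A + n) ≤ θ)).card : ℝ) ≤
      2 ^ K * 3 ^ (J - K) * (θ ^ s * lam s ^ (j - K)) := by
  have h3 : ∑ n ∈ range (3 ^ J), wt (ww s K j) J (A + n) = 2 ^ K * 3 ^ (J - K) * lam s ^ (j - K) := by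
    rw [sum_wt_block, prod_ww s h1 h2]
  have hθs : 0 < θ ^ s := Real.rpow_pos_of_pos hθ s
  have h4 : (((range (3 ^ J)).filter (fun n => Up K (A + n) ∧ Mp K j (A + n) ≤ θ)).card : ℝ) *
      θ ^ (-s) ≤ ∑ n ∈ range (3 ^ J), wt (ww s K j) J (A + n) := by
    calc (((range (3 ^ J)).filter (fun n => Up K (A + n) ∧ Mp K j (A + n) ≤ θ)).card : ℝ) *
        θ ^ (-s) = ∑ n ∈ (range (3 ^ J)).filter (fun n => Up K (A + n) ∧ Mp K j (A + n) ≤ θ),
          θ ^ (-s) := by simp
      _ ≤ ∑ n ∈ (range (3 ^ J)).filter (fun n => Up K (A + n) ∧ Mp K j (A + n) ≤ θ),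
          wt (ww s K j) J (A + n) := by
          apply Finset.sum_le_sum
          intro n hn
          rw [Finset.mem_filter] at hn
          rw [wt_ww_eq s h1 h2 hn.2.1]
          exact Real.rpow_le_rpow_of_nonpos (Mp_pos _ _ _) hn.2.2 (by linarith)
      _ ≤ _ := Finset.sum_le_sum_of_subset_of_nonneg (Finset.filter_subset _ _)
          (fun n _ _ => wt_ww_nonneg s K j J _)
  rw [h3, Real.rpow_neg hθ.le] at h4
  rw [← div_eq_mul_inv, div_le_iff₀ hθs] at h4
  linarith

open Classical in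
theorem count_up {K J : ℕ} (h : K ≤ J) (A : ℕ) :
    (((range (3 ^ J)).filter (fun n => Up K (A + n))).card : ℝ) = 2 ^ K * 3 ^ (J - K) := by
  have h3 : ∑ n ∈ range (3 ^ J), wt (ww 0 K K) J (A + n) = 2 ^ K * 3 ^ (J - K) := by
    rw [sum_wt_block, prod_ww 0 le_rfl h]; simp
  rw [← h3, Finset.card_filter]
  push_cast
  apply Finset.sum_congr rfl
  intro n _
  split_ifs with hU
  · rw [wt_ww_eq 0 le_rfl h hU]; simp
  · unfold wt
    symm
    have : ∃ i < K, klam^[i] (A + n) % 3 = 0 := by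
      unfold Up at hU
      push Not at hU
      exact hU
    obtain ⟨i, hi, h0⟩ := this
    apply Finset.prod_eq_zero (Finset.mem_range.mpr (lt_of_lt_of_le hi h))
    unfold ww
    rw [if_pos hi, if_pos h0]

end Pool.Agent.KLA
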