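import Pool.Agent.KLA.Pieces2

/-!
Many pieces of the permutation below `x ^ (1 + δ)` which meet `[1, x]`.
-/

open Finset Filter Topology

namespace Pool.Agent.KLA

theorem log_sum : Real.log (2 / 3) + 2 * Real.log (4 / 3) = Real.log (32 / 27) := by
  rw [show (2 : ℝ) * Real.log (4 / 3) = Real.log ((4 / 3) ^ 2) by rw [Real.log_pow]; norm_num,
    ← Real.log_mul (by norm_num) (by norm_num)]
  norm_num

theorem exists_s {d : ℝ} (h : d < Real.log (32 / 27) / 3) :
    ∃ s : ℝ, 0 < s ∧ Real.exp (d * s) * lam s < 1 := by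
  set a := d - Real.log (2 / 3) with ha
  set b := d - Real.log (4 / 3) with hb
  have hg : ∀ s, Real.exp (d * s) * lam s = (Real.exp (a * s) + 2 * Real.exp (b * s)) / 3 := by
    intro s
    unfold lam
    rw [Real.rpow_def_of_pos (by norm_num), Real.rpow_def_of_pos (by norm_num)]
    have e1 : Real.exp (a * s) = Real.exp (d * s) * Real.exp (Real.log (2 / 3) * -s) := by
      rw [← Real.exp_add]; congr 1; rw [ha]; ring
    have e2 : Real.exp (b * s) = Real.exp (d * s) * Real.exp (Real.log (4 / 3) * -s) := by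
      rw [← Real.exp_add]; congr 1; rw [hb]; ring
    rw [e1, e2]
    ring
  have hd : HasDerivAt (fun s => (Real.exp (a * s) + 2 * Real.exp (b * s)) / 3)
      ((a + 2 * b) / 3) 0 := by
    have h1 : HasDerivAt (fun s : ℝ => Real.exp (a * s)) a 0 := by
      have := ((hasDerivAt_id (0 : ℝ)).const_mul a).exp
      simpa using this
    have h2 : HasDerivAt (fun s : ℝ => Real.exp (b * s)) b 0 := by
      have := ((hasDerivAt_id (0 : ℝ)).const_mul b).exp
      simpa using this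
    exact (h1.add (h2.const_mul 2)).div_const 3
  have hneg : (a + 2 * b) / 3 < 0 := by
    have := log_sum
    rw [ha, hb]
    linarith
  rw [hasDerivAt_iff_tendsto_slope] at hd
  have h1 := hd.eventually (gt_mem_nhds hneg)
  have h2 : ∀ᶠ s in 𝓝[>] (0 : ℝ), slope (fun s => (Real.exp (a * s) + 2 * Real.exp (b * s)) / 3) 0 s < 0 :=
    h1.filter_mono (nhdsWithin_mono _ (fun x hx => ne_of_gt hx))
  obtain ⟨s, hs1, hs2⟩ := (h2.and self_mem_nhdsWithin).exists
  have hs0 : 0 < s := hs2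
  refine ⟨s, hs0, ?_⟩
  rw [hg]
  rw [slope_def_field] at hs1
  have h3 : ((Real.exp (a * s) + 2 * Real.exp (b * s)) / 3 -
      (Real.exp (a * 0) + 2 * Real.exp (b * 0)) / 3) < 0 := by
    by_contra hc
    push Not at hc
    have : 0 ≤ ((Real.exp (a * s) + 2 * Real.exp (b * s)) / 3 -
      (Real.exp (a * 0) + 2 * Real.exp (b * 0)) / 3) / (s - 0) := by
      apply div_nonneg hc; linarith
    linarith
  simp only [mul_zero, Real.exp_zero] at h3
  linarith

/-- A good starting point. -/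
def Good (K J : ℕ) (θ₁ θ₂ : ℝ) (n : ℕ) : Prop :=
  Up K n ∧ (∀ j, K < j → j ≤ J → θ₁ < Mp K j n) ∧ θ₂ < Mp K J n

open Classical in
theorem count_good {s θ₁ d : ℝ} (hs : 0 < s) (hθ : 0 < θ₁) (hl : lam s < 1)
    {K J : ℕ} (h1 : K ≤ J) (h2 : θ₁ ^ s / (1 - lam s) ≤ 1 / 4)
    (h3 : (Real.exp (d * s) * lam s) ^ (J - K) ≤ 1 / 4) (A : ℕ) :
    (1 / 2 : ℝ) * (2 ^ K * 3 ^ (J - K)) ≤
      (((range (3 ^ J)).filter (fun n => Good K J θ₁ (Real.exp (d * (J - K : ℕ))) (A + n))).card : ℝ) := by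
  set T : ℝ := 2 ^ K * 3 ^ (J - K) with hT
  have hT0 : 0 < T := by positivity
  set θ₂ : ℝ := Real.exp (d * (J - K : ℕ)) with hθ₂
  set U := (range (3 ^ J)).filter (fun n => Up K (A + n)) with hU
  set B := fun j => (range (3 ^ J)).filter (fun n => Up K (A + n) ∧ Mp K j (A + n) ≤ θ₁) with hB
  set B' := (range (3 ^ J)).filter (fun n => Up K (A + n) ∧ Mp K J (A + n) ≤ θ₂) with hB'
  set G := (range (3 ^ J)).filter (fun n => Good K J θ₁ θ₂ (A + n)) with hG
  have hsub : U ⊆ G ∪ ((Ioc K J).biUnion B ∪ B') := by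
    intro n hn
    rw [hU, Finset.mem_filter] at hn
    by_cases hg : Good K J θ₁ θ₂ (A + n)
    · exact Finset.mem_union_left _ (Finset.mem_filter.mpr ⟨hn.1, hg⟩)
    · apply Finset.mem_union_right
      unfold Good at hg
      by_cases c1 : ∀ j, K < j → j ≤ J → θ₁ < Mp K j (A + n)
      · apply Finset.mem_union_right
        rw [hB', Finset.mem_filter]
        refine ⟨hn.1, hn.2, ?_⟩
        by_contra hc
        push Not at hc
        exact hg ⟨hn.2, c1, hc⟩
      · push Not at c1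
        obtain ⟨j, hj1, hj2, hj3⟩ := c1
        apply Finset.mem_union_left
        rw [Finset.mem_biUnion]
        exact ⟨j, Finset.mem_Ioc.mpr ⟨hj1, hj2⟩, Finset.mem_filter.mpr ⟨hn.1, hn.2, hj3⟩⟩
  have hcard : (U.card : ℝ) ≤ G.card + (∑ j ∈ Ioc K J, ((B j).card : ℝ) + B'.card) := by
    have h4 := Finset.card_le_card hsub
    have h5 := Finset.card_union_le G ((Ioc K J).biUnion B ∪ B')
    have h6 := Finset.card_union_le ((Ioc K J).biUnion B) B'
    have h7 : ((Ioc K J).biUnion B).card ≤ ∑ j ∈ Ioc K J, (B j).card := Finset.card_biUnion_le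
    have h8 : U.card ≤ G.card + (∑ j ∈ Ioc K J, (B j).card + B'.card) := by omega
    exact_mod_cast h8
  have hU' : (U.card : ℝ) = T := count_up h1 A
  have hBj : ∀ j ∈ Ioc K J, ((B j).card : ℝ) ≤ T * (θ₁ ^ s * lam s ^ (j - K)) := by
    intro j hj
    rw [Finset.mem_Ioc] at hj
    exact count_small hs.le hθ (by omega) hj.2 A
  have hB'c : (B'.card : ℝ) ≤ T * (1 / 4) := by
    have h4 := count_small hs.le (Real.exp_pos (d * (J - K : ℕ))) h1 le_rfl A
    refine h4.trans ?_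
    apply mul_le_mul_of_nonneg_left _ hT0.le
    refine le_trans (le_of_eq ?_) h3
    rw [mul_pow, ← Real.exp_mul, ← Real.exp_nat_mul]
    congr 2
    ring
  have hsum : ∑ j ∈ Ioc K J, ((B j).card : ℝ) ≤ T * (1 / 4) := by
    refine (Finset.sum_le_sum hBj).trans ?_
    rw [← Finset.mul_sum, ← Finset.mul_sum]
    apply mul_le_mul_of_nonneg_left _ hT0.le
    refine le_trans ?_ h2
    have hθs : 0 < θ₁ ^ s := Real.rpow_pos_of_pos hθ s
    rw [div_eq_mul_inv]
    apply mul_le_mul_of_nonneg_left _ hθs.le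
    have hl0 := lam_pos s
    have h5 : ∑ j ∈ Ioc K J, lam s ^ (j - K) ≤ ∑ j ∈ range (J - K + 1), lam s ^ j := by
      have e : (Ioc K J).image (fun j => j - K) ⊆ range (J - K + 1) := by
        intro z hz
        rw [Finset.mem_image] at hz
        obtain ⟨j, hj, rfl⟩ := hz
        rw [Finset.mem_Ioc] at hj
        rw [Finset.mem_range]; omega
      have hinj : Set.InjOn (fun j => j - K) (Ioc K J : Finset ℕ) := by
        intro x hx y hy hxy
        simp only [Finset.coe_Ioc, Set.mem_Ioc] at hx hy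
        simp only at hxy
        omega
      rw [← Finset.sum_image (f := fun i => lam s ^ i) hinj]
      exact Finset.sum_le_sum_of_subset_of_nonneg e (fun i _ _ => by positivity)
    refine h5.trans ?_
    have h6 := geom_sum_eq hl.ne (J - K + 1)
    rw [h6]
    rw [← neg_div_neg_eq, div_eq_mul_inv]
    have h7 : -(lam s - 1) = 1 - lam s := by ring
    rw [h7]
    have h8 : -(lam s ^ (J - K + 1) - 1) ≤ 1 := by
      have : 0 ≤ lam s ^ (J - K + 1) := by positivity
      linarith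
    have h9 : 0 ≤ (1 - lam s)⁻¹ := inv_nonneg.mpr (by linarith)
    nlinarith
  linarith

/-- Properties of a good starting point near `x`. -/
theorem good_orbit {K J x a : ℕ} {d : ℝ} (hK : 1 ≤ K) (hKJ : K ≤ J)
    (hJ : 20 * 3 ^ J ≤ x) (ha : x + 1 ≤ a + 3 ^ J)
    (hG : Good K J ((3 / 4 : ℝ) ^ (K - 1)) (Real.exp (d * (J - K : ℕ))) a) :
    (∀ j, 1 ≤ j → j ≤ J → x < klam^[j] a) ∧
      Real.exp (d * (J - K : ℕ)) * x ≤ klam^[J] a := by
  obtain ⟨hU, h1, h2⟩ := hG
  have hM : ∀ j, 1 ≤ j → j ≤ J → (4 / 3 : ℝ) ≤ Mp 0 j a := by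
    intro j hj1 hj2
    rcases Nat.lt_or_ge K j with h | h
    · have h3 := h1 j h hj2
      rw [Mp_split h.le, Up_Mp hU K le_rfl]
      have e : (4 / 3 : ℝ) ^ K * (3 / 4 : ℝ) ^ (K - 1) = 4 / 3 := by
        obtain ⟨m, rfl⟩ : ∃ m, K = m + 1 := ⟨K - 1, by omega⟩
        rw [Nat.add_sub_cancel, pow_succ, mul_right_comm, ← mul_pow]
        norm_num
      have h4 : 0 < (4 / 3 : ℝ) ^ K := by positivity
      nlinarith
    · rw [Up_Mp hU j h]
      calc (4 / 3 : ℝ) = (4 / 3 : ℝ) ^ 1 := by norm_num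
        _ ≤ (4 / 3 : ℝ) ^ j := pow_le_pow_right₀ (by norm_num) hj1
  have hM' : ∀ j ≤ J, 1 ≤ Mp 0 j a := by
    intro j hj
    rcases Nat.eq_zero_or_pos j with h | h
    · subst h; simp [Mp]
    · have := hM j h hj; linarith
  have hJ3 : J ≤ 3 ^ J := (Nat.lt_pow_self (by norm_num)).le
  have ha' : (0.95 : ℝ) * x ≤ a := by
    have h3 : 20 * (x + 1) ≤ 20 * a + x := by omega
    have h4 : (20 : ℝ) * (x + 1) ≤ 20 * a + x := by exact_mod_cast h3
    linarith
  have hJx : (20 : ℝ) * J ≤ x := by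
    have : 20 * J ≤ x := by omega
    exact_mod_cast this
  have hx0 : (0 : ℝ) < x := by
    have h3 : 0 < 3 ^ J := by positivity
    have : 0 < x := by omega
    exact_mod_cast this
  constructor
  · intro j hj1 hj2
    have h3 := growth (n := a) j (fun i hi => hM' i (by omega))
    have h4 := hM j hj1 hj2
    have h5 : (j : ℝ) ≤ J := by exact_mod_cast hj2
    have h6 : (0.93 : ℝ) * x ≤ a - j / 3 := by linarith
    have h7 : (4 / 3 : ℝ) * (0.93 * x) ≤ Mp 0 j a * (a - j / 3) := by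
      apply mul_le_mul h4 h6 (by positivity) (by linarith)
    have h8 : (x : ℝ) < klam^[j] a := by linarith
    exact_mod_cast h8
  · have h3 := growth (n := a) J (fun i hi => hM' i hi)
    rw [Mp_split hKJ, Up_Mp hU K le_rfl] at h3
    have h4 : (4 / 3 : ℝ) ≤ (4 / 3 : ℝ) ^ K := by
      calc (4 / 3 : ℝ) = (4 / 3 : ℝ) ^ 1 := by norm_num
        _ ≤ (4 / 3 : ℝ) ^ K := pow_le_pow_right₀ (by norm_num) hK
    have h6 : (0.93 : ℝ) * x ≤ a - J / 3 := by linarith
    have h7 : 0 < Real.exp (d * (J - K : ℕ)) := Real.exp_pos _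
    have h8 : (4 / 3 : ℝ) * Real.exp (d * (J - K : ℕ)) ≤ (4 / 3 : ℝ) ^ K * Mp K J a :=
      mul_le_mul h4 h2.le h7.le (by positivity)
    have h9 : (4 / 3 : ℝ) * Real.exp (d * (J - K : ℕ)) * (0.93 * x) ≤
        (4 / 3 : ℝ) ^ K * Mp K J a * (a - J / 3) := by
      apply mul_le_mul h8 h6 (by positivity)
      have := Mp_pos K J a
      positivity
    nlinarith [mul_pos h7 hx0]

open Classical in
theorem pieces {δ : ℝ} (hδ : δ < Real.log (32 / 27) / (3 * Real.log 3)) :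
    ∃ c : ℝ, 0 < c ∧ ∃ X₀ : ℕ, ∀ x : ℕ, X₀ ≤ x → ∃ S : Finset ℕ, S ⊆ Finset.Icc 1 x ∧
      c * x ≤ S.card ∧ ∀ a ∈ S, ∀ b ∈ S, ∀ k, 0 < k → klam^[k] a = b →
        ∃ j < k, (x : ℝ) ^ (1 + δ) < klam^[j] a := by
  have hl3 : 0 < Real.log 3 := Real.log_pos (by norm_num)
  have hμ : 0 < Real.log (32 / 27) / 3 := by
    have : 0 < Real.log (32 / 27) := Real.log_pos (by norm_num)
    positivity
  set e := max δ 0 with he
  have he0 : 0 ≤ e := le_max_right _ _
  have he1 : e * Real.log 3 < Real.log (32 / 27) / 3 := by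
    rw [he]
    rcases max_cases δ 0 with ⟨h, _⟩ | ⟨h, _⟩
    · rw [h]
      rw [lt_div_iff₀ (by positivity)] at hδ
      linarith
    · rw [h]; linarith
  obtain ⟨d, hd1, hd2⟩ := exists_between he1
  have hd0 : 0 < d := lt_of_le_of_lt (by positivity) hd1
  obtain ⟨s, hs, hs2⟩ := exists_s hd2
  have hl : lam s < 1 := by
    have h1 : 1 ≤ Real.exp (d * s) := Real.one_le_exp (by positivity)
    have h2 := lam_pos s
    nlinarith
  have hl0 := lam_pos s
  -- choice of K
  have hK : ∃ K : ℕ, 1 ≤ K ∧ ((3 / 4 : ℝ) ^ (K - 1)) ^ s / (1 - lam s) ≤ 1 / 4 := by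
    have h1 : (3 / 4 : ℝ) ^ s < 1 := Real.rpow_lt_one (by norm_num) (by norm_num) hs
    have h0 : 0 < (3 / 4 : ℝ) ^ s := Real.rpow_pos_of_pos (by norm_num) s
    obtain ⟨m, hm⟩ := exists_pow_lt_of_lt_one (y := (3 / 4 : ℝ) ^ s) (x := (1 - lam s) / 4)
      (by linarith) h1
    refine ⟨m + 1, by omega, ?_⟩
    rw [Nat.add_sub_cancel, div_le_iff₀ (by linarith), ← Real.rpow_natCast, ← Real.rpow_mul (by norm_num),
      mul_comm (m : ℝ) s, Real.rpow_mul (by norm_num), Real.rpow_natCast]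
    linarith
  obtain ⟨K, hK1, hK2⟩ := hK
  -- choice of J₀
  have hρ0 : 0 ≤ Real.exp (d * s) * lam s := by positivity
  obtain ⟨m, hm⟩ := exists_pow_lt_of_lt_one (show (0 : ℝ) < 1 / 4 by norm_num) hs2
  obtain ⟨J₁, hJ₁⟩ : ∃ J₁ : ℕ, ∀ J : ℕ, J₁ ≤ J →
      d * K + e * Real.log 80 < (d - e * Real.log 3) * J := by
    obtain ⟨J₁, hJ₁⟩ := exists_nat_gt ((d * K + e * Real.log 80) / (d - e * Real.log 3))
    refine ⟨J₁, fun J hJ => ?_⟩
    have h1 : (J₁ : ℝ) ≤ J := by exact_mod_cast hJ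
    have h2 : (d * K + e * Real.log 80) / (d - e * Real.log 3) < J := by linarith
    rw [div_lt_iff₀ (by linarith)] at h2
    linarith
  set J₀ := K + m + J₁ with hJ₀
  refine ⟨(2 / 3 : ℝ) ^ K / 160, by positivity, 20 * 3 ^ J₀, ?_⟩
  intro x hx
  set J := Nat.log 3 (x / 20) with hJ
  have hx20 : 3 ^ J₀ ≤ x / 20 := by
    rw [Nat.le_div_iff_mul_le (by norm_num)]; omega
  have hpos20 : x / 20 ≠ 0 := by
    have : 0 < 3 ^ J₀ := by positivity
    omega
  have hJJ : J₀ ≤ J := (Nat.le_log_iff_pow_le (by norm_num) hpos20).mpr hx20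
  have hJ1 : 3 ^ J ≤ x / 20 := Nat.pow_log_le_self 3 hpos20
  have hJ2 : x / 20 < 3 ^ (J + 1) := Nat.lt_pow_succ_log_self (by norm_num) _
  have hJx : 20 * 3 ^ J ≤ x := by omega
  have hx80 : x ≤ 80 * 3 ^ J := by
    have h1 : 1 ≤ 3 ^ J := Nat.one_le_pow _ _ (by norm_num)
    rw [pow_succ] at hJ2
    omega
  have hKJ : K ≤ J := by omega
  have hρJ : (Real.exp (d * s) * lam s) ^ (J - K) ≤ 1 / 4 := by
    refine le_trans ?_ hm.le
    exact pow_le_pow_of_le_one hρ0 hs2.le (by omega)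
  set A := x + 1 - 3 ^ J with hA
  have h3J : 3 ^ J ≤ x := by omega
  have hcount := count_good (d := d) hs (show (0 : ℝ) < (3 / 4 : ℝ) ^ (K - 1) by positivity) hl hKJ hK2 hρJ A
  set Gd := (range (3 ^ J)).filter (fun n => Good K J ((3 / 4 : ℝ) ^ (K - 1)) (Real.exp (d * (J - K : ℕ))) (A + n)) with hGd
  refine ⟨Gd.image (fun n => A + n), ?_, ?_, ?_⟩
  · intro z hz
    rw [Finset.mem_image] at hz
    obtain ⟨n, hn, rfl⟩ := hz
    rw [hGd, Finset.mem_filter, Finset.mem_range] at hn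
    rw [Finset.mem_Icc]
    omega
  · rw [Finset.card_image_of_injective _ (add_right_injective A)]
    refine le_trans ?_ hcount
    have h1 : (x : ℝ) ≤ 80 * 3 ^ J := by exact_mod_cast hx80
    have h2 : (3 : ℝ) ^ J = 3 ^ K * 3 ^ (J - K) := by rw [← pow_add]; congr 1; omega
    rw [h2] at h1
    have h3 : (2 / 3 : ℝ) ^ K * 3 ^ K = 2 ^ K := by rw [← mul_pow]; norm_num
    calc (2 / 3 : ℝ) ^ K / 160 * x ≤ (2 / 3 : ℝ) ^ K / 160 * (80 * (3 ^ K * 3 ^ (J - K))) := by
          gcongr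
      _ = 1 / 2 * (((2 / 3 : ℝ) ^ K * 3 ^ K) * 3 ^ (J - K)) := by ring
      _ = _ := by rw [h3]
  · have hmem : ∀ a ∈ Gd.image (fun n => A + n), a ≤ x ∧ (∀ j, 1 ≤ j → j ≤ J → x < klam^[j] a) ∧
        Real.exp (d * (J - K : ℕ)) * x ≤ klam^[J] a := by
      intro a ha
      rw [Finset.mem_image] at ha
      obtain ⟨n, hn, rfl⟩ := ha
      rw [hGd, Finset.mem_filter, Finset.mem_range] at hn
      exact ⟨by omega, good_orbit hK1 hKJ hJx (by omega) hn.2⟩
    intro a ha b hb k hk hab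
    obtain ⟨-, ha2, ha3⟩ := hmem a ha
    obtain ⟨hb1, -, -⟩ := hmem b hb
    have hkJ : J < k := by
      by_contra hc
      push Not at hc
      have := ha2 k hk hc
      omega
    refine ⟨J, hkJ, lt_of_lt_of_le ?_ ha3⟩
    have hx0 : (0 : ℝ) < x := by
      have h1 : 0 < 3 ^ J := by positivity
      have : 0 < x := by omega
      exact_mod_cast this
    have hx1 : (1 : ℝ) ≤ x := by
      have h1 : 0 < 3 ^ J := by positivity
      have : 1 ≤ x := by omega
      exact_mod_cast this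
    rw [Real.rpow_add hx0, Real.rpow_one, mul_comm]
    apply mul_lt_mul_of_pos_right _ hx0
    have h1 : (x : ℝ) ^ δ ≤ (x : ℝ) ^ e := Real.rpow_le_rpow_of_exponent_le hx1 (le_max_left _ _)
    have h2 : (x : ℝ) ^ e ≤ ((80 : ℝ) * 3 ^ J) ^ e := by
      apply Real.rpow_le_rpow hx0.le _ he0
      exact_mod_cast hx80
    have h3 : ((80 : ℝ) * 3 ^ J) ^ e = Real.exp (e * Real.log 80 + e * Real.log 3 * J) := by
      rw [Real.rpow_def_of_pos (by positivity), Real.log_mul (by norm_num) (by positivity),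
        Real.log_pow]
      congr 1
      ring
    have h4 : Real.exp (e * Real.log 80 + e * Real.log 3 * J) < Real.exp (d * (J - K : ℕ)) := by
      apply Real.exp_lt_exp.mpr
      have h5 := hJ₁ J (by omega)
      have h6 : ((J - K : ℕ) : ℝ) = (J : ℝ) - K := by push_cast [hKJ]; ring
      rw [h6]
      nlinarith
    linarith

end Pool.Agent.KLA
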