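import Mathlib

/-!
Iterated Rolle theorem for towers of derivatives, the error formula of Lagrange interpolation,
and the count of real zeros of exponential polynomials.
-/

open Polynomial Finset

namespace Pool.Agent.KLA

/-- `g` has (at least) `n` distinct zeros in `[a,b]`. -/
def ZerosIn (g : ℝ → ℝ) (a b : ℝ) (n : ℕ) : Prop :=
  ∃ z : Fin n → ℝ, StrictMono z ∧ (∀ i, z i ∈ Set.Icc a b) ∧ ∀ i, g (z i) = 0

theorem ZerosIn.step {g g' : ℝ → ℝ} (hg : ∀ x, HasDerivAt g (g' x) x) {a b : ℝ} {n : ℕ}
    (h : ZerosIn g a b (n + 1)) : ZerosIn g' a b n := by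
  obtain ⟨z, hz, hab, h0⟩ := h
  have key : ∀ i : Fin n, ∃ c ∈ Set.Ioo (z i.castSucc) (z i.succ), g' c = 0 := by
    intro i
    refine exists_hasDerivAt_eq_zero (hz (Fin.castSucc_lt_succ)) ?_ ?_ (fun x _ => hg x)
    · exact fun x _ => (hg x).continuousAt.continuousWithinAt
    · rw [h0, h0]
  choose w hw hw0 using key
  refine ⟨w, ?_, ?_, hw0⟩
  · intro i j hij
    have h1 := (hw i).2
    have h2 := (hw j).1
    have h3 : z i.succ ≤ z j.castSucc := by
      apply hz.monotone
      rw [Fin.le_def]
      simp only [Fin.val_succ, Fin.val_castSucc]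
      exact hij
    linarith
  · intro i
    exact ⟨(hab i.castSucc).1.trans (hw i).1.le, (hw i).2.le.trans (hab i.succ).2⟩

theorem ZerosIn.mono {g : ℝ → ℝ} {a b : ℝ} {m n : ℕ} (hmn : m ≤ n)
    (h : ZerosIn g a b n) : ZerosIn g a b m := by
  obtain ⟨z, hz, hab, h0⟩ := h
  refine ⟨fun i => z (Fin.castLE hmn i), ?_, fun i => hab _, fun i => h0 _⟩
  intro i j hij
  apply hz
  rw [Fin.lt_def] at hij ⊢
  exact hij

theorem ZerosIn.tower {D : ℕ → ℝ → ℝ} (hD : ∀ k x, HasDerivAt (D k) (D (k + 1) x) x)
    {a b : ℝ} {n : ℕ} : ∀ k : ℕ, ZerosIn (D 0) a b (n + k) → ZerosIn (D k) a b n := by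
  intro k
  induction k generalizing n with
  | zero => intro h; simpa using h
  | succ k ih =>
    intro h
    have h1 : ZerosIn (D k) a b (n + 1) := ih (n := n + 1) (by
      have : n + 1 + k = n + (k + 1) := by ring
      rw [this]; exact h)
    exact h1.step (hD k)

theorem ZerosIn.of_finset {g : ℝ → ℝ} {a b : ℝ} (s : Finset ℝ) (hs : ∀ x ∈ s, x ∈ Set.Icc a b)
    (h0 : ∀ x ∈ s, g x = 0) : ZerosIn g a b s.card := by
  refine ⟨fun i => s.orderEmbOfFin rfl i, (s.orderEmbOfFin rfl).strictMono, ?_, ?_⟩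
  · intro i
    exact hs _ (s.orderEmbOfFin_mem rfl i)
  · intro i
    exact h0 _ (s.orderEmbOfFin_mem rfl i)

/-- Error formula of Lagrange interpolation for a tower of derivatives. -/
theorem lagrange_error {ι : Type*} [DecidableEq ι] {D : ℕ → ℝ → ℝ}
    (hD : ∀ k x, HasDerivAt (D k) (D (k + 1) x) x) {a b : ℝ}
    (s : Finset ι) (v : ι → ℝ) (hv : Set.InjOn v s) (hvab : ∀ i ∈ s, v i ∈ Set.Icc a b)
    (x₀ : ℝ) (hx₀ : x₀ ∈ Set.Icc a b) (hne : ∀ i ∈ s, x₀ ≠ v i) :
    ∃ ξ ∈ Set.Icc a b, D 0 x₀ = eval x₀ (Lagrange.interpolate s v (fun i => D 0 (v i))) +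
      D s.card ξ / (s.card.factorial : ℝ) * ∏ i ∈ s, (x₀ - v i) := by
  classical
  set P : ℝ[X] := Lagrange.interpolate s v (fun i => D 0 (v i)) with hP
  set Nn : ℝ[X] := Lagrange.nodal s v with hNn
  have hN0 : eval x₀ Nn ≠ 0 := Lagrange.eval_nodal_not_at_node hne
  set c : ℝ := (D 0 x₀ - eval x₀ P) / eval x₀ Nn with hc
  set Q : ℝ[X] := P + C c * Nn with hQ
  set E : ℕ → ℝ → ℝ := fun k x => D k x - eval x (derivative^[k] Q) with hE
  have hE' : ∀ k x, HasDerivAt (E k) (E (k + 1) x) x := by
    intro k x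
    have h1 := (hD k x).sub ((derivative^[k] Q).hasDerivAt x)
    simp only [hE]
    rw [Function.iterate_succ_apply']
    exact h1
  have hzero : ∀ x ∈ insert x₀ (s.image v), E 0 x = 0 := by
    intro x hx
    rw [Finset.mem_insert] at hx
    rcases hx with rfl | hx
    · simp only [hE, hQ, Function.iterate_zero, id_eq, eval_add, eval_mul, eval_C, hc]
      field_simp
      ring
    · rw [Finset.mem_image] at hx
      obtain ⟨i, hi, rfl⟩ := hx
      simp only [hE, hQ, Function.iterate_zero, id_eq, eval_add, eval_mul, eval_C]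
      rw [hNn, Lagrange.eval_nodal_at_node hi, hP, Lagrange.eval_interpolate_at_node _ hv hi]
      ring
  have hcard : (insert x₀ (s.image v)).card = 1 + s.card := by
    rw [Finset.card_insert_of_notMem, Finset.card_image_of_injOn hv, add_comm]
    intro hx
    rw [Finset.mem_image] at hx
    obtain ⟨i, hi, h⟩ := hx
    exact hne i hi h.symm
  have hz := ZerosIn.of_finset (g := E 0) (a := a) (b := b) (insert x₀ (s.image v)) (by
    intro x hx
    rw [Finset.mem_insert] at hx
    rcases hx with rfl | hx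
    · exact hx₀
    · rw [Finset.mem_image] at hx
      obtain ⟨i, hi, rfl⟩ := hx
      exact hvab i hi) hzero
  rw [hcard] at hz
  have hz2 := ZerosIn.tower hE' s.card hz
  obtain ⟨z, -, hzab, hz0⟩ := hz2
  refine ⟨z 0, hzab 0, ?_⟩
  have h0 := hz0 0
  simp only [hE] at h0
  have hder : derivative^[s.card] Q = C (c * (s.card.factorial : ℝ)) := by
    rw [hQ, iterate_map_add (f := (derivative : ℝ[X] →ₗ[ℝ] ℝ[X])), iterate_derivative_C_mul]
    have h1 : derivative^[s.card] P = 0 := by
      rcases Nat.eq_zero_or_pos s.card with h | h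
      · have : s = ∅ := Finset.card_eq_zero.mp h
        subst this
        simp [hP]
      · by_cases hP0 : P = 0
        · rw [hP0, iterate_derivative_zero]
        · apply iterate_derivative_eq_zero
          exact (natDegree_lt_iff_degree_lt hP0).mpr (Lagrange.degree_interpolate_lt _ hv)
    have h2 : derivative^[s.card] Nn = C ((s.card.factorial : ℝ)) := by
      have hnd : (derivative^[s.card] Nn).natDegree = 0 := by
        have h3 := natDegree_iterate_derivative Nn s.card
        have h4 : Nn.natDegree = s.card := Lagrange.natDegree_nodal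
        omega
      rw [eq_C_of_natDegree_eq_zero hnd, coeff_iterate_derivative]
      have hm : Nn.coeff (0 + s.card) = 1 := by
        have := Lagrange.nodal_monic (s := s) (v := v)
        rw [Monic, leadingCoeff, Lagrange.natDegree_nodal] at this
        rw [zero_add]; exact this
      rw [hm, zero_add, Nat.descFactorial_self]
      simp
    rw [h1, h2, zero_add, ← C_mul]
  rw [hder, eval_C] at h0
  have hfac : (s.card.factorial : ℝ) ≠ 0 := by positivity
  have hDc : D s.card (z 0) / (s.card.factorial : ℝ) = c := by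
    rw [div_eq_iff hfac]; linarith
  rw [hDc, ← Lagrange.eval_nodal]
  change D 0 x₀ = eval x₀ P + c * eval x₀ Nn
  rw [hc]
  field_simp
  ring

/-- The operator `P ↦ P' + c P`, the derivative on polynomials times `exp (c x)`. -/
noncomputable def T (c : ℝ) : ℝ[X] →ₗ[ℝ] ℝ[X] := derivative + c • LinearMap.id

theorem T_apply (c : ℝ) (P : ℝ[X]) : T c P = derivative P + C c * P := by
  simp [T, smul_eq_C_mul]

theorem hasDerivAt_T (c : ℝ) (P : ℝ[X]) (x : ℝ) :
    HasDerivAt (fun x => eval x P * Real.exp (c * x)) (eval x (T c P) * Real.exp (c * x)) x := by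
  have h1 := P.hasDerivAt x
  have h2 : HasDerivAt (fun x => Real.exp (c * x)) (Real.exp (c * x) * (c * 1)) x :=
    ((hasDerivAt_id x).const_mul c).exp
  have h3 := h1.mul h2
  rw [T_apply, eval_add, eval_mul, eval_C]
  refine h3.congr_deriv ?_
  ring

theorem hasDerivAt_T_pow (c : ℝ) (P : ℝ[X]) (k : ℕ) (x : ℝ) :
    HasDerivAt (fun x => eval x ((T c ^ k) P) * Real.exp (c * x))
      (eval x ((T c ^ (k + 1)) P) * Real.exp (c * x)) x := by
  have := hasDerivAt_T c ((T c ^ k) P) x
  rwa [pow_succ', Module.End.mul_apply]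

theorem T_degree_lt {c : ℝ} {P : ℝ[X]} {n : ℕ} (h : P.degree < n) : (T c P).degree < n := by
  rw [T_apply]
  refine lt_of_le_of_lt (degree_add_le _ _) (max_lt ?_ ?_)
  · exact lt_of_le_of_lt (degree_derivative_le) h
  · refine lt_of_le_of_lt (degree_mul_le _ _) ?_
    calc (C c).degree + P.degree ≤ 0 + P.degree := by gcongr; exact degree_C_le
      _ = P.degree := zero_add _
      _ < n := h

theorem T_pow_degree_lt {c : ℝ} {P : ℝ[X]} {n : ℕ} (k : ℕ) (h : P.degree < n) :
    ((T c ^ k) P).degree < n := by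
  induction k with
  | zero => simpa using h
  | succ k ih => rw [pow_succ', Module.End.mul_apply]; exact T_degree_lt ih

theorem T_eq_zero {c : ℝ} (hc : c ≠ 0) {P : ℝ[X]} (h : T c P = 0) : P = 0 := by
  by_contra hP
  rw [T_apply] at h
  have h1 : (derivative P).degree < (C c * P).degree := by
    rw [degree_C_mul hc]
    exact degree_derivative_lt hP
  have h2 := degree_add_eq_right_of_degree_lt h1
  rw [h, degree_C_mul hc, degree_zero] at h2
  exact hP (degree_eq_bot.mp h2.symm)

theorem T_pow_eq_zero {c : ℝ} (hc : c ≠ 0) (k : ℕ) {P : ℝ[X]} (h : (T c ^ k) P = 0) : P = 0 := by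
  induction k with
  | zero => simpa using h
  | succ k ih =>
    rw [pow_succ', Module.End.mul_apply] at h
    exact ih (T_eq_zero hc h)

theorem T_zero_pow (k : ℕ) (P : ℝ[X]) : (T 0 ^ k) P = derivative^[k] P := by
  induction k with
  | zero => simp
  | succ k ih =>
    rw [pow_succ', Module.End.mul_apply, ih, Function.iterate_succ_apply', T_apply]
    simp

/-- Bound for the derivatives of `x ^ i * exp (c x)` on `[0,X]`. -/
theorem T_pow_X_bound {c X : ℝ} (hc : 0 ≤ c) (hX : 0 < X) {x : ℝ} (hx0 : 0 ≤ x) (hxX : x ≤ X) :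
    ∀ (k i : ℕ), 0 ≤ eval x ((T c ^ k) (Polynomial.X ^ i)) ∧
      eval x ((T c ^ k) (Polynomial.X ^ i)) ≤ X ^ i * (c + i / X) ^ k := by
  intro k
  induction k with
  | zero =>
    intro i
    simp only [pow_zero, Module.End.one_apply, eval_pow, eval_X, mul_one]
    exact ⟨pow_nonneg hx0 _, pow_le_pow_left₀ hx0 hxX _⟩
  | succ k ih =>
    intro i
    have e : (T c ^ (k + 1)) (Polynomial.X ^ i : ℝ[X]) =
        (i : ℝ) • (T c ^ k) (Polynomial.X ^ (i - 1)) + c • (T c ^ k) (Polynomial.X ^ i) := by
      rw [pow_succ, Module.End.mul_apply, T_apply, derivative_X_pow, map_add, ← smul_eq_C_mul,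
        ← smul_eq_C_mul, map_smul, map_smul]
    rw [e, eval_add, eval_smul, eval_smul, smul_eq_mul, smul_eq_mul]
    obtain ⟨h1, h2⟩ := ih (i - 1)
    obtain ⟨h3, h4⟩ := ih i
    refine ⟨by positivity, ?_⟩
    have hi : (i : ℝ) * eval x ((T c ^ k) (Polynomial.X ^ (i - 1))) ≤
        X ^ i * (c + i / X) ^ k * (i / X) := by
      rcases Nat.eq_zero_or_pos i with rfl | hpos
      · simp
      · calc (i : ℝ) * eval x ((T c ^ k) (Polynomial.X ^ (i - 1)))
            ≤ (i : ℝ) * (X ^ (i - 1) * (c + (i - 1 : ℕ) / X) ^ k) := by gcongr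
          _ ≤ (i : ℝ) * (X ^ (i - 1) * (c + i / X) ^ k) := by
              gcongr
              exact Nat.sub_le _ _
          _ = X ^ i * (c + i / X) ^ k * (i / X) := by
              obtain ⟨j, rfl⟩ : ∃ j, i = j + 1 := ⟨i - 1, by omega⟩
              rw [Nat.add_sub_cancel, pow_succ X j]
              field_simp
    calc (i : ℝ) * eval x ((T c ^ k) (Polynomial.X ^ (i - 1))) +
          c * eval x ((T c ^ k) (Polynomial.X ^ i))
        ≤ X ^ i * (c + i / X) ^ k * (i / X) + c * (X ^ i * (c + i / X) ^ k) := by gcongr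
      _ = X ^ i * (c + i / X) ^ (k + 1) := by rw [pow_succ]; ring

/-- An exponential polynomial with `J` frequencies `0, lam, …, (J-1) lam` and polynomial
coefficients of degree `< I` which has `J * I` real zeros vanishes. -/
theorem expPoly_zero (I : ℕ) {lam : ℝ} (hlam : 0 < lam) {a b : ℝ} : ∀ (J : ℕ) (P : ℕ → ℝ[X]),
    (∀ j < J, (P j).degree < I) →
    ZerosIn (fun x => ∑ j ∈ range J, eval x (P j) * Real.exp (j * lam * x)) a b (J * I) →
    ∀ j < J, P j = 0 := by
  intro J
  induction J with
  | zero => intro P _ _ j hj; omega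
  | succ J ih =>
    intro P hdeg hz
    -- the tower
    set D : ℕ → ℝ → ℝ := fun k x =>
      ∑ j ∈ range (J + 1), eval x ((T (j * lam) ^ k) (P j)) * Real.exp (j * lam * x) with hD
    have hD' : ∀ k x, HasDerivAt (D k) (D (k + 1) x) x := by
      intro k x
      simp only [hD]
      exact HasDerivAt.fun_sum (fun j _ => hasDerivAt_T_pow _ _ _ _)
    have hz0 : ZerosIn (D 0) a b (J * I + I) := by
      have : D 0 = fun x => ∑ j ∈ range (J + 1), eval x (P j) * Real.exp (j * lam * x) := by
        funext x; simp [hD]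
      rw [this]
      have e : J * I + I = (J + 1) * I := by ring
      rw [e]; exact hz
    have hzI : ZerosIn (D I) a b (J * I) := ZerosIn.tower hD' I hz0
    have hzQ : ZerosIn (fun x => ∑ j ∈ range J,
        eval x ((T ((j + 1 : ℕ) * lam) ^ I) (P (j + 1))) * Real.exp (j * lam * x)) a b (J * I) := by
      obtain ⟨z, hz1, hz2, hz3⟩ := hzI
      refine ⟨z, hz1, hz2, fun i => ?_⟩
      have h := hz3 i
      simp only [hD] at h
      rw [Finset.sum_range_succ'] at h
      have h00 : (T (((0 : ℕ) : ℝ) * lam) ^ I) (P 0) = 0 := by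
        rw [Nat.cast_zero, zero_mul, T_zero_pow]
        by_cases hP0 : P 0 = 0
        · rw [hP0, iterate_derivative_zero]
        · by_cases hI : I = 0
          · subst hI
            exfalso
            have := hdeg 0 (by omega)
            have h5 := (degree_lt_iff_coeff_zero (P 0) 0).mp this
            apply hP0
            ext m
            rw [h5 m (Nat.zero_le _), coeff_zero]
          · apply iterate_derivative_eq_zero
            exact (natDegree_lt_iff_degree_lt hP0).mpr (hdeg 0 (by omega))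
      rw [h00, eval_zero, zero_mul, add_zero] at h
      have hfac : ∀ x : ℝ, ∑ j ∈ range J, eval x ((T ((j + 1 : ℕ) * lam) ^ I) (P (j + 1))) *
          Real.exp ((j + 1 : ℕ) * lam * x) = Real.exp (lam * x) * ∑ j ∈ range J,
          eval x ((T ((j + 1 : ℕ) * lam) ^ I) (P (j + 1))) * Real.exp (j * lam * x) := by
        intro x
        rw [Finset.mul_sum]
        apply Finset.sum_congr rfl
        intro j _
        have : ((j + 1 : ℕ) : ℝ) * lam * x = lam * x + j * lam * x := by push_cast; ring
        rw [this, Real.exp_add]; ring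
      rw [hfac] at h
      exact (mul_eq_zero.mp h).resolve_left (Real.exp_pos _).ne'
    have hQ := ih (fun j => (T ((j + 1 : ℕ) * lam) ^ I) (P (j + 1)))
      (fun j hj => T_pow_degree_lt I (hdeg (j + 1) (by omega))) hzQ
    have hP1 : ∀ j < J, P (j + 1) = 0 := by
      intro j hj
      refine T_pow_eq_zero (c := (j + 1 : ℕ) * lam) ?_ I (hQ j hj)
      positivity
    have hP0 : P 0 = 0 := by
      obtain ⟨z, hz1, hz2, hz3⟩ := hz
      have hle : I ≤ (J + 1) * I := by nlinarith
      refine Polynomial.eq_zero_of_degree_lt_of_eval_finset_eq_zero (Finset.univ.image z)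
        (lt_of_lt_of_le (hdeg 0 (by omega)) ?_) ?_
      · rw [Finset.card_image_of_injective _ hz1.injective, Finset.card_univ, Fintype.card_fin]
        exact_mod_cast hle
      · intro x hx
        rw [Finset.mem_image] at hx
        obtain ⟨i, -, rfl⟩ := hx
        have h := hz3 i
        beta_reduce at h
        rw [Finset.sum_range_succ'] at h
        have h1 : ∑ j ∈ range J, eval (z i) (P (j + 1)) *
            Real.exp ((j + 1 : ℕ) * lam * z i) = 0 := by
          apply Finset.sum_eq_zero
          intro j hj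
          rw [hP1 j (Finset.mem_range.mp hj)]; simp
        rw [h1, zero_add] at h
        exact (mul_eq_zero.mp h).resolve_right (Real.exp_pos _).ne'
    intro j hj
    rcases Nat.eq_zero_or_pos j with rfl | hpos
    · exact hP0
    · obtain ⟨j', rfl⟩ : ∃ j', j = j' + 1 := ⟨j - 1, by omega⟩
      exact hP1 j' (by omega)

end Pool.Agent.KLA
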