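import Pool.Agent.KLA.Cycle3

/-!
Kernel computation of the first descending runs of a number.
-/

open Finset

namespace Pool.Agent.KLA

/-- `simD n F y r`: within `F` steps the orbit of `y` falls below `n` or completes `r + 1`
descending runs. -/
def simD (n F : ℕ) : ℕ → ℕ → Bool :=
  Nat.rec (fun _ _ => false) (fun _ ih y r =>
    Nat.rec
      (Bool.rec true
          (Nat.rec (ih (Nat.mul (nat_lit 2) (Nat.div y (nat_lit 3))) r)
            (fun _ _ => (Nat.rec true
              (fun r' _ => ih (Nat.mul (nat_lit 2) (Nat.div y (nat_lit 3))) r') r))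
            (Nat.mod (Nat.mul (nat_lit 2) (Nat.div y (nat_lit 3))) (nat_lit 3)))
          (Nat.ble n (Nat.mul (nat_lit 2) (Nat.div y (nat_lit 3)))))
      (fun c _ => Nat.rec
        (ih (Nat.succ (Nat.mul (nat_lit 4) (Nat.div y (nat_lit 3)))) r)
        (fun _ _ => ih (Nat.add (Nat.mul (nat_lit 4) (Nat.div y (nat_lit 3))) (nat_lit 3)) r) c)
      (Nat.mod y (nat_lit 3))) F

/-- `simE n F y r`: as `simD`, but returns `false` when a descending run ends at `n`. -/
def simE (n F : ℕ) : ℕ → ℕ → Bool :=
  Nat.rec (fun _ _ => false) (fun _ ih y r =>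
    Nat.rec
      (Bool.rec true
          (Nat.rec (ih (Nat.mul (nat_lit 2) (Nat.div y (nat_lit 3))) r)
            (fun _ _ => Bool.rec (Nat.rec true
              (fun r' _ => ih (Nat.mul (nat_lit 2) (Nat.div y (nat_lit 3))) r') r) false
              (Nat.beq (Nat.mul (nat_lit 2) (Nat.div y (nat_lit 3))) n))
            (Nat.mod (Nat.mul (nat_lit 2) (Nat.div y (nat_lit 3))) (nat_lit 3)))
          (Nat.ble n (Nat.mul (nat_lit 2) (Nat.div y (nat_lit 3)))))
      (fun c _ => Nat.rec
        (ih (Nat.succ (Nat.mul (nat_lit 4) (Nat.div y (nat_lit 3)))) r)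
        (fun _ _ => ih (Nat.add (Nat.mul (nat_lit 4) (Nat.div y (nat_lit 3))) (nat_lit 3)) r) c)
      (Nat.mod y (nat_lit 3))) F

theorem klam_mod_zero {y : ℕ} (h : y % 3 = 0) : klam y = 2 * (y / 3) := by
  unfold klam; rw [if_pos h]

theorem klam_mod_one {y : ℕ} (h : y % 3 = 1) : klam y = 4 * (y / 3) + 1 := by
  unfold klam; rw [if_neg (by omega), if_pos h]

theorem klam_mod_two {y : ℕ} (h : y % 3 = 2) : klam y = 4 * (y / 3) + 3 := by
  unfold klam; rw [if_neg (by omega), if_neg (by omega)]

theorem simD_unfold (n F y r : ℕ) : simD n (F + 1) y r =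
    Nat.rec (motive := fun _ => Bool)
      (Bool.rec (motive := fun _ => Bool) true
        (Nat.rec (motive := fun _ => Bool) (simD n F (2 * (y / 3)) r)
          (fun _ _ => (Nat.rec (motive := fun _ => Bool) true
              (fun r' _ => simD n F (2 * (y / 3)) r') r))
          ((2 * (y / 3)) % 3))
        (Nat.ble n (2 * (y / 3))))
      (fun c _ => Nat.rec (motive := fun _ => Bool) (simD n F (4 * (y / 3) + 1) r)
        (fun _ _ => simD n F (4 * (y / 3) + 3) r) c) (y % 3) := rfl

theorem simD_succ_asc {n F y r : ℕ} (h : ¬ 3 ∣ y) :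
    simD n (F + 1) y r = simD n F (klam y) r := by
  have h12 : y % 3 = 1 ∨ y % 3 = 2 := by omega
  rcases h12 with h1 | h1
  · rw [klam_mod_one h1, simD_unfold, h1]
    rfl
  · rw [klam_mod_two h1, simD_unfold, h1]
    rfl

theorem simD_succ_desc {n F y r : ℕ} (h : 3 ∣ y) :
    simD n (F + 1) y r = if n ≤ klam y then
      (if 3 ∣ klam y then simD n F (klam y) r else
        (match r with
          | 0 => true
          | r' + 1 => simD n F (klam y) r')) else true := by
  have h0 : y % 3 = 0 := by omega
  have e1 := simD_unfold n F y r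
  rw [h0] at e1
  rw [e1, ← klam_mod_zero h0]
  by_cases hn : n ≤ klam y
  · rw [if_pos hn]
    have hb : Nat.ble n (klam y) = true := Nat.ble_eq.mpr hn
    rw [hb]
    by_cases hd : 3 ∣ klam y
    · rw [if_pos hd]
      have : klam y % 3 = 0 := by omega
      simp only [this]
      rfl
    · rw [if_neg hd]
      obtain ⟨c, hc⟩ : ∃ c, klam y % 3 = c + 1 := ⟨klam y % 3 - 1, by omega⟩
      simp only [hc]
      cases r <;> rfl
  · rw [if_neg hn]
    have hb : Nat.ble n (klam y) = false := by
      cases hc : Nat.ble n (klam y)
      · rfl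
      · exact absurd (Nat.ble_eq.mp hc) hn
    rw [hb]
    rfl

theorem runs_succ (y t : ℕ) : runs y (t + 1) = re y + runs (klam y) t := by
  rw [add_comm t 1, runs_add]
  simp [runs]

theorem simD_sound {n : ℕ} : ∀ (F y r : ℕ), simD n F y r = true →
    ∃ t ≤ F, klam^[t] y < n ∨ r + 1 ≤ runs y t := by
  intro F
  induction F with
  | zero => intro y r h; exact absurd h (by simp [simD])
  | succ F ih =>
    intro y r h
    by_cases hd : 3 ∣ y
    · rw [simD_succ_desc hd] at h
      by_cases hn : n ≤ klam y
      · rw [if_pos hn] at h
        by_cases hf : 3 ∣ klam y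
        · rw [if_pos hf] at h
          obtain ⟨t, ht, h2⟩ := ih _ _ h
          refine ⟨t + 1, by omega, ?_⟩
          rw [Function.iterate_succ_apply, runs_succ]
          rcases h2 with h2 | h2
          · left; exact h2
          · right; omega
        · rw [if_neg hf] at h
          have hre : re y = 1 := by
            unfold re
            rw [if_pos (show 3 ∣ y ∧ ¬ 3 ∣ klam y from ⟨hd, hf⟩)]
          cases r with
          | zero =>
            refine ⟨1, by omega, Or.inr ?_⟩
            have := runs_succ y 0
            rw [zero_add] at this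
            omega
          | succ r' =>
            obtain ⟨t, ht, h2⟩ := ih _ _ h
            refine ⟨t + 1, by omega, ?_⟩
            rw [Function.iterate_succ_apply, runs_succ]
            rcases h2 with h2 | h2
            · left; exact h2
            · right; omega
      · refine ⟨1, by omega, Or.inl ?_⟩
        rw [Function.iterate_one]
        omega
    · rw [simD_succ_asc hd] at h
      obtain ⟨t, ht, h2⟩ := ih _ _ h
      refine ⟨t + 1, by omega, ?_⟩
      rw [Function.iterate_succ_apply, runs_succ]
      rcases h2 with h2 | h2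
      · left; exact h2
      · right; omega

theorem simE_unfold (n F y r : ℕ) : simE n (F + 1) y r =
    Nat.rec (motive := fun _ => Bool)
      (Bool.rec (motive := fun _ => Bool) true
        (Nat.rec (motive := fun _ => Bool) (simE n F (2 * (y / 3)) r)
          (fun _ _ => Bool.rec (motive := fun _ => Bool) (Nat.rec (motive := fun _ => Bool) true
              (fun r' _ => simE n F (2 * (y / 3)) r') r) false (Nat.beq (2 * (y / 3)) n))
          ((2 * (y / 3)) % 3))
        (Nat.ble n (2 * (y / 3))))
      (fun c _ => Nat.rec (motive := fun _ => Bool) (simE n F (4 * (y / 3) + 1) r)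
        (fun _ _ => simE n F (4 * (y / 3) + 3) r) c) (y % 3) := rfl

theorem simE_succ_asc {n F y r : ℕ} (h : ¬ 3 ∣ y) :
    simE n (F + 1) y r = simE n F (klam y) r := by
  have h12 : y % 3 = 1 ∨ y % 3 = 2 := by omega
  rcases h12 with h1 | h1
  · rw [klam_mod_one h1, simE_unfold, h1]
    rfl
  · rw [klam_mod_two h1, simE_unfold, h1]
    rfl

theorem simE_succ_desc {n F y r : ℕ} (h : 3 ∣ y) :
    simE n (F + 1) y r = if n ≤ klam y then
      (if 3 ∣ klam y then simE n F (klam y) r else
        (if klam y = n then false else
        (match r with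
          | 0 => true
          | r' + 1 => simE n F (klam y) r'))) else true := by
  have h0 : y % 3 = 0 := by omega
  have e1 := simE_unfold n F y r
  rw [h0] at e1
  rw [e1, ← klam_mod_zero h0]
  by_cases hn : n ≤ klam y
  · rw [if_pos hn]
    have hb : Nat.ble n (klam y) = true := Nat.ble_eq.mpr hn
    rw [hb]
    by_cases hd : 3 ∣ klam y
    · rw [if_pos hd]
      have : klam y % 3 = 0 := by omega
      simp only [this]
      rfl
    · rw [if_neg hd]
      obtain ⟨c, hc⟩ : ∃ c, klam y % 3 = c + 1 := ⟨klam y % 3 - 1, by omega⟩
      by_cases he : klam y = n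
      · rw [if_pos he]
        have hb2 : Nat.beq (klam y) n = true := by rw [he]; exact Nat.beq_refl n
        simp only [hc, hb2]
        rfl
      · rw [if_neg he]
        have hb2 : Nat.beq (klam y) n = false := by
          cases hc : Nat.beq (klam y) n
          · rfl
          · exact absurd (Nat.eq_of_beq_eq_true hc) he
        simp only [hc, hb2]
        cases r <;> rfl
  · rw [if_neg hn]
    have hb : Nat.ble n (klam y) = false := by
      cases hc : Nat.ble n (klam y)
      · rfl
      · exact absurd (Nat.ble_eq.mp hc) hn
    rw [hb]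
    rfl

theorem last_re {n y k : ℕ} (hn : 2 ≤ n) (hn3 : ¬ 3 ∣ n) (hmin : ∀ t ≤ k, n ≤ klam^[t] y)
    (h : klam^[k + 1] y = n) : re (klam^[k] y) = 1 := by
  rw [Function.iterate_succ_apply'] at h
  have h1 := hmin k le_rfl
  have h3 : 3 ∣ klam^[k] y := by
    by_contra hc
    have := lt_klam (by omega) hc
    omega
  unfold re
  rw [h, if_pos ⟨h3, hn3⟩]

theorem simE_sound {n : ℕ} (hn : 2 ≤ n) (hn3 : ¬ 3 ∣ n) : ∀ (F y r : ℕ), simE n F y r = true →
    ∀ ℓ, (∀ t ≤ ℓ, n ≤ klam^[t] y) → klam^[ℓ + 1] y = n → r + 2 ≤ runs y (ℓ + 1) := by
  intro F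
  induction F with
  | zero => intro y r h; exact absurd h (by simp [simE])
  | succ F ih =>
    intro y r h ℓ hmin hend
    have hlast := last_re hn hn3 hmin hend
    have hy : n ≤ y := by simpa using hmin 0 (by omega)
    rw [runs_succ]
    by_cases hd : 3 ∣ y
    · rw [simE_succ_desc hd] at h
      have hny : n ≤ klam y := by
        rcases Nat.eq_zero_or_pos ℓ with h0 | h0
        · subst h0
          rw [zero_add, Function.iterate_one] at hend
          omega
        · have := hmin 1 h0
          rwa [Function.iterate_one] at this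
      rw [if_pos hny] at h
      by_cases hf : 3 ∣ klam y
      · rw [if_pos hf] at h
        obtain ⟨k, rfl⟩ : ∃ k, ℓ = k + 1 := by
          rcases Nat.eq_zero_or_pos ℓ with h0 | h0
          · subst h0
            rw [zero_add, Function.iterate_one] at hend
            rw [hend] at hf
            exact absurd hf hn3
          · exact ⟨ℓ - 1, by omega⟩
        have := ih _ _ h k (fun t ht => by
          have := hmin (t + 1) (by omega)
          rwa [Function.iterate_succ_apply] at this) (by
          rwa [Function.iterate_succ_apply] at hend)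
        omega
      · rw [if_neg hf] at h
        have hre : re y = 1 := by
          unfold re
          rw [if_pos (show 3 ∣ y ∧ ¬ 3 ∣ klam y from ⟨hd, hf⟩)]
        by_cases he : klam y = n
        · rw [if_pos he] at h
          exact absurd h (by simp)
        · rw [if_neg he] at h
          obtain ⟨k, rfl⟩ : ∃ k, ℓ = k + 1 := by
            rcases Nat.eq_zero_or_pos ℓ with h0 | h0
            · subst h0
              rw [zero_add, Function.iterate_one] at hend
              exact absurd hend he
            · exact ⟨ℓ - 1, by omega⟩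
          cases r with
          | zero =>
            have h5 : 1 ≤ runs (klam y) (k + 1) := by
              unfold runs
              rw [Finset.sum_range_succ]
              rw [Function.iterate_succ_apply] at hlast
              omega
            omega
          | succ r' =>
            have := ih _ _ h k (fun t ht => by
              have := hmin (t + 1) (by omega)
              rwa [Function.iterate_succ_apply] at this) (by
              rwa [Function.iterate_succ_apply] at hend)
            omega
    · rw [simE_succ_asc hd] at h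
      obtain ⟨k, rfl⟩ : ∃ k, ℓ = k + 1 := by
        rcases Nat.eq_zero_or_pos ℓ with h0 | h0
        · subst h0
          rw [zero_add, Function.iterate_one] at hend
          have := lt_klam (by omega) hd
          omega
        · exact ⟨ℓ - 1, by omega⟩
      have := ih _ _ h k (fun t ht => by
        have := hmin (t + 1) (by omega)
        rwa [Function.iterate_succ_apply] at this) (by
        rwa [Function.iterate_succ_apply] at hend)
      omega

/-- Check of the two numbers `6 i + 2`, `6 i + 4`. -/
def chkD (F r i : ℕ) : Bool :=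
  Bool.rec false
    (simD (Nat.add (Nat.mul (nat_lit 6) i) (nat_lit 4)) F
      (Nat.add (Nat.mul (nat_lit 6) i) (nat_lit 4)) r)
    (simD (Nat.add (Nat.mul (nat_lit 6) i) (nat_lit 2)) F
      (Nat.add (Nat.mul (nat_lit 6) i) (nat_lit 2)) r)

/-- Check of a range of `k` values of `i` starting at `lo`. -/
def rangeD (F r lo k : ℕ) : Bool :=
  Nat.rec true (fun i ih => Bool.rec false ih (chkD F r (Nat.add lo i))) k

theorem rangeD_sound {F r lo : ℕ} : ∀ k, rangeD F r lo k = true → ∀ i, lo ≤ i → i < lo + k →
    simD (6 * i + 2) F (6 * i + 2) r = true ∧ simD (6 * i + 4) F (6 * i + 4) r = true := by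
  intro k
  induction k with
  | zero => intro _ i h1 h2; omega
  | succ k ih =>
    intro h i h1 h2
    have e : rangeD F r lo (k + 1) =
        Bool.rec false (rangeD F r lo k) (chkD F r (lo + k)) := rfl
    rw [e] at h
    cases hc : chkD F r (lo + k) with
    | false => rw [hc] at h; exact absurd h (by simp)
    | true =>
      rw [hc] at h
      rcases Nat.lt_or_ge i (lo + k) with h3 | h3
      · exact ih h i h1 h3
      · have hi : i = lo + k := by omega
        subst hi
        have e2 : chkD F r (lo + k) = Bool.rec false
            (simD (6 * (lo + k) + 4) F (6 * (lo + k) + 4) r)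
            (simD (6 * (lo + k) + 2) F (6 * (lo + k) + 2) r) := rfl
        rw [e2] at hc
        cases hc2 : simD (6 * (lo + k) + 2) F (6 * (lo + k) + 2) r with
        | false => rw [hc2] at hc; exact absurd hc (by simp)
        | true => rw [hc2] at hc; exact ⟨rfl, hc⟩

/-- Check (with equality test) of the two numbers `6 i + 2`, `6 i + 4`. -/
def chkE (F r i : ℕ) : Bool :=
  Bool.rec false
    (simE (Nat.add (Nat.mul (nat_lit 6) i) (nat_lit 4)) F
      (Nat.add (Nat.mul (nat_lit 6) i) (nat_lit 4)) r)
    (simE (Nat.add (Nat.mul (nat_lit 6) i) (nat_lit 2)) F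
      (Nat.add (Nat.mul (nat_lit 6) i) (nat_lit 2)) r)

/-- Check of a range of `k` values of `i` starting at `lo`. -/
def rangeE (F r lo k : ℕ) : Bool :=
  Nat.rec true (fun i ih => Bool.rec false ih (chkE F r (Nat.add lo i))) k

theorem rangeE_sound {F r lo : ℕ} : ∀ k, rangeE F r lo k = true → ∀ i, lo ≤ i → i < lo + k →
    simE (6 * i + 2) F (6 * i + 2) r = true ∧ simE (6 * i + 4) F (6 * i + 4) r = true := by
  intro k
  induction k with
  | zero => intro _ i h1 h2; omega
  | succ k ih =>
    intro h i h1 h2
    have e : rangeE F r lo (k + 1) =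
        Bool.rec false (rangeE F r lo k) (chkE F r (lo + k)) := rfl
    rw [e] at h
    cases hc : chkE F r (lo + k) with
    | false => rw [hc] at h; exact absurd h (by simp)
    | true =>
      rw [hc] at h
      rcases Nat.lt_or_ge i (lo + k) with h3 | h3
      · exact ih h i h1 h3
      · have hi : i = lo + k := by omega
        subst hi
        have e2 : chkE F r (lo + k) = Bool.rec false
            (simE (6 * (lo + k) + 4) F (6 * (lo + k) + 4) r)
            (simE (6 * (lo + k) + 2) F (6 * (lo + k) + 2) r) := rfl
        rw [e2] at hc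
        cases hc2 : simE (6 * (lo + k) + 2) F (6 * (lo + k) + 2) r with
        | false => rw [hc2] at hc; exact absurd hc (by simp)
        | true => rw [hc2] at hc; exact ⟨rfl, hc⟩

end Pool.Agent.KLA
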