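import Pool.Agent.KLA.Rolle

/-!
The auxiliary exponential polynomial, its size and one extrapolation step.
-/

open Polynomial Finset

namespace Pool.Agent.KLA

/-- The polynomial coefficient of `exp (j lam x)`. -/
noncomputable def PJ (I : ℕ) (p : ℕ → ℕ → ℤ) (j : ℕ) : ℝ[X] :=
  ∑ i ∈ range I, C (p i j : ℝ) * X ^ i

/-- The auxiliary function and its derivatives. -/
noncomputable def EJ (I J : ℕ) (p : ℕ → ℕ → ℤ) (lam : ℝ) (k : ℕ) (x : ℝ) : ℝ :=
  ∑ j ∈ range J, eval x ((T (j * lam) ^ k) (PJ I p j)) * Real.exp (j * lam * x)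

/-- The integer close to the value of the auxiliary function at `r L + s K`. -/
def FJ (I J : ℕ) (p : ℕ → ℕ → ℤ) (K L r s : ℕ) : ℤ :=
  ∑ j ∈ range J, ∑ i ∈ range I,
    p i j * ((r * L + s * K : ℕ) : ℤ) ^ i * ((2 ^ r * 3 ^ s : ℕ) : ℤ) ^ j

theorem EJ_hasDerivAt (I J : ℕ) (p : ℕ → ℕ → ℤ) (lam : ℝ) (k : ℕ) (x : ℝ) :
    HasDerivAt (EJ I J p lam k) (EJ I J p lam (k + 1) x) x := by
  unfold EJ
  exact HasDerivAt.fun_sum (fun j _ => hasDerivAt_T_pow _ _ _ _)

theorem PJ_degree (I : ℕ) (p : ℕ → ℕ → ℤ) (j : ℕ) : (PJ I p j).degree < I := by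
  unfold PJ
  rw [← mem_degreeLT]
  apply Submodule.sum_mem
  intro i hi
  rw [mem_degreeLT]
  refine lt_of_le_of_lt (degree_C_mul_X_pow_le _ _) ?_
  exact_mod_cast Finset.mem_range.mp hi

theorem PJ_coeff (I : ℕ) (p : ℕ → ℕ → ℤ) (j i : ℕ) (hi : i < I) :
    (PJ I p j).coeff i = (p i j : ℝ) := by
  unfold PJ
  rw [finsetSum_coeff]
  simp only [coeff_C_mul, coeff_X_pow]
  rw [Finset.sum_eq_single i]
  · simp
  · intro b _ hb
    rw [if_neg (Ne.symm hb), mul_zero]
  · intro h
    exact absurd (Finset.mem_range.mpr hi) h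

theorem PJ_eval_T_bound {I : ℕ} {p : ℕ → ℕ → ℤ} {j : ℕ} {H c X x : ℝ}
    (hp : ∀ i < I, |(p i j : ℝ)| ≤ H) (hH : 0 ≤ H) (hc : 0 ≤ c) (hX : 1 ≤ X)
    (hx0 : 0 ≤ x) (hxX : x ≤ X) (k : ℕ) :
    |eval x ((T c ^ k) (PJ I p j))| ≤ I * H * X ^ I * (c + I / X) ^ k := by
  have hX0 : 0 < X := by linarith
  unfold PJ
  rw [map_sum, eval_finsetSum]
  refine (Finset.abs_sum_le_sum_abs _ _).trans ?_
  have : ∀ i ∈ range I, |eval x ((T c ^ k) (C (p i j : ℝ) * Polynomial.X ^ i))| ≤
      H * X ^ I * (c + I / X) ^ k := by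
    intro i hi
    have hi' := Finset.mem_range.mp hi
    rw [← smul_eq_C_mul, map_smul, eval_smul, smul_eq_mul, abs_mul]
    obtain ⟨h1, h2⟩ := T_pow_X_bound hc hX0 hx0 hxX k i
    rw [abs_of_nonneg h1]
    calc |(p i j : ℝ)| * eval x ((T c ^ k) (Polynomial.X ^ i))
        ≤ H * (X ^ i * (c + i / X) ^ k) := by
          gcongr
          exact hp i hi'
      _ ≤ H * (X ^ I * (c + I / X) ^ k) := by
          gcongr
      _ = H * X ^ I * (c + I / X) ^ k := by ring
  refine (Finset.sum_le_sum this).trans ?_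
  rw [Finset.sum_const, Finset.card_range, nsmul_eq_mul]
  apply le_of_eq; ring

theorem EJ_bound {I J : ℕ} {p : ℕ → ℕ → ℤ} {H lam X x : ℝ}
    (hp : ∀ i < I, ∀ j < J, |(p i j : ℝ)| ≤ H) (hH : 0 ≤ H) (hlam : 0 ≤ lam) (hX : 1 ≤ X)
    (hx0 : 0 ≤ x) (hxX : x ≤ X) (k : ℕ) :
    |EJ I J p lam k x| ≤
      J * I * H * X ^ I * (J * lam + I / X) ^ k * Real.exp (J * lam * X) := by
  have hX0 : 0 < X := by linarith
  unfold EJ
  refine (Finset.abs_sum_le_sum_abs _ _).trans ?_
  have : ∀ j ∈ range J, |eval x ((T (j * lam) ^ k) (PJ I p j)) * Real.exp (j * lam * x)| ≤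
      I * H * X ^ I * (J * lam + I / X) ^ k * Real.exp (J * lam * X) := by
    intro j hj
    have hj' := Finset.mem_range.mp hj
    rw [abs_mul, abs_of_pos (Real.exp_pos _)]
    have h1 := PJ_eval_T_bound (c := j * lam) (fun i hi => hp i hi j hj') hH (by positivity)
      hX hx0 hxX k
    have hjJ : (j : ℝ) ≤ J := by exact_mod_cast hj'.le
    calc |eval x ((T (j * lam) ^ k) (PJ I p j))| * Real.exp (j * lam * x)
        ≤ (I * H * X ^ I * (j * lam + I / X) ^ k) * Real.exp (J * lam * X) := by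
          gcongr
      _ ≤ (I * H * X ^ I * (J * lam + I / X) ^ k) * Real.exp (J * lam * X) := by
          gcongr
  refine (Finset.sum_le_sum this).trans ?_
  rw [Finset.sum_const, Finset.card_range, nsmul_eq_mul]
  apply le_of_eq; ring

/-- One extrapolation step. -/
theorem extrapolate {I J : ℕ} {p : ℕ → ℕ → ℤ} {H lam X eps : ℝ}
    (hp : ∀ i < I, ∀ j < J, |(p i j : ℝ)| ≤ H) (hH : 0 ≤ H) (hlam : 0 ≤ lam) (hX : 1 ≤ X)
    (s : Finset ℕ) (hs : ∀ n ∈ s, (n : ℝ) ≤ X) (x₀ : ℕ) (hx₀ : (x₀ : ℝ) ≤ X) (hx₀s : x₀ ∉ s)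
    (heps : 0 ≤ eps) (hE : ∀ n ∈ s, |EJ I J p lam 0 (n : ℝ)| ≤ eps) :
    |EJ I J p lam 0 (x₀ : ℝ)| ≤ s.card * X ^ s.card * eps +
      J * I * H * X ^ I * Real.exp (J * lam * X) *
        ((J * lam * X + I) ^ s.card / (s.card.factorial : ℝ)) := by
  classical
  have hX0 : 0 < X := by linarith
  obtain ⟨ξ, hξ, hform⟩ := lagrange_error (ι := ℕ) (D := EJ I J p lam)
    (EJ_hasDerivAt I J p lam) (a := 0) (b := X) s (fun n => (n : ℝ))
    (fun a _ b _ h => Nat.cast_injective (R := ℝ) h) (fun n hn => ⟨Nat.cast_nonneg n, hs n hn⟩)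
    (x₀ : ℝ) ⟨Nat.cast_nonneg _, hx₀⟩ (fun n hn h => hx₀s (by
      have : x₀ = n := by exact_mod_cast h
      rw [this]; exact hn))
  rw [hform]
  refine (abs_add_le _ _).trans (add_le_add ?_ ?_)
  · rw [Lagrange.interpolate_apply, eval_finsetSum]
    refine (Finset.abs_sum_le_sum_abs _ _).trans ?_
    have : ∀ i ∈ s, |eval (x₀ : ℝ) (C (EJ I J p lam 0 (i : ℝ)) *
        Lagrange.basis s (fun n : ℕ => (n : ℝ)) i)| ≤ X ^ s.card * eps := by
      intro i hi
      rw [eval_mul, eval_C, abs_mul, mul_comm]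
      have hb : |eval (x₀ : ℝ) (Lagrange.basis s (fun n : ℕ => (n : ℝ)) i)| ≤ X ^ s.card := by
        rw [Lagrange.basis, eval_prod, Finset.abs_prod]
        calc ∏ j ∈ s.erase i, |eval (x₀ : ℝ) (Lagrange.basisDivisor (i : ℝ) (j : ℝ))|
            ≤ ∏ j ∈ s.erase i, X := by
              apply Finset.prod_le_prod (fun _ _ => abs_nonneg _)
              intro j hj
              rw [Finset.mem_erase] at hj
              rw [Lagrange.basisDivisor, eval_mul, eval_C, eval_sub, eval_X, eval_C, abs_mul,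
                abs_inv]
              have h1 : (1 : ℝ) ≤ |(i : ℝ) - (j : ℝ)| := by
                have : (1 : ℤ) ≤ |(i : ℤ) - (j : ℤ)| := by
                  apply Int.one_le_abs
                  intro h0
                  exact hj.1 (by omega)
                exact_mod_cast this
              have h2 : |(x₀ : ℝ) - (j : ℝ)| ≤ X := by
                rw [abs_le]
                have := hs j hj.2
                constructor
                · have : (0 : ℝ) ≤ x₀ := Nat.cast_nonneg _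
                  linarith
                · have : (0 : ℝ) ≤ j := Nat.cast_nonneg _
                  linarith
              calc |(i : ℝ) - (j : ℝ)|⁻¹ * |(x₀ : ℝ) - (j : ℝ)| ≤ 1 * X := by
                    gcongr
                    exact inv_le_one_of_one_le₀ h1
                _ = X := one_mul X
          _ = X ^ (s.erase i).card := by rw [Finset.prod_const]
          _ ≤ X ^ s.card := by
              gcongr
              exact Finset.erase_subset i s
      gcongr
      exact hE i hi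
    refine (Finset.sum_le_sum this).trans ?_
    rw [Finset.sum_const, nsmul_eq_mul]
    apply le_of_eq; ring
  · rw [abs_mul, abs_div]
    have h1 := EJ_bound hp hH hlam hX hξ.1 hξ.2 s.card
    have h2 : |∏ i ∈ s, ((x₀ : ℝ) - (i : ℝ))| ≤ X ^ s.card := by
      rw [Finset.abs_prod]
      calc ∏ i ∈ s, |(x₀ : ℝ) - (i : ℝ)| ≤ ∏ _i ∈ s, X := by
            apply Finset.prod_le_prod (fun _ _ => abs_nonneg _)
            intro j hj
            rw [abs_le]
            have := hs j hj
            constructor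
            · have : (0 : ℝ) ≤ x₀ := Nat.cast_nonneg _
              linarith
            · have : (0 : ℝ) ≤ j := Nat.cast_nonneg _
              linarith
        _ = X ^ s.card := by rw [Finset.prod_const]
    rw [abs_of_pos (by positivity : (0 : ℝ) < (s.card.factorial : ℝ))]
    calc |EJ I J p lam s.card ξ| / (s.card.factorial : ℝ) * |∏ i ∈ s, ((x₀ : ℝ) - (i : ℝ))|
        ≤ (J * I * H * X ^ I * (J * lam + I / X) ^ s.card * Real.exp (J * lam * X)) /
            (s.card.factorial : ℝ) * X ^ s.card := by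
          gcongr
      _ = J * I * H * X ^ I * Real.exp (J * lam * X) *
            (((J * lam + I / X) * X) ^ s.card / (s.card.factorial : ℝ)) := by
          rw [mul_pow]; ring
      _ = _ := by
          congr 3
          field_simp

end Pool.Agent.KLA
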